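import Mathlib

/-! # S5-DENS: an abstract mean ergodic theorem with symmetries -/

open MeasureTheory Filter Topology

namespace Pool.Agent.Helper83.S5

variable {Y : Type*} [MeasurableSpace Y] {ν : Measure Y}

namespace Densx

/-- the Koopman operator -/
noncomputable def K (ν : Measure Y) {f : Y → Y} (hf : MeasurePreserving f ν ν) :
    Lp ℝ 2 ν →ₗᵢ[ℝ] Lp ℝ 2 ν :=
  Lp.compMeasurePreservingₗᵢ ℝ f hf

lemma K_coe {f : Y → Y} (hf : MeasurePreserving f ν ν) (g : Lp ℝ 2 ν) :
    K ν hf g =ᵐ[ν] fun y => g (f y) :=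
  Lp.coeFn_compMeasurePreserving g hf

lemma K_comp {f g f' g' : Y → Y} (hf : MeasurePreserving f ν ν) (hg : MeasurePreserving g ν ν)
    (hf' : MeasurePreserving f' ν ν) (hg' : MeasurePreserving g' ν ν)
    (h : ∀ᵐ y ∂ν, f (g y) = f' (g' y)) (x : Lp ℝ 2 ν) :
    K ν hg (K ν hf x) = K ν hg' (K ν hf' x) := by
  refine Lp.ext ?_
  filter_upwards [K_coe hg (K ν hf x), hg.quasiMeasurePreserving.ae (K_coe hf x),
    K_coe hg' (K ν hf' x), hg'.quasiMeasurePreserving.ae (K_coe hf' x), h] with y h1 h2 h3 h4 h5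
  rw [h1, h2, h3, h4, h5]

lemma K_comp_id {f g : Y → Y} (hf : MeasurePreserving f ν ν) (hg : MeasurePreserving g ν ν)
    (h : ∀ᵐ y ∂ν, f (g y) = y) (x : Lp ℝ 2 ν) : K ν hg (K ν hf x) = x := by
  refine Lp.ext ?_
  filter_upwards [K_coe hg (K ν hf x), hg.quasiMeasurePreserving.ae (K_coe hf x), h]
    with y h1 h2 h5
  rw [h1, h2, h5]

/-- the Koopman operator as a continuous linear map -/
noncomputable def C (ν : Measure Y) {f : Y → Y} (hf : MeasurePreserving f ν ν) :
    Lp ℝ 2 ν →L[ℝ] Lp ℝ 2 ν := (K ν hf).toContinuousLinearMap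

lemma C_norm {f : Y → Y} (hf : MeasurePreserving f ν ν) : ‖C ν hf‖ ≤ 1 :=
  (K ν hf).norm_toContinuousLinearMap_le

lemma proj_congr {E : Type*} [NormedAddCommGroup E] [InnerProductSpace ℝ E]
    (V W : Submodule ℝ E) [V.HasOrthogonalProjection] [W.HasOrthogonalProjection] (h : V = W)
    (x : E) : ((V.orthogonalProjectionOnto x : V) : E) = ((W.orthogonalProjectionOnto x : W) : E) := by
  subst h
  rfl

lemma avg {f g r : Y → Y} (hf : MeasurePreserving f ν ν) (hg : MeasurePreserving g ν ν)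
    (hr : MeasurePreserving r ν ν) (h : ∀ᵐ y ∂ν, f (r y) = r (g y)) (x : Lp ℝ 2 ν)
    (hx : K ν hr x = x) (n : ℕ) : K ν hr ((C ν hf)^[n] x) = (C ν hg)^[n] x := by
  induction n with
  | zero => simpa using hx
  | succ n ih =>
    rw [Function.iterate_succ_apply', Function.iterate_succ_apply', ← ih]
    exact K_comp hf hr hr hg h _

lemma avg' {f g r : Y → Y} (hf : MeasurePreserving f ν ν) (hg : MeasurePreserving g ν ν)
    (hr : MeasurePreserving r ν ν) (h : ∀ᵐ y ∂ν, f (r y) = r (g y)) (x : Lp ℝ 2 ν)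
    (hx : K ν hr x = x) (n : ℕ) :
    K ν hr (birkhoffAverage ℝ (C ν hf) _root_.id n x) = birkhoffAverage ℝ (C ν hg) _root_.id n x := by
  unfold birkhoffAverage birkhoffSum
  simp only [_root_.id]
  rw [map_smul, map_sum]
  congr 1
  exact Finset.sum_congr rfl fun k _ => avg hf hg hr h x hx k

lemma integral_norm_le [IsProbabilityMeasure ν] (f : Lp ℝ 2 ν) : ∫ y, |f y| ∂ν ≤ ‖f‖ := by
  have h1 : ∫ y, |f y| ∂ν = (eLpNorm f 1 ν).toReal := by
    have h2 : ∫ y, |f y| ∂ν = ∫ y, ‖f y‖ ∂ν := by simp only [Real.norm_eq_abs]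
    rw [h2, integral_norm_eq_lintegral_enorm (Lp.aestronglyMeasurable f),
      eLpNorm_one_eq_lintegral_enorm]
  rw [h1, Lp.norm_def]
  refine ENNReal.toReal_mono (Lp.eLpNorm_ne_top f) ?_
  exact eLpNorm_le_eLpNorm_of_exponent_le (by norm_num) (Lp.aestronglyMeasurable f)

end Densx

open Densx in
/-- If every measurable set which is almost invariant under `T`, `r` and `s` is trivial and `A` is
invariant under `r` and `s`, then the averages of `1_A` along `T` converge in `L1` to the constant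
`ν A`. (`r` conjugates `T` to its inverse, `s` commutes with `T`.) -/
theorem dens_of_erg [IsProbabilityMeasure ν] {T T' r s : Y → Y} (hT : MeasurePreserving T ν ν)
    (hT' : MeasurePreserving T' ν ν) (hr : MeasurePreserving r ν ν) (hs : MeasurePreserving s ν ν)
    (hTT : ∀ᵐ y ∂ν, T (T' y) = y) (hTT' : ∀ᵐ y ∂ν, T' (T y) = y)
    (hrT : ∀ᵐ y ∂ν, T (r y) = r (T' y)) (hsT : ∀ᵐ y ∂ν, T (s y) = s (T y))
    {A : Set Y} (hA : MeasurableSet A) (hAr : ∀ᵐ y ∂ν, (r y ∈ A ↔ y ∈ A))
    (hAs : ∀ᵐ y ∂ν, (s y ∈ A ↔ y ∈ A))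
    (herg : ∀ E : Set Y, MeasurableSet E → (∀ᵐ y ∂ν, (T y ∈ E ↔ y ∈ E)) →
      (∀ᵐ y ∂ν, (r y ∈ E ↔ y ∈ E)) → (∀ᵐ y ∂ν, (s y ∈ E ↔ y ∈ E)) → ν E = 0 ∨ ν Eᶜ = 0) :
    Tendsto (fun n : ℕ => ∫ y, |(∑ k ∈ Finset.range n, A.indicator (fun _ => (1 : ℝ)) (T^[k] y)) / n
      - ν.real A| ∂ν) atTop (𝓝 0) := by
  set a : Lp ℝ 2 ν := indicatorConstLp 2 hA (measure_ne_top ν A) (1 : ℝ) with ha
  have hacoe : a =ᵐ[ν] A.indicator fun _ => (1 : ℝ) := indicatorConstLp_coeFn
  have hinv : ∀ {f : Y → Y} (hf : MeasurePreserving f ν ν), (∀ᵐ y ∂ν, (f y ∈ A ↔ y ∈ A)) →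
      K ν hf a = a := by
    intro f hf h
    refine Lp.ext ?_
    filter_upwards [K_coe hf a, hacoe, hf.quasiMeasurePreserving.ae hacoe, h] with y h1 h2 h3 h4
    rw [h1, h2, h3]
    by_cases hy : y ∈ A
    · rw [Set.indicator_of_mem hy, Set.indicator_of_mem (h4.mpr hy)]
    · rw [Set.indicator_of_notMem hy, Set.indicator_of_notMem (fun h5 => hy (h4.mp h5))]
  have har := hinv hr hAr
  have has := hinv hs hAs
  have hfix : (C ν hT).eqLocus (1 : Lp ℝ 2 ν →L[ℝ] Lp ℝ 2 ν) =
      (C ν hT').eqLocus (1 : Lp ℝ 2 ν →L[ℝ] Lp ℝ 2 ν) := by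
    ext x
    simp only [LinearMap.mem_eqLocus]
    constructor
    · intro h
      have h1 : K ν hT x = x := h
      have h2 := K_comp_id hT hT' hTT x
      rw [h1] at h2
      exact h2
    · intro h
      have h1 : K ν hT' x = x := h
      have h2 := K_comp_id hT' hT hTT' x
      rw [h1] at h2
      exact h2
  have hlim := ContinuousLinearMap.tendsto_birkhoffAverage_orthogonalProjection (C ν hT)
    (C_norm hT) a
  have hlim' := ContinuousLinearMap.tendsto_birkhoffAverage_orthogonalProjection (C ν hT')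
    (C_norm hT') a
  rw [← proj_congr _ _ hfix a] at hlim'
  set P := ((C ν hT).eqLocus (1 : Lp ℝ 2 ν →L[ℝ] Lp ℝ 2 ν)).orthogonalProjectionOnto a with hP
  set h : Lp ℝ 2 ν := (P : Lp ℝ 2 ν) with hh
  have hTh : K ν hT h = h := P.2
  have hRh : K ν hr h = h := by
    have h1 : Tendsto (fun n => K ν hr (birkhoffAverage ℝ (C ν hT) _root_.id n a)) atTop
        (𝓝 (K ν hr h)) := ((K ν hr).continuous.tendsto h).comp hlim
    refine tendsto_nhds_unique h1 (hlim'.congr fun n => ?_)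
    exact (avg' hT hT' hr hrT a har n).symm
  have hSh : K ν hs h = h := by
    have h1 : Tendsto (fun n => K ν hs (birkhoffAverage ℝ (C ν hT) _root_.id n a)) atTop
        (𝓝 (K ν hs h)) := ((K ν hs).continuous.tendsto h).comp hlim
    refine tendsto_nhds_unique h1 (hlim.congr fun n => ?_)
    exact (avg' hT hT hs hsT a has n).symm
  -- `h` is constant
  set g : Y → ℝ := (Lp.aestronglyMeasurable h).mk h with hg
  have hgm : Measurable g := (Lp.aestronglyMeasurable h).stronglyMeasurable_mk.measurable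
  have hgh : h =ᵐ[ν] g := (Lp.aestronglyMeasurable h).ae_eq_mk
  have hginv : ∀ {f : Y → Y} (hf : MeasurePreserving f ν ν), K ν hf h = h →
      ∀ᵐ y ∂ν, g (f y) = g y := by
    intro f hf h1
    have h2 := K_coe hf h
    rw [h1] at h2
    filter_upwards [h2, hgh, hf.quasiMeasurePreserving.ae hgh] with y h3 h4 h5
    rw [← h4, ← h5, h3]
  obtain ⟨c, hc⟩ : ∃ c, g =ᵐ[ν] Function.const Y c := by
    refine exists_eventuallyEq_const_of_forall_separating MeasurableSet fun U hU => ?_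
    have h1 := herg (g ⁻¹' U) (hgm hU)
      (by filter_upwards [hginv hT hTh] with y hy; rw [Set.mem_preimage, Set.mem_preimage, hy])
      (by filter_upwards [hginv hr hRh] with y hy; rw [Set.mem_preimage, Set.mem_preimage, hy])
      (by filter_upwards [hginv hs hSh] with y hy; rw [Set.mem_preimage, Set.mem_preimage, hy])
    rcases h1 with h1 | h1
    · right
      have h2 : ∀ᵐ y ∂ν, y ∉ g ⁻¹' U := measure_eq_zero_iff_ae_notMem.mp h1
      exact h2
    · left
      have h2 : ∀ᵐ y ∂ν, y ∉ (g ⁻¹' U)ᶜ := measure_eq_zero_iff_ae_notMem.mp h1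
      filter_upwards [h2] with y hy
      simpa using hy
  have hhc : h =ᵐ[ν] fun _ => c := hgh.trans hc
  -- the constant
  have hcA : c = ν.real A := by
    set o : Lp ℝ 2 ν := (memLp_const (1 : ℝ)).toLp (fun _ : Y => (1 : ℝ)) with ho
    have hocoe : o =ᵐ[ν] fun _ => (1 : ℝ) := MemLp.coeFn_toLp _
    have hofix : o ∈ (C ν hT).eqLocus (1 : Lp ℝ 2 ν →L[ℝ] Lp ℝ 2 ν) := by
      rw [LinearMap.mem_eqLocus]
      change K ν hT o = o
      refine Lp.ext ?_
      filter_upwards [K_coe hT o, hocoe, hT.quasiMeasurePreserving.ae hocoe] with y h1 h2 h3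
      rw [h1, h2, h3]
    have h1 : inner ℝ (a - h) o = 0 := by
      have h2 := Submodule.starProjection_inner_eq_zero
        (K := (C ν hT).eqLocus (1 : Lp ℝ 2 ν →L[ℝ] Lp ℝ 2 ν)) a o hofix
      rw [Submodule.starProjection_apply] at h2
      exact h2
    rw [inner_sub_left, sub_eq_zero] at h1
    have h2 : inner ℝ a o = ν.real A := by
      rw [L2.inner_def]
      have : ∀ᵐ y ∂ν, inner ℝ (a y) (o y) = A.indicator (fun _ => (1 : ℝ)) y := by
        filter_upwards [hacoe, hocoe] with y h3 h4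
        rw [h3, h4]
        simp
      rw [integral_congr_ae this, integral_indicator hA]
      simp
    have h3 : inner ℝ h o = c := by
      rw [L2.inner_def]
      have : ∀ᵐ y ∂ν, inner ℝ (h y) (o y) = c := by
        filter_upwards [hhc, hocoe] with y h3 h4
        rw [h3, h4]
        simp
      rw [integral_congr_ae this]
      simp
    rw [← h3, ← h1, h2]
  -- the averages
  have havg : ∀ n : ℕ, (birkhoffAverage ℝ (C ν hT) _root_.id n a : Lp ℝ 2 ν) =ᵐ[ν]
      fun y => (∑ k ∈ Finset.range n, A.indicator (fun _ => (1 : ℝ)) (T^[k] y)) / n := by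
    intro n
    have h1 : ∀ k : ℕ, (C ν hT)^[k] a =ᵐ[ν] fun y => A.indicator (fun _ => (1 : ℝ)) (T^[k] y) := by
      intro k
      induction k with
      | zero => simpa using hacoe
      | succ k ih =>
        rw [Function.iterate_succ_apply']
        have h2 : C ν hT ((C ν hT)^[k] a) =ᵐ[ν] fun y => ((C ν hT)^[k] a) (T y) :=
          K_coe hT ((C ν hT)^[k] a)
        filter_upwards [h2, hT.quasiMeasurePreserving.ae ih] with y h3 h4
        rw [h3, h4, Function.iterate_succ_apply]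
    have h2 : birkhoffAverage ℝ (C ν hT) _root_.id n a =
        (n : ℝ)⁻¹ • ∑ k ∈ Finset.range n, (C ν hT)^[k] a := rfl
    rw [h2]
    have h3 : ∀ m : ℕ, (∑ k ∈ Finset.range m, (C ν hT)^[k] a : Lp ℝ 2 ν) =ᵐ[ν]
        fun y => ∑ k ∈ Finset.range m, A.indicator (fun _ => (1 : ℝ)) (T^[k] y) := by
      intro m
      induction m with
      | zero =>
        simp only [Finset.range_zero, Finset.sum_empty]
        exact Lp.coeFn_zero ℝ 2 ν
      | succ m ih =>
        rw [Finset.sum_range_succ]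
        filter_upwards [Lp.coeFn_add (∑ k ∈ Finset.range m, (C ν hT)^[k] a) ((C ν hT)^[m] a), ih,
          h1 m] with y h4 h5 h6
        rw [h4, Pi.add_apply, h5, h6, Finset.sum_range_succ]
    filter_upwards [Lp.coeFn_smul (n : ℝ)⁻¹ (∑ k ∈ Finset.range n, (C ν hT)^[k] a), h3 n]
      with y h4 h5
    rw [h4, Pi.smul_apply, h5, smul_eq_mul, div_eq_inv_mul]
  have hto : Tendsto (fun n : ℕ => ‖birkhoffAverage ℝ (C ν hT) _root_.id n a - h‖) atTop (𝓝 0) :=
    tendsto_iff_norm_sub_tendsto_zero.mp hlim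
  refine squeeze_zero (fun n => integral_nonneg fun y => abs_nonneg _) (fun n => ?_) hto
  refine le_trans (le_of_eq ?_) (integral_norm_le (birkhoffAverage ℝ (C ν hT) _root_.id n a - h))
  refine integral_congr_ae ?_
  filter_upwards [Lp.coeFn_sub (birkhoffAverage ℝ (C ν hT) _root_.id n a) h, havg n, hhc]
    with y h1 h2 h3
  rw [h1, Pi.sub_apply, h2, h3, hcA]

end Pool.Agent.Helper83.S5
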