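import Pool.Agent.Helper83.S5.Meas
import Pool.Agent.Helper66.TJ.Refl

/-! # S5-ACT: the action of the integers on the wall space -/

open MeasureTheory Filter Topology
open scoped symmDiff

namespace Pool.Agent.Helper83.S5

open Pool.Agent.Helper60.TJ

theorem G2_Tz {y : YY} (h : G2 y) (n : ℤ) : G2 (Tz n y) where
  gy := GY_Tz h.gy
  mem := by
    have h1 := Tz_fst h.gy n
    rw [h1]
    exact mem_GJ_sh.2 h.mem
  mem' := by
    have h1 := Tz_fst h.gy n
    rw [h1]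
    exact mem_GJ_sh.2 h.mem'
  cw := CW_Tz h.gy h.cw n

namespace Actx

theorem wl_tog (y : YY) : wl (tog y).1 = wl y.1 := bx_Zj_Zk y

theorem wt_tog (y : YY) : wt (tog y).1.1 = wt y.1.1 := wt_flp _ _

end Actx

/-- the walk of the toggled point -/
theorem xv_tog_pos {y : YY} (h : G2 y) (n : ℕ) : xv (Tz n (tog y)) = - xv (Tz n y) := by
  have h' : GY (tog y) := (GY_congr (Actx.wl_tog y) rfl).2 h.gy
  rw [xv_Tz h', xv_Tz h.gy, wedgez_congr (Actx.wl_tog y) rfl, Actx.wt_tog]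
  have h2 : (tog y).1.2.1 (wedgez y n) = !(y.1.2.1 (wedgez y n)) := by
    show bx y.1.2.1 (hp y) (wedgez y n) = _
    unfold bx
    rw [hp_wedgez h.gy]
    simp
  rw [h2, sg_not]
  ring

theorem xv_tog_neg {y : YY} (h : G2 y) (n : ℕ) :
    xv (Tz (-((n : ℤ) + 1)) (tog y)) = xv (Tz (-((n : ℤ) + 1)) y) := by
  have h' : GY (tog y) := (GY_congr (Actx.wl_tog y) rfl).2 h.gy
  rw [xv_Tz h', xv_Tz h.gy, wedgez_congr (Actx.wl_tog y) rfl, Actx.wt_tog]
  have h2 : (tog y).1.2.1 (wedgez y (-((n : ℤ) + 1))) = y.1.2.1 (wedgez y (-((n : ℤ) + 1))) := by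
    show bx y.1.2.1 (hp y) (wedgez y (-((n : ℤ) + 1))) = _
    unfold bx
    rw [hp_wedgez h.gy]
    have : ¬ (0 ≤ (-((n : ℤ) + 1))) := by omega
    rw [decide_eq_false this, Bool.xor_false]
  rw [h2]

end Pool.Agent.Helper83.S5
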