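import Pool.Agent.Helper83.S5.Defs

/-! # S5-AEG2: almost every wall is one path -/

open MeasureTheory Filter Topology
open scoped symmDiff

namespace Pool.Agent.Helper83.S5

open Pool.Agent.Helper60.TJ

theorem ae_G2 {μ : Measure ℝ} [IsProbabilityMeasure μ] {Q : Measure XX} (h5 : H5 μ Q) :
    ∀ᵐ y ∂(nuM Q), G2 y := by
  filter_upwards [nu_ae_of h5.isQ.nice, nu_ae_GY h5.isQ, ae_CW h5.isQ] with y h1 h2 h3
  exact ⟨h2, h1.2.1, h1.2.2.1, h3⟩

end Pool.Agent.Helper83.S5
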