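import Pool.Agent.Helper83.S5.Meas

/-! # S5-COUNT: counting pairs on one path in a box -/

open MeasureTheory Filter Topology
open scoped symmDiff

namespace Pool.Agent.Helper83.S5

open Pool.Agent.Helper60.TJ

open Classical in
/-- starting points in the box which belong to `H` -/
noncomputable def HS (p : XX) (L : ℕ) (H : Set YY) : Finset (Vx × Dir) :=
  ((box L) ×ˢ Finset.univ).filter fun q => (shX q.1 p, q.2) ∈ H

open Classical in
/-- bad pairs in the box -/
noncomputable def BPr (p : XX) (L : ℕ) (C : ℝ) : Finset (Vx × Vx) :=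
  (box L ×ˢ box L).filter fun q => BadP p q.1 q.2 C

/-! ### pairs of integers with a large difference -/

private theorem count_ints (K : Finset ℤ) (n0 : ℕ) :
    (K.card : ℝ) ^ 2 ≤ 2 * (((K ×ˢ K).filter fun q => q.1 + (n0 : ℤ) ≤ q.2).card : ℝ)
      + 2 * n0 * K.card := by
  classical
  set A := (K ×ˢ K).filter fun q => q.1 + (n0 : ℤ) ≤ q.2 with hA
  set A' := (K ×ˢ K).filter fun q => q.2 + (n0 : ℤ) ≤ q.1 with hA'
  set B := (K ×ˢ K).filter fun q => q.2 ∈ Finset.Ioo (q.1 - (n0 : ℤ)) (q.1 + n0) with hB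
  have h1 : K ×ˢ K ⊆ (A ∪ A') ∪ B := by
    intro q hq
    simp only [hA, hA', hB, Finset.mem_union, Finset.mem_filter, Finset.mem_Ioo, hq, true_and]
    omega
  have h2 : A'.card = A.card := by
    refine Finset.card_bij (fun q _ => (q.2, q.1)) ?_ ?_ ?_
    · intro q hq
      simp only [hA, hA', Finset.mem_filter, Finset.mem_product] at hq ⊢
      exact ⟨⟨hq.1.2, hq.1.1⟩, hq.2⟩
    · intro a _ b _ hab
      exact Prod.ext (congrArg Prod.snd hab) (congrArg Prod.fst hab)
    · intro q hq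
      simp only [hA, hA', Finset.mem_filter, Finset.mem_product] at hq ⊢
      exact ⟨(q.2, q.1), ⟨⟨hq.1.2, hq.1.1⟩, hq.2⟩, rfl⟩
  have h3 : B.card ≤ K.card * (2 * n0) := by
    have h4 : B = K.biUnion fun k => ((K.filter fun l => l ∈ Finset.Ioo (k - (n0 : ℤ)) (k + n0)).map
        ⟨fun l => (k, l), fun a b h => congrArg Prod.snd h⟩) := by
      ext ⟨a, b⟩
      simp only [hB, Finset.mem_filter, Finset.mem_product, Finset.mem_biUnion, Finset.mem_map]
      constructor
      · rintro ⟨⟨ha, hb⟩, h⟩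
        exact ⟨a, ha, b, ⟨hb, h⟩, rfl⟩
      · rintro ⟨k, hk, l, ⟨hl, h⟩, he⟩
        obtain rfl : k = a := congrArg Prod.fst he
        obtain rfl : l = b := congrArg Prod.snd he
        exact ⟨⟨hk, hl⟩, h⟩
    rw [h4]
    refine Finset.card_biUnion_le_card_mul _ _ _ fun k _ => ?_
    rw [Finset.card_map]
    refine (Finset.card_le_card (t := Finset.Ioo (k - (n0 : ℤ)) (k + n0)) fun l hl => ?_).trans ?_
    · exact (Finset.mem_filter.1 hl).2
    · rw [Int.card_Ioo]
      omega
  have h5 : K.card * K.card ≤ A.card + A'.card + B.card := by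
    rw [← Finset.card_product]
    exact (Finset.card_le_card h1).trans ((Finset.card_union_le _ _).trans
      (Nat.add_le_add_right (Finset.card_union_le _ _) _))
  rw [h2] at h5
  have h6 : K.card * K.card ≤ 2 * A.card + K.card * (2 * n0) := by omega
  have h7 : ((K.card * K.card : ℕ) : ℝ) ≤ ((2 * A.card + K.card * (2 * n0) : ℕ) : ℝ) := by
    exact_mod_cast h6
  push_cast at h7
  nlinarith [h7]

/-! ### translations -/

private theorem badP_shX {p : XX} {v x : Vx} {C : ℝ} (h : BadP (shX v p) 0 x C) :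
    BadP p v (x + v) C := by
  obtain ⟨X, X', h1, h2, h3⟩ := h
  have key : ∀ Y : Finset Ed, par (ind Y) = vx (dl 0) (dl x) →
      par (ind (shF (-v) Y)) = vx (dl v) (dl (x + v)) := by
    intro Y hY
    funext w
    rw [ind_shF, par_sh, hY]
    unfold vx dl
    have e1 : (w + -v = 0) ↔ (w = v) := by
      rw [← sub_eq_add_neg, sub_eq_zero]
    have e2 : (w + -v = x) ↔ (w = x + v) := by
      rw [← sub_eq_add_neg, sub_eq_iff_eq_add]
    rw [decide_eq_decide.2 e1, decide_eq_decide.2 e2]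
  have hen : ∀ (U : Ed → Bool) (Y : Finset Ed),
      en (wt (sh v p.1)) (sh v U) Y = en (wt p.1) U (shF (-v) Y) := by
    intro U Y
    rw [← en_sh v (wt p.1) U (shF (-v) Y), shF_shF, add_neg_cancel, shF_zero]
    rfl
  refine ⟨shF (-v) X, shF (-v) X', key X h1, key X' h2, ?_⟩
  have h4 : en (wt (sh v p.1)) (sh v p.2.1) X + en (wt (sh v p.1)) (sh v p.2.2) X' < -C := h3
  rw [hen, hen] at h4
  exact h4

/-! ### one orientation -/

private theorem count_one {p : XX} {C : ℝ} {n0 : ℕ} {H : Set YY}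
    (hH : ∀ y ∈ H, ∀ n ≥ n0, BadP y.1 0 (pos y n) C) {L : ℕ} {u0 : Vx} {y0 : YY} (hy : GY y0)
    (h1 : y0.1 = shX u0 p) (I : Finset (Vx × Dir)) (hI : I ⊆ HS p L H)
    (hk : ∀ q ∈ I, ∃ k : ℤ, q.1 = posz y0 k + u0 ∧ q.2 = (Tz k y0).2) :
    (I.card : ℝ) ^ 2 ≤ 2 * (BPr p L C).card + 2 * n0 * I.card := by
  classical
  have hk' : ∀ q : Vx × Dir, ∃ k : ℤ, q ∈ I → q.1 = posz y0 k + u0 ∧ q.2 = (Tz k y0).2 := by
    intro q
    by_cases hq : q ∈ I
    · obtain ⟨k, h⟩ := hk q hq
      exact ⟨k, fun _ => h⟩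
    · exact ⟨0, fun h => absurd h hq⟩
  choose κ hκ using hk'
  have hinj : Set.InjOn κ (I : Set (Vx × Dir)) := by
    intro a ha b hb hab
    have h2 := hκ a (Finset.mem_coe.1 ha)
    have h3 := hκ b (Finset.mem_coe.1 hb)
    rw [hab] at h2
    exact Prod.ext (h2.1.trans h3.1.symm) (h2.2.trans h3.2.symm)
  have hcard : (I.image κ).card = I.card := Finset.card_image_of_injOn hinj
  have h2 := count_ints (I.image κ) n0
  rw [hcard] at h2
  refine h2.trans ?_
  have h3 : (((I.image κ) ×ˢ (I.image κ)).filter fun q => q.1 + (n0 : ℤ) ≤ q.2).card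
      ≤ (BPr p L C).card := by
    refine Finset.card_le_card_of_injOn (fun q => (posz y0 q.1 + u0, posz y0 q.2 + u0)) ?_ ?_
    · rintro ⟨k, l⟩ hq
      rw [Finset.mem_coe, Finset.mem_filter, Finset.mem_product, Finset.mem_image,
        Finset.mem_image] at hq
      obtain ⟨⟨⟨a, ha, hak⟩, ⟨b, hb, hbl⟩⟩, hle⟩ := hq
      simp only at hak hbl hle
      have h4 := hκ a ha
      have h5 := hκ b hb
      rw [hak] at h4
      rw [hbl] at h5
      have h6 := Finset.mem_filter.1 (hI ha)
      have h7 := Finset.mem_filter.1 (hI hb)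
      have h8 := (Finset.mem_product.1 h6.1).1
      have h9 := (Finset.mem_product.1 h7.1).1
      have h10 : (shX a.1 p, a.2) = Tz k y0 := by
        refine Prod.ext ?_ h4.2
        show shX a.1 p = (Tz k y0).1
        rw [Tz_fst hy, h1, shX_shX, h4.1]
      obtain ⟨n, hn⟩ : ∃ n : ℕ, l = k + (n : ℤ) := ⟨(l - k).toNat, by omega⟩
      have hn0 : n ≥ n0 := by omega
      have h11 := hH _ h6.2 n hn0
      have h12 : pos (shX a.1 p, a.2) n = posz y0 l - posz y0 k := by
        rw [h10, ← posz_natCast, posz_Tz hy, ← hn]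
      rw [h12] at h11
      have h13 := badP_shX h11
      rw [h4.1] at h13
      have h14 : posz y0 l - posz y0 k + (posz y0 k + u0) = posz y0 l + u0 := by abel
      rw [h14] at h13
      unfold BPr
      rw [Finset.mem_coe, Finset.mem_filter, Finset.mem_product]
      refine ⟨⟨?_, ?_⟩, h13⟩
      · show posz y0 k + u0 ∈ box L
        rw [← h4.1]; exact h8
      · show posz y0 l + u0 ∈ box L
        rw [← h5.1]; exact h9
    · rintro ⟨k, l⟩ _ ⟨k', l'⟩ _ h
      have h4 := congrArg Prod.fst h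
      have h5 := congrArg Prod.snd h
      simp only [add_left_inj] at h4 h5
      exact Prod.ext (posz_injective hy h4) (posz_injective hy h5)
  have h4 : ((((I.image κ) ×ˢ (I.image κ)).filter fun q => q.1 + (n0 : ℤ) ≤ q.2).card : ℝ)
      ≤ (BPr p L C).card := by exact_mod_cast h3
  linarith

/-- points of `H` have only bad partners after the index `n0`: on one path the number of bad pairs
is quadratic in the number of points of `H`. -/
theorem count_pairs {p : XX} (hp : ∀ u d, wl p (edg u d) = true → G2 (shX u p, d)) {C : ℝ}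
    {n0 : ℕ} {H : Set YY} (hHG : ∀ y ∈ H, G2 y)
    (hH : ∀ y ∈ H, ∀ n ≥ n0, BadP y.1 0 (pos y n) C) (L : ℕ) :
    ((HS p L H).card : ℝ) ^ 2 ≤ 8 * (BPr p L C).card + 4 * (n0 + 1) * (HS p L H).card := by
  classical
  rcases (HS p L H).eq_empty_or_nonempty with h0 | ⟨q0, hq0⟩
  · rw [h0]
    simp
  have hy0 : (shX q0.1 p, q0.2) ∈ H := (Finset.mem_filter.1 hq0).2
  set y0 : YY := (shX q0.1 p, q0.2) with hy0d
  have hG := hHG y0 hy0
  have hfst : y0.1 = shX q0.1 p := rfl
  set I := (HS p L H).filter fun q => ∃ k : ℤ, q.1 = posz y0 k + q0.1 ∧ q.2 = (Tz k y0).2 with hI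
  set I' := (HS p L H).filter fun q => ¬ ∃ k : ℤ, q.1 = posz y0 k + q0.1 ∧ q.2 = (Tz k y0).2 with hI'
  have hsum : I.card + I'.card = (HS p L H).card := by
    rw [hI, hI', Finset.card_filter_add_card_filter_not]
  have h1 : (I.card : ℝ) ^ 2 ≤ 2 * (BPr p L C).card + 2 * n0 * I.card := by
    refine count_one hH hG.gy hfst I (Finset.filter_subset _ _) fun q hq => ?_
    exact (Finset.mem_filter.1 hq).2
  have h2 : (I'.card : ℝ) ^ 2 ≤ 2 * (BPr p L C).card + 2 * n0 * I'.card := by
    refine count_one (y0 := rv y0) (u0 := q0.1) hH hG.gy.rv rfl I' (Finset.filter_subset _ _)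
      fun q hq => ?_
    obtain ⟨hq1, hq2⟩ := Finset.mem_filter.1 hq
    have hqG := hHG _ (Finset.mem_filter.1 hq1).2
    have hw : wl (shX q.1 p) (edg 0 q.2) = true := hqG.gy.2.1
    have hw' : wl y0.1 (edg (q.1 - q0.1) q.2) = true := by
      rw [hfst, wl_shX, sh_edg, sub_add_cancel]
      rw [wl_shX, sh_edg, zero_add] at hw
      exact hw
    obtain ⟨k, hk⟩ := exists_posz hG.gy (hG.cw (q.1 - q0.1) ⟨q.2, hw'⟩)
    have hk2 : q.1 = posz y0 k + q0.1 := by rw [← hk, sub_add_cancel]
    rw [hk] at hw'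
    rcases eq_wedgez_of_posz hG.gy hw' with h3 | h3
    · exact absurd ⟨k, hk2, edg_injective _ h3⟩ hq2
    · rw [wedgez_eq_opp hG.gy, sub_add_cancel] at h3
      have h4 : q.2 = opp (Tz (k - 1) y0).2 := edg_injective _ h3
      refine ⟨-k, ?_, ?_⟩
      · rw [posz_rv hG.gy, neg_neg]
        exact hk2
      · rw [rv_Tz hG.gy, neg_neg, h4]
        have h5 : Tz k y0 = Th (Tz (k - 1) y0) := by
          have h6 := Tz_add 1 (k - 1) y0
          rw [add_sub_cancel, Tz_one (GY_Tz hG.gy)] at h6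
          exact h6
        rw [h5, rv_Th (GY_Tz hG.gy)]
  have h3 : ((HS p L H).card : ℝ) = I.card + I'.card := by
    rw [← hsum]; push_cast; ring
  rw [h3]
  nlinarith [sq_nonneg ((I.card : ℝ) - I'.card), (Nat.cast_nonneg I.card : (0 : ℝ) ≤ I.card),
    (Nat.cast_nonneg I'.card : (0 : ℝ) ≤ I'.card)]

private theorem count_nu (Q : Measure XX) {A : Set YY} (hA : MeasurableSet A) :
    nuM Q A = ∑ d : Dir, Q {p | wl p (edg 0 d) = true ∧ (p, d) ∈ A} := by
  unfold nuM
  rw [Measure.finsetSum_apply]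
  refine Finset.sum_congr rfl fun d _ => ?_
  have hm : Measurable (fun p : XX => (p, d)) := measurable_id.prodMk measurable_const
  rw [Measure.map_apply hm hA, Measure.restrict_apply (hm hA)]
  congr 1
  ext p
  simp only [Set.mem_inter_iff, Set.mem_preimage, Set.mem_ofPred_eq]
  tauto

/-- the mean number of points of `H` in the box -/
theorem integral_HS {μ : Measure ℝ} [IsProbabilityMeasure μ] {Q : Measure XX} (h5 : H5 μ Q)
    {H : Set YY} (hH : MeasurableSet H) (hHG : ∀ y ∈ H, G2 y) (L : ℕ) :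
    ∫⁻ p, ((HS p L H).card : ENNReal) ∂Q = ((box L).card : ENNReal) * nuM Q H := by
  classical
  have hmd : ∀ d : Dir, MeasurableSet {p : XX | (p, d) ∈ H} := fun d =>
    (measurable_id.prodMk measurable_const : Measurable fun p : XX => (p, d)) hH
  have hms : ∀ (v : Vx) (d : Dir), MeasurableSet (shX v ⁻¹' {p : XX | (p, d) ∈ H}) := fun v d =>
    (h5.isQ.inv v).measurable (hmd d)
  have h1 : ∀ p : XX, ((HS p L H).card : ENNReal) = ∑ v ∈ box L, ∑ d : Dir,
      (shX v ⁻¹' {p : XX | (p, d) ∈ H}).indicator 1 p := by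
    intro p
    unfold HS
    rw [Finset.card_filter, Finset.sum_product]
    push_cast
    refine Finset.sum_congr rfl fun v _ => Finset.sum_congr rfl fun d _ => ?_
    by_cases h : (shX v p, d) ∈ H
    · rw [if_pos h, Set.indicator_of_mem (show p ∈ shX v ⁻¹' {p : XX | (p, d) ∈ H} from h)]
      rfl
    · rw [if_neg h, Set.indicator_of_notMem (show p ∉ shX v ⁻¹' {p : XX | (p, d) ∈ H} from h)]
  simp_rw [h1]
  rw [lintegral_finsetSum _ fun v _ => Finset.measurable_sum _ fun d _ =>
    measurable_one.indicator (hms v d)]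
  have h2 : ∀ v ∈ box L, ∫⁻ p, ∑ d : Dir, (shX v ⁻¹' {p : XX | (p, d) ∈ H}).indicator 1 p ∂Q
      = nuM Q H := by
    intro v _
    rw [lintegral_finsetSum _ fun d _ => measurable_one.indicator (hms v d), count_nu Q hH]
    refine Finset.sum_congr rfl fun d _ => ?_
    rw [lintegral_indicator_one (hms v d),
      (h5.isQ.inv v).measure_preimage (hmd d).nullMeasurableSet]
    congr 1
    ext p
    constructor
    · intro h
      exact ⟨(hHG _ h).gy.2.1, h⟩
    · intro h
      exact h.2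
  rw [Finset.sum_congr rfl h2, Finset.sum_const, nsmul_eq_mul]

end Pool.Agent.Helper83.S5
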