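import Pool.Agent.Helper83.S5.Path

/-! # S5-LIM: (5a), deterministic part -/

open MeasureTheory Filter Topology
open scoped symmDiff

namespace Pool.Agent.Helper83.S5

open Pool.Agent.Helper60.TJ

theorem dfc_of_freq {y : YY} (h : G2 y) {C : ℝ}
    (hf : ∃ᶠ n : ℕ in atTop, ¬ BadP y.1 0 (pos y n) C) : Dfc y C := by
  intro C0 hC0
  obtain ⟨n0, hn0⟩ := hp_eventually h.gy C0
  obtain ⟨n, hn, hbad⟩ := (Filter.frequently_atTop.1 hf) n0
  have hagree := hn0 n hn
  set S := seg y n with hS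
  have hpS : par (ind S) = vx (dl 0) (dl (pos y n)) := par_seg h.gy n
  have hpSC : par (ind (S ∆ C0)) = vx (dl 0) (dl (pos y n)) := by
    rw [par_ind_symmDiff, hpS, (isCyc_iff C0).1 hC0, vx_false]
  have hwall : ∀ e ∈ S, bx y.1.2.1 y.1.2.2 e = true := by
    intro e he
    rw [hS] at he
    unfold seg at he
    obtain ⟨i, _, rfl⟩ := Finset.mem_image.1 he
    exact wedge_mem h.gy i
  have hen : en (wt y.1.1) y.1.2.2 S = - en (wt y.1.1) y.1.2.1 S := en_wall hwall
  have hall : ∀ X X' : Finset Ed, par (ind X) = vx (dl 0) (dl (pos y n)) →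
      par (ind X') = vx (dl 0) (dl (pos y n)) →
      -C ≤ en (wt y.1.1) y.1.2.1 X + en (wt y.1.1) y.1.2.2 X' := by
    intro X X' h1 h2
    by_contra hcon
    push Not at hcon
    exact hbad ⟨X, X', h1, h2, hcon⟩
  constructor
  · have h1 := hall (S ∆ C0) S hpSC hpS
    rw [en_symmDiff, hen] at h1
    have h2 : en (wt y.1.1) (bx y.1.2.1 (ind S)) C0 = en (wt y.1.1) (Zp y) C0 := by
      refine en_congr fun e he => ?_
      unfold Zp bx
      rw [hagree e he]
    rw [h2] at h1
    linarith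
  · have h1 := hall S (S ∆ C0) hpS hpSC
    rw [en_symmDiff, hen] at h1
    have h2 : en (wt y.1.1) (bx y.1.2.2 (ind S)) C0 = en (wt y.1.1) (Zq y) C0 := by
      refine en_congr fun e he => ?_
      unfold Zq bx
      rw [hagree e he]
    rw [h2] at h1
    linarith

end Pool.Agent.Helper83.S5
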