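import Pool.Agent.Helper83.S5.Defs
import Pool.Agent.Helper66.TJ.Tail

/-! # S5-PAIRE: the sum of the two class energies is bounded -/

open MeasureTheory Filter Topology
open scoped symmDiff

namespace Pool.Agent.Helper83.S5

open Pool.Agent.Helper60.TJ

theorem exists_join (x x' : Vx) : ∃ D : Finset Ed, par (ind D) = vx (dl x) (dl x') :=
  Pool.Agent.Helper60.TJ.H3x.exists_join x x'

theorem pairE {μ : Measure ℝ} [IsProbabilityMeasure μ] {Q : Measure XX} (h5 : H5 μ Q)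
    {η : ENNReal} (hη : 0 < η) : ∃ C : ℝ, 0 ≤ C ∧ ∀ x x' : Vx,
      PP μ {J | ∃ U ∈ GJ J, ∃ U' ∈ GJ J, U ≠ U' ∧ BadP (J, U, U') x x' C} ≤ η := by
  obtain ⟨C, hC0, hC⟩ := tail_small h5.sym h5.isQ hη
  refine ⟨C, hC0, fun x x' => ?_⟩
  obtain ⟨D, hD⟩ := Pool.Agent.Helper60.TJ.H3x.exists_join x x'
  refine le_trans (measure_mono ?_) (hC x x' D hD)
  rintro J ⟨U, hU, U', hU', hne, X, X', hX, hX', hlt⟩
  refine ⟨U, hU, U', hU', hne, ?_⟩
  have h1 := Ei_le (D := D) (X := X) (wt_nonneg J) hU (by rw [hX, hD])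
  have h2 := Ei_le (D := D) (X := X') (wt_nonneg J) hU' (by rw [hX', hD])
  have h3 : en (wt J) U X + en (wt J) U' X' < -C := hlt
  rw [lt_abs]
  right
  linarith

end Pool.Agent.Helper83.S5
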