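import Pool.Agent.Helper83.S5.Count
import Pool.Agent.Helper83.S5.Lim
import Pool.Agent.Helper83.S5.PairE
import Pool.Agent.Helper83.S5.AeG2

/-! # S5-DEFA: (5a), the defect is almost surely finite -/

open MeasureTheory Filter Topology
open scoped symmDiff

namespace Pool.Agent.Helper83.S5

open Pool.Agent.Helper60.TJ

namespace DefAx

theorem nuM_eq (Q : Measure XX) {A : Set YY} (hA : MeasurableSet A) :
    nuM Q A = ∑ d : Dir, Q {p | wl p (edg 0 d) = true ∧ (p, d) ∈ A} := by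
  unfold nuM
  rw [Measure.finsetSum_apply]
  refine Finset.sum_congr rfl fun d _ => ?_
  have hm : Measurable (fun p : XX => (p, d)) := measurable_id.prodMk measurable_const
  rw [Measure.map_apply hm hA, Measure.restrict_apply (hm hA)]
  congr 1
  ext p
  simp only [Set.mem_inter_iff, Set.mem_preimage, Set.mem_ofPred_eq]
  tauto

theorem ae_all_G2 {μ : Measure ℝ} [IsProbabilityMeasure μ] {Q : Measure XX} (h5 : H5 μ Q) :
    ∀ᵐ p ∂Q, ∀ u d, wl p (edg u d) = true → G2 (shX u p, d) := by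
  have h0 : nuM Q {y | ¬ G2 y} = 0 := ae_iff.1 (ae_G2 h5)
  have hm : MeasurableSet {y : YY | ¬ G2 y} := measurableSet_G2.compl
  rw [nuM_eq Q hm, Finset.sum_eq_zero_iff] at h0
  refine ae_all_iff.2 fun u => ae_all_iff.2 fun d => ?_
  have h1 : ∀ᵐ p ∂Q, wl p (edg 0 d) = true → G2 (p, d) := by
    rw [ae_iff]
    have h2 := h0 d (Finset.mem_univ d)
    refine measure_mono_null ?_ h2
    intro p hp
    simp only [Set.mem_ofPred_eq, not_forall] at hp ⊢
    obtain ⟨h3, h4⟩ := hp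
    exact ⟨h3, h4⟩
  have h3 := (h5.isQ.inv u).quasiMeasurePreserving.ae h1
  filter_upwards [h3] with p hp hw
  refine hp ?_
  show sh u (wl p) (edg 0 d) = true
  rw [sh_edg, zero_add]
  exact hw

theorem dfc_mono {y : YY} {D D' : ℝ} (h : Dfc y D) (hD : D ≤ D') : Dfc y D' := fun C hC =>
  ⟨by linarith [(h C hC).1], by linarith [(h C hC).2]⟩

/-- points all of whose partners after the index `n0` are bad -/
def Hn (C : ℝ) (n0 : ℕ) : Set YY := {y | G2 y ∧ ∀ n ≥ n0, BadP y.1 0 (pos y n) C}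

theorem measurableSet_Hn (C : ℝ) (n0 : ℕ) : MeasurableSet (Hn C n0) := by
  have h1 : ∀ n, MeasurableSet {y : YY | BadP y.1 0 (pos y n) C} := by
    intro n
    have h2 : {y : YY | BadP y.1 0 (pos y n) C} =
        ⋃ v : Vx, ({y : YY | pos y n = v} ∩ {y : YY | BadP y.1 0 v C}) := by
      ext y
      simp
    rw [h2]
    refine MeasurableSet.iUnion fun v => ?_
    refine (measurableSet_eq_fun (measurable_pos n) measurable_const).inter ?_
    exact measurable_fst (measurableSet_BadP 0 v C)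
  have h3 : Hn C n0 = {y | G2 y} ∩ ⋂ n, ⋂ _ : n ≥ n0, {y : YY | BadP y.1 0 (pos y n) C} := by
    ext y
    simp [Hn]
  rw [h3]
  exact measurableSet_G2.inter (MeasurableSet.iInter fun n => MeasurableSet.iInter fun _ => h1 n)

theorem Hn_mono (C : ℝ) : Monotone (Hn C) := fun _ _ hab _ hy =>
  ⟨hy.1, fun n hn => hy.2 n (le_trans hab hn)⟩

theorem sub_Hn (C : ℝ) : {y | G2 y ∧ ∀ D : ℕ, ¬ Dfc y D} ⊆ ⋃ n0, Hn C n0 := by
  rintro y ⟨hG, hD⟩
  rw [Set.mem_iUnion]
  by_contra hcon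
  push Not at hcon
  have hf : ∃ᶠ n : ℕ in atTop, ¬ BadP y.1 0 (pos y n) C := by
    rw [Filter.frequently_atTop]
    intro a
    have h1 := hcon a
    unfold Hn at h1
    rw [Set.mem_ofPred_eq, not_and] at h1
    have h2 := h1 hG
    push Not at h2
    obtain ⟨n, hn, hb⟩ := h2
    exact ⟨n, hn, hb⟩
  have h1 := dfc_of_freq hG hf
  obtain ⟨D, hDC⟩ := exists_nat_ge C
  exact hD D (dfc_mono h1 hDC)

theorem measurable_card_HS (L : ℕ) {H : Set YY} (hH : MeasurableSet H) :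
    Measurable fun p : XX => ((HS p L H).card : ENNReal) := by
  classical
  have h1 : (fun p : XX => ((HS p L H).card : ENNReal)) = fun p =>
      ∑ q ∈ (box L) ×ˢ (Finset.univ : Finset Dir),
        ({p : XX | (shX q.1 p, q.2) ∈ H}).indicator (fun _ => (1 : ENNReal)) p := by
    funext p
    unfold HS
    rw [Finset.card_filter]
    push_cast
    refine Finset.sum_congr rfl fun q _ => ?_
    by_cases h : (shX q.1 p, q.2) ∈ H
    · rw [if_pos h, Set.indicator_of_mem]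
      exact h
    · rw [if_neg h, Set.indicator_of_notMem]
      exact h
  rw [h1]
  refine Finset.measurable_sum _ fun q _ => measurable_const.indicator ?_
  have h2 : Measurable fun p : XX => ((shX q.1 p, q.2) : YY) :=
    (measurable_shX q.1).prodMk measurable_const
  exact h2 hH

theorem lintegral_BPr {μ : Measure ℝ} [IsProbabilityMeasure μ] {Q : Measure XX} (h5 : H5 μ Q)
    {η : ENNReal} {C : ℝ} (hC : ∀ x x' : Vx,
      PP μ {J | ∃ U ∈ GJ J, ∃ U' ∈ GJ J, U ≠ U' ∧ BadP (J, U, U') x x' C} ≤ η) (L : ℕ) :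
    Measurable (fun p : XX => ((BPr p L C).card : ENNReal)) ∧
    ∫⁻ p, ((BPr p L C).card : ENNReal) ∂Q ≤ ((box L).card : ENNReal) ^ 2 * (4 * η) := by
  classical
  have h1 : (fun p : XX => ((BPr p L C).card : ENNReal)) = fun p =>
      ∑ q ∈ (box L) ×ˢ (box L),
        ({p : XX | BadP p q.1 q.2 C}).indicator (fun _ => (1 : ENNReal)) p := by
    funext p
    unfold BPr
    rw [Finset.card_filter]
    push_cast
    refine Finset.sum_congr rfl fun q _ => ?_
    by_cases h : BadP p q.1 q.2 C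
    · rw [if_pos h, Set.indicator_of_mem]
      exact h
    · rw [if_neg h, Set.indicator_of_notMem]
      exact h
  have hQle : ∀ x x' : Vx, Q {p | BadP p x x' C} ≤ 4 * η := by
    intro x x'
    have h2 : {p : XX | BadP p x x' C} ≤ᵐ[Q] Prod.fst ⁻¹'
        {J | ∃ U ∈ GJ J, ∃ U' ∈ GJ J, U ≠ U' ∧ BadP (J, U, U') x x' C} := by
      filter_upwards [h5.isQ.nice] with p hp hb
      exact ⟨p.2.1, hp.2.1, p.2.2, hp.2.2.1, hp.2.2.2, hb⟩
    refine (measure_mono_ae h2).trans ((h5.isQ.fst_le _).trans ?_)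
    refine le_trans (mul_le_mul' le_rfl (hC x x')) ?_
    norm_num
  refine ⟨?_, ?_⟩
  · rw [h1]
    exact Finset.measurable_sum _ fun q _ =>
      measurable_const.indicator (measurableSet_BadP q.1 q.2 C)
  · rw [h1, lintegral_finsetSum _ fun q _ =>
      measurable_const.indicator (measurableSet_BadP q.1 q.2 C)]
    have h3 : ∀ q ∈ (box L) ×ˢ (box L), ∫⁻ p, ({p : XX | BadP p q.1 q.2 C}).indicator
        (fun _ => (1 : ENNReal)) p ∂Q ≤ 4 * η := by
      intro q _
      rw [lintegral_indicator_const (measurableSet_BadP q.1 q.2 C), one_mul]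
      exact hQle q.1 q.2
    refine (Finset.sum_le_card_nsmul _ _ _ h3).trans ?_
    rw [Finset.card_product, nsmul_eq_mul, pow_two]
    push_cast
    exact le_rfl

theorem card_box' (L : ℕ) : (box L).card = (2 * L + 1) ^ 2 := by
  unfold box
  rw [Finset.card_product, Int.card_Icc, pow_two]
  congr 1 <;> omega

/-- the integrated counting inequality -/
theorem key {μ : Measure ℝ} [IsProbabilityMeasure μ] {Q : Measure XX} (h5 : H5 μ Q)
    {η : ℝ} (hη : 0 ≤ η) {C : ℝ} (hC : ∀ x x' : Vx,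
      PP μ {J | ∃ U ∈ GJ J, ∃ U' ∈ GJ J, U ≠ U' ∧ BadP (J, U, U') x x' C} ≤ ENNReal.ofReal η)
    (n0 L : ℕ) :
    (nuM Q (Hn C n0)).toReal ^ 2 ≤ 64 * η +
      8 * (n0 + 1) * (nuM Q (Hn C n0)).toReal / (2 * L + 1) ^ 2 := by
  set H := Hn C n0 with hH
  have hHm : MeasurableSet H := measurableSet_Hn C n0
  set b := (nuM Q H).toReal with hb
  have hb0 : 0 ≤ b := ENNReal.toReal_nonneg
  have hfin : nuM Q H ≠ ⊤ := (lt_of_le_of_lt (measure_mono (Set.subset_univ _))
    (nu_univ_lt h5.isQ)).ne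
  set A : ℝ := (2 * (L:ℝ) + 1) ^ 2 with hA
  have hA0 : 0 < A := by positivity
  have hbox : ((box L).card : ENNReal) = ENNReal.ofReal A := by
    rw [card_box', ← ENNReal.ofReal_natCast]
    push_cast
    rfl
  have hν : nuM Q H = ENNReal.ofReal b := (ENNReal.ofReal_toReal hfin).symm
  obtain ⟨hBm, hB⟩ := lintegral_BPr h5 hC L
  have hM := integral_HS h5 hHm (fun y hy => hy.1) L
  set t : ℝ := A * b / 2 with ht
  have ht0 : 0 ≤ t := by positivity
  have hpt : ∀ᵐ p ∂Q, ENNReal.ofReal (2 * t) * ((HS p L H).card : ENNReal) ≤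
      8 * ((BPr p L C).card : ENNReal) + (ENNReal.ofReal (4 * (n0 + 1)) * ((HS p L H).card : ENNReal) +
        ENNReal.ofReal (t ^ 2)) := by
    filter_upwards [ae_all_G2 h5] with p hp
    have h1 := count_pairs hp (C := C) (n0 := n0) (H := H) (fun y hy => hy.1)
      (fun y hy => hy.2) L
    generalize (HS p L H).card = M at h1 ⊢
    generalize (BPr p L C).card = B at h1 ⊢
    have hM0 : (0:ℝ) ≤ M := Nat.cast_nonneg _
    have hB0 : (0:ℝ) ≤ B := Nat.cast_nonneg _
    have h2 : 2 * t * (M : ℝ) ≤ 8 * (B : ℝ) + (4 * (n0 + 1) * (M : ℝ) + t ^ 2) := by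
      nlinarith [sq_nonneg ((M : ℝ) - t)]
    have h3 := ENNReal.ofReal_le_ofReal h2
    have e1 : ENNReal.ofReal (2 * t * (M:ℝ)) = ENNReal.ofReal (2 * t) * (M : ENNReal) := by
      rw [ENNReal.ofReal_mul (by positivity), ENNReal.ofReal_natCast]
    have e2 : ENNReal.ofReal (8 * (B:ℝ)) = 8 * (B : ENNReal) := by
      rw [ENNReal.ofReal_mul (by norm_num), ENNReal.ofReal_natCast]
      simp
    have e3 : ENNReal.ofReal (4 * (n0 + 1) * (M:ℝ)) =
        ENNReal.ofReal (4 * (n0 + 1)) * (M : ENNReal) := by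
      rw [ENNReal.ofReal_mul (by positivity), ENNReal.ofReal_natCast]
    have p1 : (0:ℝ) ≤ 8 * (B:ℝ) := by linarith
    have p2 : (0:ℝ) ≤ 4 * (n0 + 1) * (M : ℝ) := by positivity
    have p3 : (0:ℝ) ≤ t ^ 2 := sq_nonneg t
    rw [ENNReal.ofReal_add p1 (add_nonneg p2 p3), ENNReal.ofReal_add p2 p3, e1, e2, e3] at h3
    exact h3
  have hint := lintegral_mono_ae hpt
  have hHSm := measurable_card_HS L hHm
  rw [lintegral_const_mul _ hHSm, lintegral_add_left (hBm.const_mul 8), lintegral_const_mul _ hBm,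
    lintegral_add_left (hHSm.const_mul _), lintegral_const_mul _ hHSm, lintegral_const,
    hM, hbox, hν, h5.isQ.univ_eq] at hint
  have hB' : ∫⁻ p, ((BPr p L C).card : ENNReal) ∂Q ≤ ENNReal.ofReal (A ^ 2 * (4 * η)) := by
    refine hB.trans ?_
    rw [hbox, ENNReal.ofReal_mul (by positivity), ENNReal.ofReal_pow hA0.le,
      ENNReal.ofReal_mul (by norm_num)]
    simp
  have h2 : ((2 * (2 - 1) : ℕ) : ENNReal) = ENNReal.ofReal 2 := by simp
  have h8 : (8 : ENNReal) = ENNReal.ofReal 8 := by simp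
  rw [h2, h8] at hint
  have hint2 : ENNReal.ofReal (2 * t * (A * b)) ≤
      ENNReal.ofReal (8 * (A ^ 2 * (4 * η)) + (4 * (n0 + 1) * (A * b) + t ^ 2 * 2)) := by
    rw [ENNReal.ofReal_mul (by positivity), ENNReal.ofReal_mul hA0.le,
      ENNReal.ofReal_add (by positivity) (by positivity),
      ENNReal.ofReal_add (by positivity) (by positivity),
      ENNReal.ofReal_mul (by norm_num : (0:ℝ) ≤ 8),
      ENNReal.ofReal_mul (by positivity : (0:ℝ) ≤ 4 * (n0 + 1)), ENNReal.ofReal_mul hA0.le,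
      ENNReal.ofReal_mul (by positivity : (0:ℝ) ≤ t ^ 2)]
    refine hint.trans ?_
    exact add_le_add (mul_le_mul' le_rfl hB') le_rfl
  have h3 := (ENNReal.ofReal_le_ofReal_iff (by positivity)).1 hint2
  have h4 : A ^ 2 * b ^ 2 ≤ A ^ 2 * (64 * η + 8 * (n0 + 1) * b / A) := by
    have h5 : A ^ 2 * (64 * η + 8 * (n0 + 1) * b / A) = 64 * (A ^ 2 * η) + 8 * (n0 + 1) * (A * b) := by
      field_simp
    rw [h5]
    rw [ht] at h3
    nlinarith
  exact le_of_mul_le_mul_left h4 (by positivity)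

theorem key2 {μ : Measure ℝ} [IsProbabilityMeasure μ] {Q : Measure XX} (h5 : H5 μ Q)
    {η : ℝ} (hη : 0 ≤ η) {C : ℝ} (hC : ∀ x x' : Vx,
      PP μ {J | ∃ U ∈ GJ J, ∃ U' ∈ GJ J, U ≠ U' ∧ BadP (J, U, U') x x' C} ≤ ENNReal.ofReal η)
    (n0 : ℕ) : (nuM Q (Hn C n0)).toReal ^ 2 ≤ 64 * η := by
  set b := (nuM Q (Hn C n0)).toReal with hb
  have hlim : Tendsto (fun L : ℕ => 64 * η + 8 * (n0 + 1) * b / (2 * (L:ℝ) + 1) ^ 2) atTop
      (𝓝 (64 * η + 0)) := by
    refine tendsto_const_nhds.add ?_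
    refine Tendsto.const_div_atTop ?_ _
    have h1 : Tendsto (fun L : ℕ => 2 * (L:ℝ) + 1) atTop atTop :=
      tendsto_atTop_add_const_right _ _ (tendsto_natCast_atTop_atTop.const_mul_atTop (by norm_num))
    exact (tendsto_pow_atTop (by norm_num)).comp h1
  rw [add_zero] at hlim
  exact ge_of_tendsto' hlim fun L => key h5 hη hC n0 L

end DefAx

open DefAx

theorem ae_dfc {μ : Measure ℝ} [IsProbabilityMeasure μ] {Q : Measure XX} (h5 : H5 μ Q) :
    ∀ᵐ y ∂(nuM Q), ∃ D : ℕ, Dfc y D := by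
  set F : Set YY := {y | G2 y ∧ ∀ D : ℕ, ¬ Dfc y D} with hF
  have hF0 : nuM Q F = 0 := by
    by_contra hne
    have hfin : ∀ A : Set YY, nuM Q A ≠ ⊤ := fun A =>
      (lt_of_le_of_lt (measure_mono (Set.subset_univ _)) (nu_univ_lt h5.isQ)).ne
    set β := (nuM Q F).toReal with hβ
    have hβ0 : 0 < β := ENNReal.toReal_pos hne (hfin F)
    obtain ⟨C, _, hC⟩ := pairE h5 (η := ENNReal.ofReal (β ^ 2 / 512))
      (ENNReal.ofReal_pos.2 (by positivity))
    have hlim := tendsto_measure_iUnion_atTop (μ := nuM Q) (Hn_mono C)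
    have h1 : nuM Q F ≤ nuM Q (⋃ n0, Hn C n0) := measure_mono (sub_Hn C)
    have hlim2 := (ENNReal.tendsto_toReal (hfin _)).comp hlim
    have h2 : β ≤ (nuM Q (⋃ n0, Hn C n0)).toReal := ENNReal.toReal_mono (hfin _) h1
    have h3 : ∀ n0, (nuM Q (Hn C n0)).toReal ^ 2 ≤ 64 * (β ^ 2 / 512) := fun n0 =>
      key2 h5 (by positivity) hC n0
    have h4 : (nuM Q (⋃ n0, Hn C n0)).toReal ^ 2 ≤ 64 * (β ^ 2 / 512) :=
      le_of_tendsto' (hlim2.pow 2) h3
    have h5' : β ^ 2 ≤ (nuM Q (⋃ n0, Hn C n0)).toReal ^ 2 := pow_le_pow_left₀ hβ0.le h2 2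
    nlinarith [pow_pos hβ0 2]
  have h1 : ∀ᵐ y ∂(nuM Q), y ∉ F := measure_eq_zero_iff_ae_notMem.1 hF0
  filter_upwards [h1, ae_G2 h5] with y hy hG
  by_contra hcon
  push Not at hcon
  exact hy ⟨hG, hcon⟩

end Pool.Agent.Helper83.S5
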