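import Pool.Agent.Helper66.TJ.Half

/-!
# Section 5 of `tj60_proof.md`: two pairs of ground states, definitions
-/

open MeasureTheory Filter Topology
open scoped symmDiff

namespace Pool.Agent.Helper83.S5

open Pool.Agent.Helper60.TJ

/-- the two toggled T-joins: `U + W₊` and `U' + W₊ = U + W₋` -/
noncomputable def Zp (y : YY) : Ed → Bool := bx y.1.2.1 (hp y)

noncomputable def Zq (y : YY) : Ed → Bool := bx y.1.2.2 (hp y)

/-- local minimality without boundary condition -/
def LM (w : Ed → ℝ) (U : Ed → Bool) : Prop := ∀ C : Finset Ed, IsCyc C → 0 ≤ en w U C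

/-- valid points of the wall space: the wall is one path through `0` -/
structure G2 (y : YY) : Prop where
  gy : GY y
  mem : y.1.2.1 ∈ GJ y.1.1
  mem' : y.1.2.2 ∈ GJ y.1.1
  cw : CW y

/-- admissible points -/
def AA : Set YY := {y | G2 y ∧ LM (wt y.1.1) (Zp y) ∧ LM (wt y.1.1) (Zq y)}

/-- exchange of the two T-joins -/
def sw (y : YY) : YY := ((y.1.1, y.1.2.2, y.1.2.1), y.2)

/-- a dual ray from the plaquette `0` to infinity -/
def ray : Ed → Bool := fun e => decide (e.2 = true ∧ 1 ≤ e.1.1 ∧ e.1.2 = 0)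

/-- the toggle at `0` -/
noncomputable def tog (y : YY) : YY := ((flp ray y.1.1, Zp y, Zq y), y.2)

open Classical in
/-- the reflection -/
noncomputable def RR (y : YY) : YY := if y ∈ AA then tog y else y

/-- edges with both end points in the box -/
def inb (R : ℕ) (e : Ed) : Prop := ∃ v d, edg v d = e ∧ v ∈ box R ∧ v + stp d ∈ box R

/-- finite even sets without non-wall edges in the box -/
def VC (R : ℕ) (y : YY) (C : Finset Ed) : Prop :=
  IsCyc C ∧ ∀ e ∈ C, inb R e → wl y.1 e = true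

/-- in addition they contain the wall near `0` -/
def WC (R : ℕ) (y : YY) (C : Finset Ed) : Prop :=
  VC R y C ∧ seg y R ⊆ C ∧ seg (rv y) R ⊆ C

/-- violation outside of the box -/
def viol (R : ℕ) (y : YY) : Prop :=
  ∃ C, VC R y C ∧ (en (wt y.1.1) (Zp y) C < 0 ∨ en (wt y.1.1) (Zq y) C < 0)

/-- levels reached arbitrarily far away -/
def SSet (y : YY) : Set ℝ := {K | ∀ R : ℕ, ∃ C, WC R y C ∧ en (wt y.1.1) (Zp y) C ≤ K}

/-- bounded defect -/
def Dfc (y : YY) (D : ℝ) : Prop :=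
  ∀ C, IsCyc C → -D ≤ en (wt y.1.1) (Zp y) C ∧ -D ≤ en (wt y.1.1) (Zq y) C

/-- the sum of the two class energies of `{x, x'}` is less than `-C` -/
def BadP (p : XX) (x x' : Vx) (C : ℝ) : Prop :=
  ∃ X X' : Finset Ed, par (ind X) = vx (dl x) (dl x') ∧ par (ind X') = vx (dl x) (dl x') ∧
    en (wt p.1) p.2.1 X + en (wt p.1) p.2.2 X' < -C

/-- number of ordered pairs of distinct T-joins in `D` -/
noncomputable def ctt (D : Set XX) (J : Ed → ℝ) : ENNReal :=
  (({q : (Ed → Bool) × (Ed → Bool) | q.1 ∈ GJ J ∧ q.2 ∈ GJ J ∧ q.1 ≠ q.2 ∧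
    (J, q.1, q.2) ∈ D}.ncard : ℕ) : ENNReal)

/-- the standing assumptions of section 5: exactly two T-joins -/
structure H5 (μ : Measure ℝ) (Q : Measure XX) : Prop where
  sym : μ.map (fun x => -x) = μ
  atl : ∀ x : ℝ, μ {x} = 0
  nice : ∀ᵐ J ∂(PP μ), Nice 2 J
  isQ : IsQ μ 2 Q
  cnt : ∀ D : Set XX, MeasurableSet D → Q D = ∫⁻ J, ctt D J ∂(PP μ)
  cntm : ∀ D : Set XX, MeasurableSet D → AEMeasurable (ctt D) (PP μ)

/-- finitely supported translations of the couplings -/
def cf (A B : Finset Ed) (K : ℕ) : Ed → ℝ := fun e => if e ∈ A then (K : ℝ) else if e ∈ B then -(K : ℝ) else 0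

end Pool.Agent.Helper83.S5
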