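import Pool.Agent.Helper83.S5.Path

/-! # S5-MEAS: measurability -/

open MeasureTheory Filter Topology
open scoped symmDiff

namespace Pool.Agent.Helper83.S5

open Pool.Agent.Helper60.TJ

namespace Measx

private theorem mset {α : Type*} [MeasurableSpace α] {p : α → Prop} (h : Measurable p) :
    MeasurableSet {a | p a} := measurableSet_setOfPred.2 h

private theorem mprop {α : Type*} [MeasurableSpace α] {p : α → Prop} (h : MeasurableSet {a | p a}) :
    Measurable p := measurableSet_setOfPred.1 h

private theorem m_const {α : Type*} [MeasurableSpace α] (p : Prop) : Measurable fun _ : α => p :=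
  measurable_const

/-- comparison of a measurable function into a countable discrete space with a constant -/
private theorem m_eq {α β : Type*} [MeasurableSpace α] [MeasurableSpace β]
    [MeasurableSingletonClass β] {f : α → β} (hf : Measurable f) (b : β) :
    Measurable fun a => f a = b :=
  mprop (hf (measurableSet_singleton b))

private theorem m_U : Measurable fun y : YY => y.1.2.1 :=
  measurable_fst.comp (measurable_snd.comp measurable_fst)

private theorem m_U' : Measurable fun y : YY => y.1.2.2 :=
  measurable_snd.comp (measurable_snd.comp measurable_fst)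

private theorem m_J : Measurable fun y : YY => y.1.1 := measurable_fst.comp measurable_fst

private theorem m_wl (e : Ed) : Measurable fun y : YY => wl y.1 e :=
  (measurable_coord e).comp (measurable_wl.comp measurable_fst)

end Measx

open Measx

theorem measurable_sw : Measurable sw :=
  (m_J.prodMk (m_U'.prodMk m_U)).prodMk measurable_snd

theorem measurable_wedge (n : ℕ) : Measurable (fun y : YY => wedge y n) := by
  unfold wedge
  have h1 : Measurable fun y : YY => ((pos y n, (Th^[n] y).2) : Vx × Dir) :=
    (measurable_pos n).prodMk (measurable_snd.comp (measurable_Th.iterate n))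
  exact (measurable_of_countable (fun q : Vx × Dir => edg q.1 q.2)).comp h1

theorem measurable_hp : Measurable hp := by
  refine measurable_pi_lambda _ fun e => measurable_to_bool ?_
  have h : (fun y : YY => hp y e) ⁻¹' {true} = {y | ∃ n : ℕ, wedge y n = e} := by
    ext y
    rw [Set.mem_preimage, Set.mem_singleton_iff, hp_true]
    exact ⟨fun ⟨n, hn⟩ => ⟨n, hn.symm⟩, fun ⟨n, hn⟩ => ⟨n, hn.symm⟩⟩
  rw [h]
  exact mset (Measurable.exists fun n => m_eq (measurable_wedge n) e)

theorem measurable_Zp : Measurable Zp :=
  measurable_bx.comp (m_U.prodMk measurable_hp)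

theorem measurable_Zq : Measurable Zq :=
  measurable_bx.comp (m_U'.prodMk measurable_hp)

namespace Measx

private theorem m_en {Z : YY → Ed → Bool} (hZ : Measurable Z) (C : Finset Ed) :
    Measurable fun y : YY => en (wt y.1.1) (Z y) C :=
  (measurable_en C).comp (m_J.prodMk hZ)

private theorem m_LM {Z : YY → Ed → Bool} (hZ : Measurable Z) :
    Measurable fun y : YY => LM (wt y.1.1) (Z y) := by
  unfold LM
  refine Measurable.forall fun C => Measurable.imp (m_const _) ?_
  exact mprop (measurableSet_le measurable_const (m_en hZ C))

private theorem m_allw (C : Finset Ed) : Measurable fun y : YY => ∀ e ∈ C, wl y.1 e = true :=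
  Measurable.forall fun e => Measurable.imp (m_const _) (m_eq (m_wl e) true)

private theorem m_GY : Measurable fun y : YY => GY y := by
  unfold GY
  refine Measurable.and ?_ (Measurable.and ?_ ?_)
  · exact mprop ((measurable_wl.comp measurable_fst) measurableSet_Deg2)
  · refine mprop (measurableSet_eq_fun ?_ measurable_const)
    exact measurable_from_prod_countable_left fun d =>
      (measurable_pi_apply (edg 0 d)).comp measurable_wl
  · refine Measurable.forall fun C => Measurable.imp (m_const _) (Measurable.imp (m_allw C) (m_const _))

private theorem m_CW : Measurable fun y : YY => CW y := by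
  unfold CW
  refine Measurable.forall fun v => Measurable.imp ?_ ?_
  · exact mprop ((measurable_wl.comp measurable_fst) (measurableSet_OnW v))
  · exact mprop ((measurable_wl.comp measurable_fst) (measurableSet_Cn 0 v))

end Measx

theorem measurableSet_G2 : MeasurableSet {y | G2 y} := by
  have h : {y | G2 y} = {y | GY y ∧ y.1.2.1 ∈ GJ y.1.1 ∧ y.1.2.2 ∈ GJ y.1.1 ∧ CW y} := by
    ext y
    exact ⟨fun h => ⟨h.gy, h.mem, h.mem', h.cw⟩, fun h => ⟨h.1, h.2.1, h.2.2.1, h.2.2.2⟩⟩
  rw [h]
  refine mset (m_GY.and (Measurable.and ?_ (Measurable.and ?_ m_CW)))
  · exact mprop ((m_J.prodMk m_U) measurableSet_GJ)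
  · exact mprop ((m_J.prodMk m_U') measurableSet_GJ)

theorem measurableSet_AA : MeasurableSet AA :=
  measurableSet_G2.inter ((mset (m_LM measurable_Zp)).inter (mset (m_LM measurable_Zq)))

theorem measurable_tog : Measurable tog :=
  (((measurable_flp ray).comp m_J).prodMk (measurable_Zp.prodMk measurable_Zq)).prodMk
    measurable_snd

theorem measurable_RR : Measurable RR := by
  unfold RR
  exact Measurable.ite measurableSet_AA measurable_tog measurable_id

namespace Measx

private theorem m_VC (R : ℕ) (C : Finset Ed) : Measurable fun y : YY => VC R y C := by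
  unfold VC
  refine (m_const _).and (Measurable.forall fun e => Measurable.imp (m_const _)
    (Measurable.imp (m_const _) (m_eq (m_wl e) true)))

private theorem m_seg {T : YY → YY} (hT : Measurable T) (R : ℕ) (C : Finset Ed) :
    Measurable fun y : YY => seg (T y) R ⊆ C := by
  have h : (fun y : YY => seg (T y) R ⊆ C) = fun y => ∀ n : ℕ, n < R → wedge (T y) n ∈ C := by
    funext y
    refine propext ?_
    unfold seg
    rw [Finset.image_subset_iff]
    simp only [Finset.mem_range]
  rw [h]
  refine Measurable.forall fun n => Measurable.imp (m_const _) ?_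
  exact mprop (((measurable_wedge n).comp hT) (C.measurableSet))

private theorem m_WC (R : ℕ) (C : Finset Ed) : Measurable fun y : YY => WC R y C := by
  unfold WC
  exact (m_VC R C).and ((m_seg measurable_id R C).and (m_seg measurable_rv R C))

end Measx

theorem measurableSet_VC (R : ℕ) (C : Finset Ed) : MeasurableSet {y | VC R y C} := mset (m_VC R C)

theorem measurableSet_WC (R : ℕ) (C : Finset Ed) : MeasurableSet {y | WC R y C} := mset (m_WC R C)

theorem measurableSet_viol (R : ℕ) : MeasurableSet {y | viol R y} := by
  refine mset ?_
  unfold viol
  refine Measurable.exists fun C => (m_VC R C).and (Measurable.or ?_ ?_)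
  · exact mprop (measurableSet_lt (m_en measurable_Zp C) measurable_const)
  · exact mprop (measurableSet_lt (m_en measurable_Zq C) measurable_const)

theorem measurableSet_SSet (K : ℝ) : MeasurableSet {y | K ∈ SSet y} := by
  have h : {y | K ∈ SSet y} = {y | ∀ R : ℕ, ∃ C, WC R y C ∧ en (wt y.1.1) (Zp y) C ≤ K} := rfl
  rw [h]
  refine mset (Measurable.forall fun R => Measurable.exists fun C => (m_WC R C).and ?_)
  exact mprop (measurableSet_le (m_en measurable_Zp C) measurable_const)

theorem measurableSet_Dfc (D : ℝ) : MeasurableSet {y | Dfc y D} := by
  refine mset ?_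
  unfold Dfc
  refine Measurable.forall fun C => Measurable.imp (m_const _) (Measurable.and ?_ ?_)
  · exact mprop (measurableSet_le measurable_const (m_en measurable_Zp C))
  · exact mprop (measurableSet_le measurable_const (m_en measurable_Zq C))

theorem measurableSet_BadP (x x' : Vx) (C : ℝ) : MeasurableSet {p : XX | BadP p x x' C} := by
  refine mset ?_
  unfold BadP
  refine Measurable.exists fun X => Measurable.exists fun X' => (m_const _).and ((m_const _).and ?_)
  refine mprop (measurableSet_lt (Measurable.add ?_ ?_) measurable_const)
  · exact (measurable_en X).comp (measurable_fst.prodMk (measurable_fst.comp measurable_snd))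
  · exact (measurable_en X').comp (measurable_fst.prodMk (measurable_snd.comp measurable_snd))

end Pool.Agent.Helper83.S5
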