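import Pool.Agent.Helper83.S5.AeG2
import Pool.Agent.Helper83.S5.Meas
import Pool.Agent.Helper42.EA.ZeroOne
import Pool.Agent.Helper66.TJ.Flp
import Pool.Agent.Helper66.TJ.Q

/-! # S5-ERG: zero-one law on the wall space -/

open MeasureTheory Filter Topology
open scoped symmDiff

namespace Pool.Agent.Helper83.S5

open Pool.Agent.Helper60.TJ

namespace Ergx

/-- points of `XX` with a wall point in `E` -/
def Dp (E : Set YY) : Set XX :=
  {p | ∃ (u : Vx) (d : Dir), wl (shX u p) (edg 0 d) = true ∧ ((shX u p, d) : YY) ∈ E}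

theorem meas_wall (d : Dir) : MeasurableSet {p : XX | wl p (edg 0 d) = true} :=
  measurableSet_eq_fun ((measurable_pi_apply (edg 0 d)).comp measurable_wl) measurable_const

theorem meas_slice {E : Set YY} (hE : MeasurableSet E) (d : Dir) :
    MeasurableSet {p : XX | wl p (edg 0 d) = true ∧ ((p, d) : YY) ∈ E} := by
  have hm : Measurable (fun p : XX => ((p, d) : YY)) := measurable_id.prodMk measurable_const
  exact (meas_wall d).inter (hm hE)

theorem Dp_eq (E : Set YY) : Dp E =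
    ⋃ (u : Vx), ⋃ (d : Dir), shX u ⁻¹' {p : XX | wl p (edg 0 d) = true ∧ ((p, d) : YY) ∈ E} := by
  ext p
  simp [Dp]

theorem measurableSet_Dp {E : Set YY} (hE : MeasurableSet E) : MeasurableSet (Dp E) := by
  rw [Dp_eq]
  exact MeasurableSet.iUnion fun u => MeasurableSet.iUnion fun d => measurable_shX u (meas_slice hE d)

theorem nu_eq' (Q : Measure XX) {A : Set YY} (hA : MeasurableSet A) :
    nuM Q A = ∑ d : Dir, Q {p | wl p (edg 0 d) = true ∧ ((p, d) : YY) ∈ A} := by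
  unfold nuM
  rw [Measure.finsetSum_apply]
  refine Finset.sum_congr rfl fun d _ => ?_
  have hm : Measurable (fun p : XX => ((p, d) : YY)) := measurable_id.prodMk measurable_const
  rw [Measure.map_apply hm hA, Measure.restrict_apply (hm hA)]
  congr 1
  ext p
  simp only [Set.mem_inter_iff, Set.mem_preimage, Set.mem_ofPred_eq]
  tauto

theorem Dp_null {μ : Measure ℝ} {Q : Measure XX} (hQ : IsQ μ 2 Q) {E : Set YY}
    (hE : MeasurableSet E) (h : nuM Q E = 0) : Q (Dp E) = 0 := by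
  rw [Dp_eq]
  refine measure_iUnion_null fun u => measure_iUnion_null fun d => ?_
  rw [(hQ.inv u).measure_preimage (meas_slice hE d).nullMeasurableSet]
  rw [nu_eq' Q hE, Finset.sum_eq_zero_iff] at h
  exact h d (Finset.mem_univ _)

theorem null_of_Dp {Q : Measure XX} {E : Set YY} (hE : MeasurableSet E) (h : Q (Dp E) = 0) :
    nuM Q E = 0 := by
  rw [nu_eq' Q hE, Finset.sum_eq_zero_iff]
  intro d _
  refine measure_mono_null ?_ h
  intro p hp
  refine ⟨0, d, ?_, ?_⟩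
  · rw [shX_zero]; exact hp.1
  · rw [shX_zero]; exact hp.2

theorem Dp_shX (E : Set YY) (u : Vx) : shX u ⁻¹' Dp E = Dp E := by
  ext p
  constructor
  · rintro ⟨v, d, h1, h2⟩
    rw [shX_shX] at h1 h2
    exact ⟨v + u, d, h1, h2⟩
  · rintro ⟨v, d, h1, h2⟩
    refine ⟨v - u, d, ?_, ?_⟩
    · rw [shX_shX, sub_add_cancel]; exact h1
    · rw [shX_shX, sub_add_cancel]; exact h2

/-- the good points for the set `E` -/
def Gd (E : Set YY) (y : YY) : Prop :=
  GY y ∧ CW y ∧ (Th y ∈ E ↔ y ∈ E) ∧ (rv y ∈ E ↔ y ∈ E) ∧ (sw y ∈ E ↔ y ∈ E)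

/-- all wall points over `p` are good -/
def AG (E : Set YY) (p : XX) : Prop :=
  ∀ (u : Vx) (d : Dir), wl (shX u p) (edg 0 d) = true → Gd E (shX u p, d)

/-- `y` is a wall point over `p` -/
def Ov (p : XX) (y : YY) : Prop := (∃ u : Vx, y.1 = shX u p) ∧ wl y.1 (edg 0 y.2) = true

theorem AG.gd {E : Set YY} {p : XX} (h : AG E p) {y : YY} (hy : Ov p y) : Gd E y := by
  obtain ⟨⟨u, hu⟩, hw⟩ := hy
  obtain ⟨q, d⟩ := y
  simp only at hu hw
  subst hu
  exact h u d hw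

theorem Ov.th {E : Set YY} {p : XX} (h : AG E p) {y : YY} (hy : Ov p y) : Ov p (Th y) := by
  have h1 : GY (Th y) := (h.gd hy).1.th
  obtain ⟨⟨u, hu⟩, -⟩ := hy
  refine ⟨⟨stp y.2 + u, ?_⟩, h1.2.1⟩
  show shX (stp y.2) y.1 = _
  rw [hu, shX_shX]

theorem Ov.rv {E : Set YY} {p : XX} (h : AG E p) {y : YY} (hy : Ov p y) : Ov p (rv y) := by
  have h1 : GY (Pool.Agent.Helper60.TJ.rv y) := (h.gd hy).1.rv
  exact ⟨hy.1, h1.2.1⟩

theorem Ov.iter {E : Set YY} {p : XX} (h : AG E p) {y : YY} (hy : Ov p y) (n : ℕ) :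
    Ov p (Th^[n] y) ∧ (Th^[n] y ∈ E ↔ y ∈ E) := by
  induction n with
  | zero => exact ⟨hy, Iff.rfl⟩
  | succ n ih =>
    rw [Function.iterate_succ_apply']
    exact ⟨ih.1.th h, ((h.gd ih.1).2.2.1).trans ih.2⟩

theorem Ov.tz {E : Set YY} {p : XX} (h : AG E p) {y : YY} (hy : Ov p y) (k : ℤ) :
    Ov p (Tz k y) ∧ (Tz k y ∈ E ↔ y ∈ E) := by
  have hg := (h.gd hy).1
  rcases Int.eq_nat_or_neg k with ⟨n, rfl | rfl⟩
  · rw [Tz_natCast hg]
    exact hy.iter h n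
  · rw [Tz_neg_natCast hg]
    have h1 := hy.rv h
    have h2 := h1.iter h n
    have h3 := h2.1.rv h
    refine ⟨h3, ?_⟩
    rw [(h.gd h2.1).2.2.2.1, h2.2, (h.gd hy).2.2.2.1]

theorem Ov.eq {E : Set YY} {p : XX} (h : AG E p) {y y' : YY} (hy : Ov p y) (hy' : Ov p y') :
    ∃ k : ℤ, y' = Tz k y ∨ y' = Pool.Agent.Helper60.TJ.rv (Tz k y) := by
  have hg := h.gd hy
  obtain ⟨⟨u, hu⟩, hw⟩ := hy
  obtain ⟨⟨u', hu'⟩, hw'⟩ := hy'
  have e1 : y'.1 = shX (u' - u) y.1 := by rw [hu', hu, shX_shX, sub_add_cancel]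
  have h1 : OnW (wl y.1) (u' - u) := by
    refine ⟨y'.2, ?_⟩
    rw [e1, wl_shX, sh_edg, zero_add] at hw'
    exact hw'
  obtain ⟨k, hk⟩ := exists_posz hg.1 (hg.2.1 _ h1)
  have e2 : y'.1 = (Tz k y).1 := by rw [e1, Tz_fst hg.1, hk]
  have hgk : GY (Tz k y) := GY_Tz hg.1
  refine ⟨k, ?_⟩
  by_cases hd : y'.2 = (Tz k y).2
  · exact Or.inl (Prod.ext e2 hd)
  · right
    refine Prod.ext e2 ?_
    have h2 := (oth_spec' hgk.1 (v := 0) hgk.2.1).2.2 y'.2 (by rw [← e2]; exact hw') hd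
    exact h2

theorem Ov.iff {E : Set YY} {p : XX} (h : AG E p) {y y' : YY} (hy : Ov p y) (hy' : Ov p y') :
    y' ∈ E ↔ y ∈ E := by
  obtain ⟨k, hk⟩ := hy.eq h hy'
  have h1 := hy.tz h k
  rcases hk with rfl | rfl
  · exact h1.2
  · rw [(h.gd h1.1).2.2.2.1, h1.2]

theorem wl_comm (J : Ed → ℝ) (U U' : Ed → Bool) : wl (J, U, U') = wl (J, U', U) := by
  unfold wl bx
  funext e
  exact Bool.xor_comm _ _

theorem ctt_eq_ct (D : Set XX) (J : Ed → ℝ) : ctt D J = ct D J := by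
  unfold ctt ct
  congr 2
  ext q
  simp only [Set.mem_ofPred_eq, Set.mem_inter_iff, GG, and_assoc]

theorem ctt_eq_zero {D : Set XX} {J : Ed → ℝ}
    (h : ∀ U ∈ GJ J, ∀ U' ∈ GJ J, U ≠ U' → (J, U, U') ∉ D) : ctt D J = 0 := by
  unfold ctt
  have : {q : (Ed → Bool) × (Ed → Bool) | q.1 ∈ GJ J ∧ q.2 ∈ GJ J ∧ q.1 ≠ q.2 ∧
    (J, q.1, q.2) ∈ D} = ∅ := by
    ext q
    simp only [Set.mem_ofPred_eq, Set.mem_empty_iff_false, iff_false]
    rintro ⟨h1, h2, h3, h4⟩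
    exact h q.1 h1 q.2 h2 h3 h4
  rw [this, Set.ncard_empty]
  simp

/-- over couplings with two T-joins all wall points are in `E` or none -/
theorem dich {J : Ed → ℝ} (hJ : Nice 2 J) {E : Set YY}
    (h : ∀ U ∈ GJ J, ∀ U' ∈ GJ J, U ≠ U' → AG E (J, U, U')) :
    ctt (Dp E) J = 0 ∨ ctt (Dp Eᶜ) J = 0 := by
  by_contra hcon
  push Not at hcon
  obtain ⟨h1, h2⟩ := hcon
  have h3 : ∃ U ∈ GJ J, ∃ U' ∈ GJ J, U ≠ U' ∧ (J, U, U') ∈ Dp E := by
    by_contra hc
    push Not at hc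
    exact h1 (ctt_eq_zero hc)
  have h4 : ∃ U ∈ GJ J, ∃ U' ∈ GJ J, U ≠ U' ∧ (J, U, U') ∈ Dp Eᶜ := by
    by_contra hc
    push Not at hc
    exact h2 (ctt_eq_zero hc)
  obtain ⟨U, hU, U', hU', hne, u, d, hw, hE⟩ := h3
  obtain ⟨V, hV, V', hV', hne', v, e, hw', hE'⟩ := h4
  have hag := h U hU U' hU' hne
  have htwo : GJ J = {U, U'} := by
    symm
    apply Set.eq_of_subset_of_ncard_le
    · intro A hA
      rcases hA with rfl | rfl
      · exact hU
      · exact hU'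
    · rw [hJ.card, Set.ncard_pair hne]
    · exact hJ.fin
  have ho : Ov (J, U, U') (shX u (J, U, U'), d) := ⟨⟨u, rfl⟩, hw⟩
  rw [htwo] at hV hV'
  rcases hV with rfl | hV
  · rcases hV' with rfl | hV'
    · exact hne' rfl
    · rw [Set.mem_singleton_iff] at hV'
      subst hV'
      have ho' : Ov (J, V, V') (shX v (J, V, V'), e) := ⟨⟨v, rfl⟩, hw'⟩
      exact hE' ((ho.iff hag ho').2 hE)
  · rw [Set.mem_singleton_iff] at hV
    subst hV
    rcases hV' with rfl | hV'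
    · have hw2 : wl (shX v (J, V', V)) (edg 0 e) = true := by
        have := wl_comm (sh v J) (sh v V) (sh v V')
        unfold shX at hw' ⊢
        simp only at hw' ⊢
        rw [← this]
        exact hw'
      have ho' : Ov (J, V', V) (shX v (J, V', V), e) := ⟨⟨v, rfl⟩, hw2⟩
      have h5 : ((shX v (J, V', V), e) : YY) ∈ E := (ho.iff hag ho').2 hE
      have h6 := (hag.gd ho').2.2.2.2
      exact hE' (h6.2 h5)
    · rw [Set.mem_singleton_iff] at hV'
      exact hne' hV'.symm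

end Ergx

open Ergx in
/-- a set of the wall space which is invariant under steps, reversal and exchange -/
theorem zero_one_Y {μ : Measure ℝ} [IsProbabilityMeasure μ] {Q : Measure XX} (h5 : H5 μ Q)
    {E : Set YY} (hE : MeasurableSet E) (h1 : ∀ᵐ y ∂(nuM Q), (Th y ∈ E ↔ y ∈ E))
    (h2 : ∀ᵐ y ∂(nuM Q), (rv y ∈ E ↔ y ∈ E)) (h3 : ∀ᵐ y ∂(nuM Q), (sw y ∈ E ↔ y ∈ E)) :
    nuM Q E = 0 ∨ nuM Q Eᶜ = 0 := by
  have hg : ∀ᵐ y ∂(nuM Q), Gd E y := by
    filter_upwards [ae_G2 h5, h1, h2, h3] with y hy a b c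
    exact ⟨hy.gy, hy.cw, a, b, c⟩
  obtain ⟨N, hN, hNm, hN0⟩ := exists_measurable_superset_of_null (ae_iff.1 hg)
  have hD0 := Dp_null h5.isQ hNm hN0
  have hae := h5.isQ.ae_all _ (measurableSet_Dp hNm) hD0
  have hd : ∀ᵐ J ∂(PP μ), ctt (Dp E) J = 0 ∨ ctt (Dp Eᶜ) J = 0 := by
    filter_upwards [hae, h5.nice] with J hJ hn
    refine dich hn fun U hU U' hU' hne u d hw => ?_
    by_contra hc
    exact hJ U hU U' hU' hne ⟨u, d, hw, hN hc⟩
  set S : Set (Ed → ℝ) := {J | ctt (Dp E) J ≠ 0} with hS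
  have hSm : NullMeasurableSet S (PP μ) := by
    have h := (h5.cntm _ (measurableSet_Dp hE)).nullMeasurable (measurableSet_singleton (0 : ENNReal)).compl
    exact h
  have hinv : ∀ J, sh ((1, 0) : Vx) J ∈ S ↔ J ∈ S := by
    intro J
    show ctt (Dp E) (sh ((1, 0) : Vx) J) ≠ 0 ↔ ctt (Dp E) J ≠ 0
    rw [ctt_eq_ct, ctt_eq_ct, ← ct_sh, Dp_shX]
  rcases zero_one_sh_ae hSm (u := ((1, 0) : Vx)) (by decide) (Filter.Eventually.of_forall hinv) with h | h
  · left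
    apply null_of_Dp hE
    rw [h5.cnt _ (measurableSet_Dp hE), lintegral_eq_zero_iff' (h5.cntm _ (measurableSet_Dp hE))]
    have h' : ∀ᵐ J ∂(PP μ), J ∉ S := by
      rw [ae_iff]
      simpa using h
    filter_upwards [h'] with J hJ
    by_contra hc
    exact hJ hc
  · right
    apply null_of_Dp hE.compl
    rw [h5.cnt _ (measurableSet_Dp hE.compl),
      lintegral_eq_zero_iff' (h5.cntm _ (measurableSet_Dp hE.compl))]
    have h' : ∀ᵐ J ∂(PP μ), J ∈ S := by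
      rw [ae_iff]
      have := (prob_compl_eq_zero_iff₀ hSm).2 h
      exact this
    filter_upwards [h', hd] with J hJ hJ2
    rcases hJ2 with hc | hc
    · exact absurd hc hJ
    · exact hc

end Pool.Agent.Helper83.S5
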