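import Pool.Agent.Helper83.S5.Path

/-! # S5-SS: (5c), deterministic part -/

open MeasureTheory Filter Topology
open scoped symmDiff

namespace Pool.Agent.Helper83.S5

open Pool.Agent.Helper60.TJ

namespace SSx

theorem box_mono {R R' : ℕ} (h : R ≤ R') {v : Vx} (hv : v ∈ box R) : v ∈ box R' := by
  simp only [box, Finset.mem_product, Finset.mem_Icc] at hv ⊢
  omega

theorem inb_mono {R R' : ℕ} (h : R ≤ R') {e : Ed} (he : inb R e) : inb R' e := by
  obtain ⟨v, d, hvd, h1, h2⟩ := he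
  exact ⟨v, d, hvd, box_mono h h1, box_mono h h2⟩

theorem box_add {R : ℕ} {v : Vx} (d : Dir) (hv : v ∈ box R) : v + stp d ∈ box (R + 1) := by
  simp only [box, Finset.mem_product, Finset.mem_Icc] at hv ⊢
  obtain ⟨x, y⟩ := v
  fin_cases d <;> simp [stp] at hv ⊢ <;> omega

theorem box_sub {R : ℕ} {v : Vx} (d : Dir) (hv : v ∈ box R) : v - stp d ∈ box (R + 1) := by
  simp only [box, Finset.mem_product, Finset.mem_Icc] at hv ⊢
  obtain ⟨x, y⟩ := v
  fin_cases d <;> simp [stp] at hv ⊢ <;> omega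

theorem inb_add {R : ℕ} {e : Ed} (d : Dir) (he : inb R e) : inb (R + 1) (e.1 + stp d, e.2) := by
  obtain ⟨v, d', hvd, h1, h2⟩ := he
  refine ⟨v + stp d, d', ?_, box_add d h1, ?_⟩
  · rw [edg_add, hvd]
  · have := box_add d h2
    rwa [add_right_comm] at this

theorem inb_sub {R : ℕ} {e : Ed} (d : Dir) (he : inb R e) : inb (R + 1) (e.1 - stp d, e.2) := by
  obtain ⟨v, d', hvd, h1, h2⟩ := he
  refine ⟨v - stp d, d', ?_, box_sub d h1, ?_⟩
  · rw [sub_eq_add_neg, edg_add, hvd, sub_eq_add_neg]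
  · have := box_sub d h2
    rwa [sub_eq_add_neg, add_right_comm, ← sub_eq_add_neg] at this

theorem mem_seg {y : YY} {n : ℕ} {e : Ed} : e ∈ seg y n ↔ ∃ i < n, wedge y i = e := by
  simp [seg]

theorem seg_mono {y : YY} {n m : ℕ} (h : n ≤ m) : seg y n ⊆ seg y m := by
  intro e he
  rw [mem_seg] at he ⊢
  obtain ⟨i, hi, rfl⟩ := he
  exact ⟨i, lt_of_lt_of_le hi h, rfl⟩

/-- removing one edge of the half wall -/
theorem en_flip {w : Ed → ℝ} {Z : Ed → Bool} {C : Finset Ed} {e : Ed} (he : e ∈ C) :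
    en w (bx Z (ind {e})) C = en w Z C - 2 * (w e * sg (Z e)) := by
  unfold en
  rw [← Finset.add_sum_erase _ _ he, ← Finset.add_sum_erase C (fun x => w x * sg (Z x)) he]
  have h1 : sg (bx Z (ind {e}) e) = - sg (Z e) := by
    have : bx Z (ind {e}) e = ! (Z e) := by
      simp [bx, ind]
    rw [this, sg_not]
  have h2 : ∑ x ∈ C.erase e, w x * sg (bx Z (ind {e}) x) = ∑ x ∈ C.erase e, w x * sg (Z x) := by
    refine Finset.sum_congr rfl fun x hx => ?_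
    have hne : x ≠ e := Finset.ne_of_mem_erase hx
    have : bx Z (ind {e}) x = Z x := by
      simp [bx, ind, hne]
    rw [this]
  rw [h1, h2]
  ring

theorem en_shift {y : YY} (h : G2 y) {C : Finset Ed} (he : edg 0 y.2 ∈ C) :
    en (wt (Th y).1.1) (Zp (Th y)) (shF (stp y.2) C) = en (wt y.1.1) (Zp y) C + 2 * xv y := by
  have hZ : Zp (Th y) = sh (stp y.2) (bx (Zp y) (ind {edg 0 y.2})) := by
    unfold Zp
    rw [hp_th h, bx_assoc]
    rfl
  have hw : wt (Th y).1.1 = sh (stp y.2) (wt y.1.1) := rfl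
  rw [hZ, hw, en_sh, en_flip he]
  have h0 : hp y (edg 0 y.2) = true := hp_true.mpr ⟨0, rfl⟩
  have h1 : Zp y (edg 0 y.2) = ! (y.1.2.1 (edg 0 y.2)) := by
    simp [Zp, bx, h0]
  have h2 : wt y.1.1 (edg 0 y.2) = |y.1.1 (edg 0 y.2)| := rfl
  rw [h1, sg_not, h2]
  unfold xv
  ring

theorem WC_th {y : YY} (h : G2 y) {R : ℕ} {C : Finset Ed} (hC : WC (R + 1) y C) :
    WC R (Th y) (shF (stp y.2) C) := by
  obtain ⟨⟨hc, hv⟩, hs, hs'⟩ := hC
  obtain ⟨hw0, hw0', hwn⟩ := wedge_rv_th h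
  have h0 : edg 0 y.2 ∈ C := hs (mem_seg.mpr ⟨0, Nat.succ_pos R, rfl⟩)
  refine ⟨⟨isCyc_shF.mpr hc, ?_⟩, ?_, ?_⟩
  · intro e he hi
    rw [mem_shF] at he
    exact hv _ he (inb_add y.2 hi)
  · intro e he
    rw [mem_seg] at he
    obtain ⟨i, hi, rfl⟩ := he
    rw [mem_shF, wedge_th]
    simp only [sub_add_cancel]
    exact hs (mem_seg.mpr ⟨i + 1, by omega, rfl⟩)
  · intro e he
    rw [mem_seg] at he
    obtain ⟨i, hi, rfl⟩ := he
    rw [mem_shF]
    cases i with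
    | zero =>
      rw [hw0, hw0']
      exact h0
    | succ n =>
      rw [hwn n]
      simp only [sub_add_cancel]
      exact hs' (mem_seg.mpr ⟨n, by omega, rfl⟩)

theorem WC_th' {y : YY} (h : G2 y) {R : ℕ} {C : Finset Ed} (hC : WC (R + 1) (Th y) C) :
    WC R y (shF (-stp y.2) C) ∧ edg 0 y.2 ∈ shF (-stp y.2) C := by
  obtain ⟨⟨hc, hv⟩, hs, hs'⟩ := hC
  obtain ⟨hw0, hw0', hwn⟩ := wedge_rv_th h
  have h0 : edg 0 y.2 ∈ shF (-stp y.2) C := by
    rw [mem_shF]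
    have h1 := hs' (mem_seg.mpr ⟨0, Nat.succ_pos R, rfl⟩)
    have h2 : wedge (rv (Th y)) 0 = ((edg 0 y.2).1 + -stp y.2, (edg 0 y.2).2) := by
      refine Prod.ext ?_ hw0'
      simp only
      rw [← hw0]
      abel
    rwa [h2] at h1
  refine ⟨⟨⟨isCyc_shF.mpr hc, ?_⟩, ?_, ?_⟩, h0⟩
  · intro e he hi
    rw [mem_shF] at he
    have h1 := inb_sub y.2 hi
    rw [sub_eq_add_neg] at h1
    have h2 := hv _ he h1
    have h3 : wl (Th y).1 (e.1 + -stp y.2, e.2) = wl y.1 e := by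
      show wl y.1 (e.1 + -stp y.2 + stp y.2, e.2) = wl y.1 e
      rw [neg_add_cancel_right]
    rwa [h3] at h2
  · intro e he
    rw [mem_seg] at he
    obtain ⟨i, hi, rfl⟩ := he
    cases i with
    | zero => exact h0
    | succ n =>
      rw [mem_shF, ← sub_eq_add_neg, ← wedge_th]
      exact hs (mem_seg.mpr ⟨n, by omega, rfl⟩)
  · intro e he
    rw [mem_seg] at he
    obtain ⟨i, hi, rfl⟩ := he
    rw [mem_shF, ← sub_eq_add_neg, ← hwn i]
    exact hs' (mem_seg.mpr ⟨i + 1, by omega, rfl⟩)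

end SSx

open SSx

theorem WC.anti {R R' : ℕ} (hR : R ≤ R') {y : YY} {C : Finset Ed} (h : WC R' y C) : WC R y C := by
  obtain ⟨⟨hc, hv⟩, hs, hs'⟩ := h
  exact ⟨⟨hc, fun e he hi => hv e he (inb_mono hR hi)⟩, (seg_mono hR).trans hs,
    (seg_mono hR).trans hs'⟩

theorem SSet_up {y : YY} {K K' : ℝ} (h : K ∈ SSet y) (hK : K ≤ K') : K' ∈ SSet y := by
  intro R
  obtain ⟨C, hC, hle⟩ := h R
  exact ⟨C, hC, hle.trans hK⟩

theorem SSet_th {y : YY} (h : G2 y) (K : ℝ) : K ∈ SSet y ↔ K + 2 * xv y ∈ SSet (Th y) := by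
  constructor
  · intro hK R
    obtain ⟨C, hC, hle⟩ := hK (R + 1)
    refine ⟨shF (stp y.2) C, WC_th h hC, ?_⟩
    have h0 : edg 0 y.2 ∈ C := hC.2.1 (mem_seg.mpr ⟨0, Nat.succ_pos R, rfl⟩)
    rw [en_shift h h0]
    linarith
  · intro hK R
    obtain ⟨C, hC, hle⟩ := hK (R + 1)
    obtain ⟨h1, h2⟩ := WC_th' h hC
    refine ⟨shF (-stp y.2) C, h1, ?_⟩
    have h3 := en_shift h h2
    rw [shF_shF, add_neg_cancel, shF_zero] at h3
    linarith

end Pool.Agent.Helper83.S5
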