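import Pool.Agent.Helper83.S5.Path

/-! # S5-VIOL: (5b), a violating set contains the wall near 0 -/

open MeasureTheory Filter Topology
open scoped symmDiff

namespace Pool.Agent.Helper83.S5

open Pool.Agent.Helper60.TJ

private theorem vi_ident {w : Ed → ℝ} {U1 U2 U3 : Ed → Bool} {A B C : Finset Ed}
    (h : ∀ e, (if ind A e = true then sg (U1 e) else 0) =
      (if ind B e = true then sg (U2 e) else 0) + (if ind C e = true then sg (U3 e) else 0)) :
    en w U1 A = en w U2 B + en w U3 C := by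
  classical
  have h1 : ∀ (U : Ed → Bool) (X : Finset Ed), X ⊆ A ∪ (B ∪ C) →
      en w U X = ∑ e ∈ A ∪ (B ∪ C), w e * (if ind X e = true then sg (U e) else 0) := by
    intro U X hX
    unfold en
    simp only [mul_ite, mul_zero, ind_eq_true]
    rw [← Finset.sum_filter, Finset.filter_mem_eq_inter, Finset.inter_eq_right.2 hX]
  rw [h1 U1 A Finset.subset_union_left,
    h1 U2 B (Finset.subset_union_left.trans Finset.subset_union_right),
    h1 U3 C (Finset.subset_union_right.trans Finset.subset_union_right),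
    ← Finset.sum_add_distrib]
  refine Finset.sum_congr rfl fun e _ => ?_
  rw [← mul_add, h e]

private theorem vi_b1 (c x s p u u' : Bool) (h1 : p = true → xor u u' = true)
    (h2 : s = true → p = true) (h3 : c = true → p = true → s = true)
    (h4 : x = true → xor (xor u u') c = true) :
    (if c = true then sg (xor u p) else 0) =
      (if xor x s = true then sg u' else 0) + (if xor (xor x s) c = true then sg u else 0) := by
  cases c <;> cases x <;> cases s <;> cases p <;> cases u <;> cases u' <;>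
    simp [sg] at h1 h2 h3 h4 ⊢

private theorem vi_b2 (c d u u' p : Bool) (h : d = true → xor (xor u u') c = true) :
    (if c = true then sg (xor u p) else 0) =
      (if xor c d = true then sg (xor u p) else 0) + (if d = true then sg (xor u' p) else 0) := by
  cases c <;> cases d <;> cases u <;> cases u' <;> cases p <;> simp [sg] at h ⊢

private theorem vi_seg_hp {y : YY} {n : ℕ} {e : Ed} (he : e ∈ seg y n) : hp y e = true := by
  unfold seg at he
  rw [Finset.mem_image] at he
  obtain ⟨k, _, rfl⟩ := he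
  exact hp_true.2 ⟨k, rfl⟩

private theorem vi_case {y : YY} (h : G2 y) {C X : Finset Ed} {n : ℕ} (hC : IsCyc C)
    (hn : ∀ e ∈ C, hp y e = true → e ∈ seg y n)
    (hX : ∀ e ∈ X, bx (wl y.1) (ind C) e = true)
    (hp' : par (ind X) = vx (dl 0) (dl (pos y n))) :
    0 ≤ en (wt y.1.1) (Zp y) C ∧ 0 ≤ en (wt y.1.1) (Zq y) C := by
  have hc1 : IsCyc (X ∆ seg y n) := isCyc_symmDiff_of_eq (by rw [hp', par_seg h.gy])
  have hc2 : IsCyc ((X ∆ seg y n) ∆ C) := hc1.symmDiff hC
  have hS : ∀ e, e ∈ seg y n → hp y e = true := fun e he => vi_seg_hp he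
  have hW : ∀ e, hp y e = true → wl y.1 e = true := fun e he => hp_sub h.gy he
  have e1 : en (wt y.1.1) (Zp y) C =
      en (wt y.1.1) y.1.2.2 (X ∆ seg y n) + en (wt y.1.1) y.1.2.1 ((X ∆ seg y n) ∆ C) := by
    apply vi_ident
    intro e
    rw [ind_symmDiff (X ∆ seg y n) C, ind_symmDiff X (seg y n)]
    exact vi_b1 (ind C e) (ind X e) (ind (seg y n) e) (hp y e) (y.1.2.1 e) (y.1.2.2 e) (hW e)
      (fun h => hS e (ind_eq_true.1 h)) (fun h h' => ind_eq_true.2 (hn e (ind_eq_true.1 h) h'))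
      (fun h => hX e (ind_eq_true.1 h))
  have e2 : en (wt y.1.1) (Zq y) C =
      en (wt y.1.1) y.1.2.1 (X ∆ seg y n) + en (wt y.1.1) y.1.2.2 ((X ∆ seg y n) ∆ C) := by
    apply vi_ident
    intro e
    rw [ind_symmDiff (X ∆ seg y n) C, ind_symmDiff X (seg y n)]
    exact vi_b1 (ind C e) (ind X e) (ind (seg y n) e) (hp y e) (y.1.2.2 e) (y.1.2.1 e)
      (fun h => by rw [Bool.xor_comm]; exact hW e h)
      (fun h => hS e (ind_eq_true.1 h)) (fun h h' => ind_eq_true.2 (hn e (ind_eq_true.1 h) h'))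
      (fun h => by rw [Bool.xor_comm (y.1.2.2 e)]; exact hX e (ind_eq_true.1 h))
  have g1 := h.mem.2
  have g2 := h.mem'.2
  constructor
  · rw [e1]
    exact add_nonneg (g2 _ hc1) (g1 _ hc2)
  · rw [e2]
    exact add_nonneg (g1 _ hc1) (g2 _ hc2)

/-! ### local analysis -/

private theorem vi_four : ∀ f g : Fin 4 → Bool,
    xor (xor (f 0) (f 1)) (xor (f 2) (f 3)) = false →
    xor (xor (g 0) (g 1)) (xor (g 2) (g 3)) = false → (∃ d, g d = false) →
    (∀ d, f d = true → g d = true) → ∀ a b, g a = true → g b = true → f a = f b := by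
  decide

private theorem vi_inb {R : ℕ} {v : Vx} (hv : v ∈ box R) (d : Dir) : inb (R + 1) (edg v d) := by
  refine ⟨v, d, rfl, ?_, ?_⟩
  · simp only [box, Finset.mem_product, Finset.mem_Icc, Nat.cast_add, Nat.cast_one] at hv ⊢
    omega
  · simp only [box, Finset.mem_product, Finset.mem_Icc, Nat.cast_add, Nat.cast_one,
      Prod.fst_add, Prod.snd_add] at hv ⊢
    have h1 : ∀ d : Dir, -1 ≤ (stp d).1 ∧ (stp d).1 ≤ 1 ∧ -1 ≤ (stp d).2 ∧ (stp d).2 ≤ 1 := by
      intro d; fin_cases d <;> simp [stp]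
    have h2 := h1 d
    omega

private theorem vi_local {y : YY} (h : GY y) {R : ℕ} {C : Finset Ed} (hC : VC (R + 1) y C)
    {v : Vx} (hv : v ∈ box R) {a b : Dir} (ha : wl y.1 (edg v a) = true)
    (hb : wl y.1 (edg v b) = true) : edg v a ∈ C ↔ edg v b ∈ C := by
  have h1 := vi_four (fun d => ind C (edg v d)) (fun d => wl y.1 (edg v d)) (hC.1 v) (h.1.1 v)
    (h.1.2 v) (fun d hd => hC.2 _ (ind_eq_true.1 hd) (vi_inb hv d)) a b ha hb
  simp only [ind] at h1
  rw [decide_eq_decide] at h1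
  exact h1

private theorem vi_wedge_succ (y : YY) (n : ℕ) :
    wedge y n = edg (pos y (n + 1)) (opp (Th^[n] y).2) := by
  show edg (pos y n) (Th^[n] y).2 = edg (pos y n + stp (Th^[n] y).2) (opp (Th^[n] y).2)
  rw [edg_opp]

private theorem vi_box_mono {R S : ℕ} (h : R ≤ S) {v : Vx} (hv : v ∈ box R) : v ∈ box S := by
  simp only [box, Finset.mem_product, Finset.mem_Icc] at hv ⊢
  omega

private theorem vi_status {y : YY} (h : GY y) {R : ℕ} {C : Finset Ed} (hC : VC (R + 1) y C) :
    ∀ n, n ≤ R → (wedge y n ∈ C ↔ wedge y 0 ∈ C) := by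
  intro n
  induction n with
  | zero => intro _; rfl
  | succ n ih =>
    intro hn
    rw [← ih (by omega)]
    have h1 := wedge_mem h n
    have h2 := wedge_mem h (n + 1)
    rw [vi_wedge_succ y n] at h1 ⊢
    unfold wedge at h2 ⊢
    exact vi_local h hC (vi_box_mono hn (pos_mem_box y (n + 1))) h2 h1

private theorem vi_rv_VC {y : YY} {R : ℕ} {C : Finset Ed} (hC : VC R y C) :
    VC R (Pool.Agent.Helper60.TJ.rv y) C := ⟨hC.1, fun e he hi => hC.2 e he hi⟩

private theorem vi_status0 {y : YY} (h : GY y) {R : ℕ} {C : Finset Ed} (hC : VC (R + 1) y C) :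
    wedge (Pool.Agent.Helper60.TJ.rv y) 0 ∈ C ↔ wedge y 0 ∈ C := by
  have h1 := wedge_mem h 0
  have h2 := wedge_mem h.rv 0
  unfold wedge at h1 h2 ⊢
  exact vi_local h hC (vi_box_mono (Nat.zero_le R) (pos_mem_box y 0)) h2 h1

private theorem vi_seg_sub {y : YY} (h : GY y) {R : ℕ} {C : Finset Ed} (hC : VC (R + 1) y C)
    (h0 : wedge y 0 ∈ C) : seg y (R + 1) ⊆ C := by
  intro e he
  unfold seg at he
  rw [Finset.mem_image] at he
  obtain ⟨n, hn, rfl⟩ := he
  rw [Finset.mem_range] at hn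
  exact (vi_status h hC n (by omega)).2 h0

private theorem vi_seg_disj {y : YY} (h : GY y) {R : ℕ} {C : Finset Ed} (hC : VC (R + 1) y C)
    (h0 : wedge y 0 ∉ C) : ∀ e ∈ seg y (R + 1), e ∉ C := by
  intro e he
  unfold seg at he
  rw [Finset.mem_image] at he
  obtain ⟨n, hn, rfl⟩ := he
  rw [Finset.mem_range] at hn
  exact fun hc => h0 ((vi_status h hC n (by omega)).1 hc)

/-! ### the component of `0` in `H` -/

private theorem vi_odd {X : Finset Ed} {v : Vx} (hv : v ≠ 0)
    (hX : par (ind X) = vx (dl 0) (dl v)) : ∃ d, edg v d ∈ X := by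
  by_contra hcon
  push Not at hcon
  have h1 := congrFun hX v
  have h2 : par (ind X) v = false := by
    unfold par ind
    simp [hcon]
  rw [h2] at h1
  simp [vx, dl, hv] at h1

private theorem vi_cn_seg {y : YY} {H : Ed → Bool} {N : ℕ} (h : GY y)
    (hH : ∀ e ∈ seg y N, H e = true) {n : ℕ} (hn : n ≤ N) : Cn H 0 (pos y n) := by
  refine ⟨seg y n, fun e he => hH e ?_, par_seg h n⟩
  unfold seg at he ⊢
  exact Finset.image_subset_image (Finset.range_mono hn) he

private theorem vi_seg_D {y : YY} {H : Ed → Bool} {N : ℕ} (h : GY y)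
    (hH : ∀ e ∈ seg y N, H e = true) {e : Ed} (he : e ∈ seg y N) :
    ∃ v d, edg v d = e ∧ Cn H 0 v := by
  have he' := he
  unfold seg at he
  rw [Finset.mem_image] at he
  obtain ⟨n, hn, rfl⟩ := he
  rw [Finset.mem_range] at hn
  exact ⟨pos y n, (Th^[n] y).2, rfl, vi_cn_seg h hH hn.le⟩

private theorem vi_finite {y : YY} (h : G2 y) {C : Finset Ed} {n0 : ℕ}
    (h1 : ∀ n ≥ n0, ¬ Cn (bx (wl y.1) (ind C)) 0 (pos y n))
    (h2 : ∀ n ≥ n0, ¬ Cn (bx (wl y.1) (ind C)) 0 (pos (Pool.Agent.Helper60.TJ.rv y) n)) :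
    {v | Cn (bx (wl y.1) (ind C)) 0 v}.Finite := by
  classical
  have hf : ∀ d : Dir, {v | edg v d ∈ C}.Finite := by
    intro d
    have hinj : Function.Injective (fun v : Vx => edg v d) := by
      intro v v' he
      have he' : edg v d = edg v' d := he
      obtain ⟨a, b⟩ := v
      obtain ⟨a', b'⟩ := v'
      fin_cases d <;> simp [edg] at he' ⊢ <;> omega
    exact Set.Finite.preimage hinj.injOn C.finite_toSet
  have hfin : ({0} ∪ (⋃ d : Dir, {v | edg v d ∈ C}) ∪
      ((pos y) '' (Finset.range n0 : Set ℕ)) ∪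
      ((pos (Pool.Agent.Helper60.TJ.rv y)) '' (Finset.range n0 : Set ℕ)) : Set Vx).Finite :=
    (((Set.finite_singleton _).union (Set.finite_iUnion hf)).union
      ((Finset.finite_toSet _).image _)).union ((Finset.finite_toSet _).image _)
  refine hfin.subset ?_
  intro v hv
  have hv' : Cn (bx (wl y.1) (ind C)) 0 v := hv
  by_cases hv0 : v = 0
  · left; left; left; exact hv0
  obtain ⟨X, hX, hp'⟩ := hv'
  obtain ⟨d, hd⟩ := vi_odd hv0 hp'
  have h3 := hX _ hd
  by_cases hc : edg v d ∈ C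
  · left; left; right
    exact Set.mem_iUnion.2 ⟨d, hc⟩
  · have h4 : wl y.1 (edg v d) = true := by
      unfold bx ind at h3
      simpa [hc] using h3
    obtain ⟨k, rfl⟩ := exists_posz h.gy (h.cw v ⟨d, h4⟩)
    rcases Int.eq_nat_or_neg k with ⟨n, rfl | rfl⟩
    · rw [posz_natCast] at hv ⊢
      left; right
      refine ⟨n, ?_, rfl⟩
      by_contra hcon
      refine h1 n ?_ hv
      simpa using hcon
    · rw [posz_neg_natCast] at hv ⊢
      right
      refine ⟨n, ?_, rfl⟩
      by_contra hcon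
      refine h2 n ?_ hv
      simpa using hcon

theorem viol_window {y : YY} (h : G2 y) (R : ℕ) (hv : viol R y) :
    ∃ C, WC R y C ∧ (en (wt y.1.1) (Zp y) C < 0 ∨ en (wt y.1.1) (Zq y) C < 0) := by
  classical
  obtain ⟨C, hC, hneg⟩ := hv
  cases R with
  | zero =>
    refine ⟨C, ⟨hC, ?_, ?_⟩, hneg⟩ <;> simp [seg]
  | succ R =>
  by_cases h0 : wedge y 0 ∈ C
  · refine ⟨C, ⟨hC, vi_seg_sub h.gy hC h0, ?_⟩, hneg⟩
    exact vi_seg_sub h.gy.rv (vi_rv_VC hC) ((vi_status0 h.gy hC).2 h0)
  have hd1 := vi_seg_disj h.gy hC h0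
  have hd2 := vi_seg_disj h.gy.rv (vi_rv_VC hC) (fun hc => h0 ((vi_status0 h.gy hC).1 hc))
  set H : Ed → Bool := bx (wl y.1) (ind C) with hH
  have hs1 : ∀ e ∈ seg y (R + 1), H e = true := by
    intro e he
    have a1 := hd1 e he
    have a2 := hp_sub h.gy (vi_seg_hp he)
    simp [hH, bx, ind, a1, a2]
  have hs2 : ∀ e ∈ seg (Pool.Agent.Helper60.TJ.rv y) (R + 1), H e = true := by
    intro e he
    have a1 := hd2 e he
    have a2 : wl y.1 e = true := hp_sub h.gy.rv (vi_seg_hp he)
    simp [hH, bx, ind, a1, a2]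
  -- far wall points are not connected to 0
  obtain ⟨n1, hn1⟩ := hp_eventually h.gy C
  obtain ⟨n2, hn2⟩ := hp_eventually h.gy.rv C
  have k1 : ∀ n ≥ max n1 n2, ¬ Cn H 0 (pos y n) := by
    rintro n hn ⟨X, hX, hpX⟩
    have h1 := vi_case h hC.1 (n := n) (fun e he he' => by
      have := hn1 n (le_trans (le_max_left _ _) hn) e he
      rw [he'] at this
      exact ind_eq_true.1 this.symm) hX hpX
    rcases hneg with h2 | h2
    · linarith [h1.1]
    · linarith [h1.2]
  have k2 : ∀ n ≥ max n1 n2, ¬ Cn H 0 (pos (Pool.Agent.Helper60.TJ.rv y) n) := by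
    rintro n hn ⟨X, hX, hpX⟩
    have h1 := vi_case (y := Pool.Agent.Helper60.TJ.rv y) h.rv hC.1 (n := n) (fun e he he' => by
      have := hn2 n (le_trans (le_max_right _ _) hn) e he
      rw [he'] at this
      exact ind_eq_true.1 this.symm) hX hpX
    have e1 : Zp (Pool.Agent.Helper60.TJ.rv y) = Zq y := (Zq_eq h).symm
    have e2 : Zq (Pool.Agent.Helper60.TJ.rv y) = Zp y := by
      rw [Zq_eq h.rv, rv_rv h.gy]
      rfl
    rw [e1, e2] at h1
    rcases hneg with h2 | h2
    · have := h1.2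
      change 0 ≤ en (wt y.1.1) (Zp y) C at this
      linarith
    · have := h1.1
      change 0 ≤ en (wt y.1.1) (Zq y) C at this
      linarith
  have hK := vi_finite h k1 k2
  -- the component of 0
  have hDf : {e : Ed | H e = true ∧ ∃ v d, edg v d = e ∧ Cn H 0 v}.Finite := by
    refine ((hK.prod (Set.finite_univ (α := Dir))).image (fun q => edg q.1 q.2)).subset ?_
    rintro e ⟨_, v, d, hvd, hc⟩
    exact ⟨(v, d), ⟨hc, trivial⟩, hvd⟩
  set D : Finset Ed := hDf.toFinset with hD
  have hDm : ∀ e, e ∈ D ↔ (H e = true ∧ ∃ v d, edg v d = e ∧ Cn H 0 v) := by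
    intro e
    rw [hD, Set.Finite.mem_toFinset]
    rfl
  have hHpar : ∀ v, par H v = false := by
    intro v
    rw [hH, par_bx, h.gy.1.1 v, hC.1 v]
    rfl
  have hDc : IsCyc D := by
    intro v
    by_cases hvK : Cn H 0 v
    · have : ∀ d, ind D (edg v d) = H (edg v d) := by
        intro d
        cases hHe : H (edg v d) with
        | false =>
          unfold ind
          rw [decide_eq_false_iff_not, hDm, hHe]
          simp
        | true =>
          rw [ind_eq_true, hDm]
          exact ⟨hHe, v, d, rfl, hvK⟩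
      rw [← hHpar v]
      unfold par
      rw [this, this, this, this]
    · have : ∀ d, ind D (edg v d) = false := by
        intro d
        unfold ind
        rw [decide_eq_false_iff_not, hDm]
        rintro ⟨hHe, v', d', he, hc⟩
        rcases edg_eq_two he with ⟨h1, _⟩ | ⟨h1, _⟩
        · exact hvK (h1 ▸ hc)
        · refine hvK ?_
          rw [h1]
          exact hc.trans (Cn.step (by rw [he]; exact hHe))
      unfold par
      rw [this, this, this, this]
      rfl
  have hDW : ∀ e ∈ D, inb (R + 1) e → wl y.1 e = true := by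
    intro e he hi
    by_contra hcon
    have h1 := ((hDm e).1 he).1
    have h2 : e ∈ C := by
      rw [Bool.not_eq_true] at hcon
      simp only [hH, bx, hcon, Bool.false_bne] at h1
      simpa [ind] using h1
    exact hcon (hC.2 e h2 hi)
  have hsD1 : seg y (R + 1) ⊆ D := fun e he => (hDm e).2 ⟨hs1 e he, vi_seg_D h.gy hs1 he⟩
  have hsD2 : seg (Pool.Agent.Helper60.TJ.rv y) (R + 1) ⊆ D :=
    fun e he => (hDm e).2 ⟨hs2 e he, vi_seg_D h.gy.rv hs2 he⟩
  have hWD : WC (R + 1) y D := ⟨⟨hDc, hDW⟩, hsD1, hsD2⟩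
  have hWCD : WC (R + 1) y (C ∆ D) := by
    refine ⟨⟨hC.1.symmDiff hDc, ?_⟩, ?_, ?_⟩
    · intro e he hi
      rw [Finset.mem_symmDiff] at he
      rcases he with h1 | h1
      · exact hC.2 e h1.1 hi
      · exact hDW e h1.1 hi
    · intro e he
      rw [Finset.mem_symmDiff]
      exact Or.inr ⟨hsD1 he, hd1 e he⟩
    · intro e he
      rw [Finset.mem_symmDiff]
      exact Or.inr ⟨hsD2 he, hd2 e he⟩
  have hDH : ∀ e, ind D e = true → xor (xor (y.1.2.1 e) (y.1.2.2 e)) (ind C e) = true := by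
    intro e he
    exact ((hDm e).1 (ind_eq_true.1 he)).1
  have e1 : en (wt y.1.1) (Zp y) C = en (wt y.1.1) (Zp y) (C ∆ D) + en (wt y.1.1) (Zq y) D := by
    apply vi_ident
    intro e
    rw [ind_symmDiff]
    exact vi_b2 (ind C e) (ind D e) (y.1.2.1 e) (y.1.2.2 e) (hp y e) (hDH e)
  have e2 : en (wt y.1.1) (Zq y) C = en (wt y.1.1) (Zq y) (C ∆ D) + en (wt y.1.1) (Zp y) D := by
    apply vi_ident
    intro e
    rw [ind_symmDiff]
    exact vi_b2 (ind C e) (ind D e) (y.1.2.2 e) (y.1.2.1 e) (hp y e)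
      (fun h => by rw [Bool.xor_comm (y.1.2.2 e)]; exact hDH e h)
  by_cases g1 : en (wt y.1.1) (Zp y) D < 0
  · exact ⟨D, hWD, Or.inl g1⟩
  by_cases g2 : en (wt y.1.1) (Zq y) D < 0
  · exact ⟨D, hWD, Or.inr g2⟩
  push Not at g1 g2
  refine ⟨C ∆ D, hWCD, ?_⟩
  rcases hneg with h1 | h1
  · left; linarith
  · right; linarith

end Pool.Agent.Helper83.S5
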