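import Pool.Agent.Helper83.S5.DefA
import Pool.Agent.Helper83.S5.SS
import Pool.Agent.Helper83.S5.Viol
import Pool.Agent.Helper60.TJ.Main1

/-! # S5-PSI: (5c), violations come only from near by -/

open MeasureTheory Filter Topology
open scoped symmDiff

namespace Pool.Agent.Helper83.S5

open Pool.Agent.Helper60.TJ

namespace Psix

/-- exchange of the two T-joins on `XX` -/
def swp (p : XX) : XX := (p.1, p.2.2, p.2.1)

theorem measurable_swp : Measurable swp := by
  unfold swp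
  fun_prop

theorem wl_swp (p : XX) : wl (swp p) = wl p := bx_comm _ _

theorem ctt_swp (D : Set XX) (J : Ed → ℝ) : ctt (swp ⁻¹' D) J = ctt D J := by
  unfold ctt
  congr 1
  have h1 : {q : (Ed → Bool) × (Ed → Bool) | q.1 ∈ GJ J ∧ q.2 ∈ GJ J ∧ q.1 ≠ q.2 ∧
      (J, q.1, q.2) ∈ swp ⁻¹' D} = Prod.swap '' {q : (Ed → Bool) × (Ed → Bool) | q.1 ∈ GJ J ∧
      q.2 ∈ GJ J ∧ q.1 ≠ q.2 ∧ (J, q.1, q.2) ∈ D} := by
    ext ⟨a, b⟩
    simp only [Set.mem_ofPred_eq, Set.mem_preimage, Set.mem_image, Prod.exists, Prod.swap_prod_mk,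
      Prod.mk.injEq, swp]
    constructor
    · rintro ⟨h1, h2, h3, h4⟩
      exact ⟨b, a, ⟨h2, h1, h3.symm, h4⟩, rfl, rfl⟩
    · rintro ⟨b', a', ⟨h1, h2, h3, h4⟩, rfl, rfl⟩
      exact ⟨h2, h1, h3.symm, h4⟩
  rw [h1, Set.ncard_image_of_injective _ Prod.swap_injective]

theorem Q_swp {μ : Measure ℝ} [IsProbabilityMeasure μ] {Q : Measure XX} (h5 : H5 μ Q)
    {D : Set XX} (hD : MeasurableSet D) : Q (swp ⁻¹' D) = Q D := by
  rw [h5.cnt _ hD, h5.cnt _ (measurable_swp hD)]
  simp_rw [ctt_swp]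

theorem Th_sw (y : YY) : Th (sw y) = sw (Th y) := by
  obtain ⟨p, d⟩ := y
  show ((shX (stp d) (swp p), nxt (wl (shX (stp d) (swp p))) 0 d) : YY) =
    (swp (shX (stp d) p), nxt (wl (shX (stp d) p)) 0 d)
  have h1 : shX (stp d) (swp p) = swp (shX (stp d) p) := rfl
  rw [h1, wl_swp]

theorem Th_iter_sw (y : YY) (n : ℕ) : Th^[n] (sw y) = sw (Th^[n] y) := by
  induction n with
  | zero => rfl
  | succ n ih => rw [Function.iterate_succ_apply', ih, Th_sw, Function.iterate_succ_apply']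

theorem pos_sw (y : YY) (n : ℕ) : pos (sw y) n = pos y n := by
  induction n with
  | zero => rfl
  | succ n ih =>
    show pos (sw y) n + stp (Th^[n] (sw y)).2 = pos y n + stp (Th^[n] y).2
    rw [ih, Th_iter_sw]
    rfl

theorem seg_sw (y : YY) (n : ℕ) : seg (sw y) n = seg y n := by
  unfold seg wedge
  refine Finset.image_congr fun i _ => ?_
  rw [pos_sw, Th_iter_sw]
  rfl

theorem rv_sw (y : YY) : Pool.Agent.Helper60.TJ.rv (sw y) = sw (Pool.Agent.Helper60.TJ.rv y) := by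
  obtain ⟨p, d⟩ := y
  show ((swp p, oth (wl (swp p)) 0 d) : YY) = (swp p, oth (wl p) 0 d)
  rw [wl_swp]

theorem WC_sw {R : ℕ} {y : YY} {C : Finset Ed} (h : WC R y C) : WC R (sw y) C := by
  obtain ⟨⟨h1, h2⟩, h3, h4⟩ := h
  refine ⟨⟨h1, fun e he hi => ?_⟩, ?_, ?_⟩
  · rw [wl_sw]; exact h2 e he hi
  · rw [seg_sw]; exact h3
  · rw [rv_sw, seg_sw]; exact h4

/-- the levels are bounded below by the defect -/
theorem SSet_ge {y : YY} {D K : ℝ} (hD : Dfc y D) (hK : K ∈ SSet y) : -D ≤ K := by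
  obtain ⟨C, hC, hle⟩ := hK 0
  exact ((hD C hC.1.1).1).trans hle

theorem G2_iter {y : YY} (h : G2 y) (n : ℕ) : G2 (Th^[n] y) := by
  induction n with
  | zero => exact h
  | succ n ih => rw [Function.iterate_succ_apply']; exact ih.th

theorem SSet_iter {y : YY} (h : G2 y) (n : ℕ) (K : ℝ) :
    K ∈ SSet y ↔ K + 2 * Vn n y ∈ SSet (Th^[n] y) := by
  induction n with
  | zero => simp [Vn]
  | succ n ih =>
    rw [ih, SSet_th (G2_iter h n), Function.iterate_succ_apply']
    have h1 : Vn (n + 1) y = Vn n y + xv (Th^[n] y) := by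
      unfold Vn
      rw [Finset.sum_range_succ]
    rw [h1]
    have h2 : K + 2 * Vn n y + 2 * xv (Th^[n] y) = K + 2 * (Vn n y + xv (Th^[n] y)) := by ring
    rw [h2]

/-- points with a nonempty set of levels, a level at most `K` and defect at most `K` -/
def GK (K : ℕ) : Set YY := {y | G2 y ∧ (K : ℝ) ∈ SSet y ∧ Dfc y K}

theorem measurableSet_GK (K : ℕ) : MeasurableSet (GK K) :=
  measurableSet_G2.inter ((measurableSet_SSet K).inter (measurableSet_Dfc K))

theorem GK_mono : Monotone GK := by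
  intro a b hab y hy
  have hab' : (a:ℝ) ≤ b := by exact_mod_cast hab
  exact ⟨hy.1, SSet_up hy.2.1 hab', DefAx.dfc_mono hy.2.2 hab'⟩

theorem Vn_le {K n : ℕ} {y : YY} (h : y ∈ GK K) (h' : Th^[n] y ∈ GK K) : |Vn n y| ≤ K := by
  have h1 := (SSet_iter h.1 n K).1 h.2.1
  have h2 := SSet_ge h'.2.2 h1
  have h3 : (K : ℝ) - 2 * Vn n y ∈ SSet y := by
    rw [SSet_iter h.1 n]
    have : (K:ℝ) - 2 * Vn n y + 2 * Vn n y = K := by ring
    rw [this]
    exact h'.2.1
  have h4 := SSet_ge h.2.2 h3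
  rw [abs_le]
  constructor <;> linarith

/-- points with a nonempty set of levels -/
def EE : Set YY := {y | G2 y ∧ (SSet y).Nonempty}

theorem measurableSet_EE : MeasurableSet EE := by
  have h1 : EE = {y | G2 y} ∩ ⋃ K : ℕ, {y | (K : ℝ) ∈ SSet y} := by
    ext y
    simp only [EE, Set.mem_ofPred_eq, Set.mem_inter_iff, Set.mem_iUnion]
    refine and_congr_right fun _ => ⟨?_, ?_⟩
    · rintro ⟨K, hK⟩
      obtain ⟨K', hK'⟩ := exists_nat_ge K
      exact ⟨K', SSet_up hK hK'⟩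
    · rintro ⟨K, hK⟩
      exact ⟨K, hK⟩
  rw [h1]
  exact measurableSet_G2.inter (MeasurableSet.iUnion fun K => measurableSet_SSet K)

end Psix

open Psix

theorem mp_sw {μ : Measure ℝ} [IsProbabilityMeasure μ] {Q : Measure XX} (h5 : H5 μ Q) :
    MeasurePreserving sw (nuM Q) (nuM Q) := by
  refine ⟨measurable_sw, ?_⟩
  ext A hA
  rw [Measure.map_apply measurable_sw hA, DefAx.nuM_eq Q (measurable_sw hA), DefAx.nuM_eq Q hA]
  refine Finset.sum_congr rfl fun d _ => ?_
  have hD : MeasurableSet {p : XX | wl p (edg 0 d) = true ∧ (p, d) ∈ A} := by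
    have h1 : Measurable (fun p : XX => (p, d)) := measurable_id.prodMk measurable_const
    have h2 : Measurable (fun p : XX => wl p (edg 0 d)) := (measurable_pi_apply _).comp measurable_wl
    exact (measurableSet_eq_fun h2 measurable_const).inter (h1 hA)
  rw [← Q_swp h5 hD]
  congr 1
  ext p
  simp only [Set.mem_ofPred_eq, Set.mem_preimage, wl_swp]
  exact Iff.rfl

theorem ae_SSet {μ : Measure ℝ} [IsProbabilityMeasure μ] {Q : Measure XX} (h5 : H5 μ Q) :
    ∀ᵐ y ∂(nuM Q), SSet y = ∅ := by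
  haveI : IsFiniteMeasure (nuM Q) := ⟨nu_univ_lt h5.isQ⟩
  have hE0 : nuM Q EE = 0 := by
    by_contra hne
    set ε := (nuM Q).real EE with hε
    have hε0 : 0 < ε := ENNReal.toReal_pos hne (measure_ne_top _ _)
    -- the sets `GK K` exhaust `EE`
    have hun : nuM Q (⋃ K, GK K) = nuM Q EE := by
      refine measure_congr ?_
      filter_upwards [ae_dfc h5] with y hy
      refine propext ⟨?_, ?_⟩
      · intro h
        obtain ⟨K, hK⟩ := Set.mem_iUnion.1 h
        exact ⟨hK.1, ⟨_, hK.2.1⟩⟩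
      · rintro ⟨hG, K, hK⟩
        obtain ⟨D, hD⟩ := hy
        obtain ⟨K', hK'⟩ := exists_nat_ge K
        refine Set.mem_iUnion.2 ⟨max D K', hG, ?_, ?_⟩
        · exact SSet_up hK (hK'.trans (by exact_mod_cast le_max_right _ _))
        · exact DefAx.dfc_mono hD (by exact_mod_cast le_max_left _ _)
    have hlim := tendsto_measure_iUnion_atTop (μ := nuM Q) GK_mono
    rw [hun] at hlim
    have hlim2 : Tendsto (fun K => (nuM Q).real (GK K)) atTop (𝓝 ε) :=
      (ENNReal.tendsto_toReal (measure_ne_top _ _)).comp hlim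
    obtain ⟨K, hK⟩ := (hlim2.eventually_const_lt (show 3 / 4 * ε < ε by linarith)).exists
    -- lower bound for the measure of `|Vn| ≤ K`
    have hlow : ∀ n : ℕ, ε / 2 ≤ (nuM Q {y | |Vn n y| ≤ (K:ℝ)}).toReal := by
      intro n
      have hmp := (mp_Th h5.isQ).iterate n
      have h1 : (nuM Q).real (Th^[n] ⁻¹' GK K) = (nuM Q).real (GK K) := by
        unfold Measure.real
        rw [hmp.measure_preimage (measurableSet_GK K).nullMeasurableSet]
      have h2 : (nuM Q).real (GK K ∪ Th^[n] ⁻¹' GK K) ≤ ε := by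
        refine ENNReal.toReal_mono (measure_ne_top _ _) (measure_mono_ae ?_)
        filter_upwards [ae_G2 h5] with y hG
        intro hy
        rcases hy with hy | hy
        · exact ⟨hG, ⟨_, hy.2.1⟩⟩
        · refine ⟨hG, (K:ℝ) - 2 * Vn n y, ?_⟩
          rw [SSet_iter hG n]
          have : (K:ℝ) - 2 * Vn n y + 2 * Vn n y = K := by ring
          rw [this]
          exact hy.2.1
      have h3 := measureReal_union_add_inter (μ := nuM Q) (s := GK K)
        (t := Th^[n] ⁻¹' GK K) (hmp.measurable (measurableSet_GK K))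
      have h4 : (nuM Q).real (GK K ∩ Th^[n] ⁻¹' GK K) ≤ (nuM Q).real {y | |Vn n y| ≤ (K:ℝ)} :=
        measureReal_mono (fun y hy => Vn_le hy.1 hy.2) (measure_ne_top _ _)
      have h5' : (nuM Q).real {y | |Vn n y| ≤ (K:ℝ)} = (nuM Q {y | |Vn n y| ≤ (K:ℝ)}).toReal := rfl
      rw [← h5']
      linarith
    have hces := cesaro_wall h5.atl h5.isQ (K:ℝ)
    have hev : ∀ᶠ N : ℕ in atTop, ε / 2 ≤ (N : ℝ)⁻¹ * ∑ n ∈ Finset.range N,
        (nuM Q {y | |Vn n y| ≤ (K:ℝ)}).toReal := by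
      filter_upwards [eventually_gt_atTop 0] with N hN
      have h1 : (N : ℝ) * (ε / 2) ≤ ∑ n ∈ Finset.range N,
          (nuM Q {y | |Vn n y| ≤ (K:ℝ)}).toReal := by
        have := Finset.card_nsmul_le_sum (Finset.range N)
          (fun n => (nuM Q {y | |Vn n y| ≤ (K:ℝ)}).toReal) (ε / 2) (fun n _ => hlow n)
        simpa [nsmul_eq_mul] using this
      have hN' : (0 : ℝ) < N := by exact_mod_cast hN
      rw [← div_eq_inv_mul, le_div_iff₀ hN']
      linarith
    have := ge_of_tendsto hces hev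
    linarith
  have h1 : ∀ᵐ y ∂(nuM Q), y ∉ EE := measure_eq_zero_iff_ae_notMem.1 hE0
  filter_upwards [h1, ae_G2 h5] with y hy hG
  by_contra hcon
  exact hy ⟨hG, Set.nonempty_iff_ne_empty.2 hcon⟩

theorem viol_small {μ : Measure ℝ} [IsProbabilityMeasure μ] {Q : Measure XX} (h5 : H5 μ Q) :
    Tendsto (fun R : ℕ => nuM Q {y | viol R y}) atTop (𝓝 0) := by
  haveI : IsFiniteMeasure (nuM Q) := ⟨nu_univ_lt h5.isQ⟩
  have hanti : Antitone (fun R : ℕ => {y : YY | viol R y}) := by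
    intro R R' hR y hy
    obtain ⟨C, ⟨h1, h2⟩, h3⟩ := hy
    exact ⟨C, ⟨h1, fun e he hi => h2 e he (SSx.inb_mono hR hi)⟩, h3⟩
  have hlim := tendsto_measure_iInter_atTop (μ := nuM Q)
    (fun R => (measurableSet_viol R).nullMeasurableSet) hanti ⟨0, measure_ne_top _ _⟩
  have h0 : nuM Q (⋂ R, {y : YY | viol R y}) = 0 := by
    rw [measure_eq_zero_iff_ae_notMem]
    have hsw := (mp_sw h5).quasiMeasurePreserving.ae (ae_SSet h5)
    filter_upwards [ae_SSet h5, hsw, ae_G2 h5] with y hS hS' hG hy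
    have h1 : (0:ℝ) ∉ SSet y := by rw [hS]; simp
    have h2 : (0:ℝ) ∉ SSet (sw y) := by rw [hS']; simp
    unfold SSet at h1 h2
    rw [Set.mem_ofPred_eq] at h1 h2
    push Not at h1 h2
    obtain ⟨R1, hR1⟩ := h1
    obtain ⟨R2, hR2⟩ := h2
    have h3 := Set.mem_iInter.1 hy (max R1 R2)
    obtain ⟨C, hC, hv⟩ := viol_window hG _ h3
    rcases hv with hv | hv
    · have := hR1 C (hC.anti (le_max_left _ _))
      linarith
    · have := hR2 C (WC_sw (hC.anti (le_max_right _ _)))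
      rw [(Zp_sw y).1] at this
      have h6 : wt (sw y).1.1 = wt y.1.1 := rfl
      rw [h6] at this
      linarith
  rw [h0] at hlim
  exact hlim

end Pool.Agent.Helper83.S5
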