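import Pool.Agent.Helper83.S5.Meas
import Pool.Agent.Helper66.TJ.Refl

/-! # S5-TOG: the reflection preserves the measure -/

open MeasureTheory Filter Topology
open scoped symmDiff

namespace Pool.Agent.Helper83.S5

open Pool.Agent.Helper60.TJ

namespace Togx

theorem ray_eq : S5.ray = Pool.Agent.Helper60.TJ.ray 0 := by
  funext e
  unfold S5.ray Pool.Agent.Helper60.TJ.ray
  obtain ⟨⟨a, b⟩, c⟩ := e
  cases c with
  | false => simp
  | true =>
    simp only [true_and, Bool.true_and]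
    rw [decide_eq_decide]
    show 1 ≤ a ∧ b = 0 ↔ b = (0 : ℤ) ∧ (0 : ℤ) < a
    constructor
    · rintro ⟨h1, h2⟩; exact ⟨h2, by omega⟩
    · rintro ⟨h1, h2⟩; exact ⟨by omega, h1⟩

theorem tog_eq (y : YY) : tog y = Rf0 y := by
  unfold tog Rf0
  rw [ray_eq]
  rfl

end Togx

theorem hp_tog {y : YY} : hp (tog y) = hp y ∧ wl (tog y).1 = wl y.1 := by
  rw [Togx.tog_eq]
  exact ⟨hp_Rf0 y, wl_Rf0 y⟩

theorem tog_mem {y : YY} (h : y ∈ AA) (hnz : ∀ e, y.1.1 e ≠ 0) : tog y ∈ AA := by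
  obtain ⟨hG, hp1, hq1⟩ := h
  have ha : Adm y := ⟨hp1, hq1⟩
  rw [Togx.tog_eq]
  refine ⟨⟨(GY_Rf0 y).2 hG.gy, Zj_mem hG.gy ha hnz hG.mem, Zk_mem hG.gy ha hnz hG.mem',
    (CW_Rf0 y).2 hG.cw⟩, ?_⟩
  exact Adm_Rf0 hG.mem hG.mem'

theorem tog_tog (y : YY) : tog (tog y) = y := by
  rw [Togx.tog_eq, Togx.tog_eq, Rf0_Rf0]

namespace Togx

theorem RR_of_mem {y : YY} (h : y ∈ S5.AA) : RR y = tog y := if_pos h

theorem RR_of_notMem {y : YY} (h : y ∉ S5.AA) : RR y = y := if_neg h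

theorem ctt_RR {J : Ed → ℝ} (hz : ∀ e, J e ≠ 0) (d : Dir) (B : Set YY) :
    ctt {p | wl p (edg 0 d) = true ∧ (p, d) ∈ RR ⁻¹' B ∩ S5.AA} J =
      ctt {p | wl p (edg 0 d) = true ∧ (p, d) ∈ B ∩ S5.AA} (flp S5.ray J) := by
  have hz' : ∀ e, flp S5.ray J e ≠ 0 := by
    intro e
    simp only [flp_apply]
    split_ifs
    · exact neg_ne_zero.2 (hz e)
    · exact hz e
  have hne : ∀ y : YY, wl y.1 (edg 0 d) = true → y.1.2.1 ≠ y.1.2.2 := by
    intro y hw h
    have h1 : wl y.1 = fun _ => false := by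
      show bx y.1.2.1 y.1.2.2 = _
      rw [h, bx_self]
    rw [h1] at hw
    exact absurd hw (by simp)
  unfold ctt
  congr 1
  refine Set.ncard_congr (fun q _ => ((tog ((J, q.1, q.2), d)).1.2.1,
    (tog ((J, q.1, q.2), d)).1.2.2)) ?_ ?_ ?_
  · rintro ⟨U, U'⟩ ⟨hU, hU', -, hw, hR, hA⟩
    have hR' : tog ((J, U, U'), d) ∈ B := by
      rw [← RR_of_mem hA]; exact hR
    have hm := tog_mem hA hz
    have hw' : wl (tog ((J, U, U'), d)).1 (edg 0 d) = true := by
      rw [hp_tog.2]; exact hw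
    exact ⟨hm.1.mem, hm.1.mem', hne _ hw', hw', hR', hm⟩
  · rintro ⟨U, U'⟩ ⟨V, V'⟩ _ _ hqq
    have h1 : tog ((J, U, U'), d) = tog ((J, V, V'), d) := by
      have e1 : (tog ((J, U, U'), d)).1.2.1 = (tog ((J, V, V'), d)).1.2.1 := congrArg Prod.fst hqq
      have e2 : (tog ((J, U, U'), d)).1.2.2 = (tog ((J, V, V'), d)).1.2.2 := congrArg Prod.snd hqq
      exact Prod.ext (Prod.ext rfl (Prod.ext e1 e2)) rfl
    have h2 := congrArg tog h1
    rw [tog_tog, tog_tog] at h2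
    have h3 := congrArg (fun y : YY => y.1.2) h2
    exact h3
  · rintro ⟨V, V'⟩ ⟨hV, hV', -, hw, hB, hA⟩
    set y' : YY := ((flp S5.ray J, V, V'), d) with hy'
    have hm := tog_mem hA hz'
    have hJ : (tog y').1.1 = J := flp_flp _ _
    have hR : tog y' = ((J, (tog y').1.2.1, (tog y').1.2.2), d) := by
      refine Prod.ext (Prod.ext hJ rfl) rfl
    have hRR : tog ((J, (tog y').1.2.1, (tog y').1.2.2), d) = y' := by rw [← hR, tog_tog]
    have hw' : wl (tog y').1 (edg 0 d) = true := by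
      rw [hp_tog.2]; exact hw
    have hmem := hm.1.mem
    have hmem' := hm.1.mem'
    rw [hJ] at hmem hmem'
    rw [hR] at hm hw'
    refine ⟨((tog y').1.2.1, (tog y').1.2.2), ⟨hmem, hmem', ?_, hw', ?_, hm⟩, ?_⟩
    · exact hne ((J, (tog y').1.2.1, (tog y').1.2.2), d) hw'
    · show RR ((J, (tog y').1.2.1, (tog y').1.2.2), d) ∈ B
      rw [RR_of_mem hm, hRR]
      exact hB
    · show ((tog ((J, (tog y').1.2.1, (tog y').1.2.2), d)).1.2.1,
        (tog ((J, (tog y').1.2.1, (tog y').1.2.2), d)).1.2.2) = (V, V')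
      rw [hRR]

end Togx

theorem mp_RR {μ : Measure ℝ} [IsProbabilityMeasure μ] {Q : Measure XX} (h5 : H5 μ Q) :
    MeasurePreserving RR (nuM Q) (nuM Q) := by
  refine ⟨measurable_RR, ?_⟩
  have hm : ∀ (d : Dir) {B : Set YY}, MeasurableSet B →
      MeasurableSet {p : XX | wl p (edg 0 d) = true ∧ (p, d) ∈ B} := by
    intro d B hB
    exact (measurableSet_eq_fun ((measurable_coord (edg 0 d)).comp measurable_wl)
      measurable_const).inter ((measurable_id.prodMk measurable_const :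
        Measurable fun p : XX => (p, d)) hB)
  have key : ∀ {B : Set YY}, MeasurableSet B →
      nuM Q (RR ⁻¹' B ∩ AA) = nuM Q (B ∩ AA) := by
    intro B hB
    have hB1 : MeasurableSet (RR ⁻¹' B ∩ AA) := (measurable_RR hB).inter measurableSet_AA
    have hB2 : MeasurableSet (B ∩ AA) := hB.inter measurableSet_AA
    rw [nu_eq _ hB1, nu_eq _ hB2]
    refine Finset.sum_congr rfl fun d _ => ?_
    rw [h5.cnt _ (hm d hB1), h5.cnt _ (hm d hB2)]
    have h1 := lintegral_map' (μ := PP μ) (g := flp ray)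
      (f := ctt {p | wl p (edg 0 d) = true ∧ (p, d) ∈ B ∩ AA})
      (by rw [(mp_flp μ h5.sym ray).map_eq]; exact h5.cntm _ (hm d hB2))
      (measurable_flp _).aemeasurable
    rw [(mp_flp μ h5.sym ray).map_eq] at h1
    rw [h1]
    refine lintegral_congr_ae ?_
    filter_upwards [h5.nice] with J hJ
    exact Togx.ctt_RR hJ.nz d B
  ext B hB
  rw [Measure.map_apply measurable_RR hB]
  have h1 : nuM Q (RR ⁻¹' B) = nuM Q (RR ⁻¹' B ∩ AA) + nuM Q (RR ⁻¹' B \ AA) :=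
    (measure_inter_add_sdiff _ measurableSet_AA).symm
  have h2 : nuM Q B = nuM Q (B ∩ AA) + nuM Q (B \ AA) :=
    (measure_inter_add_sdiff _ measurableSet_AA).symm
  have h3 : RR ⁻¹' B \ AA = B \ AA := by
    ext y
    simp only [Set.mem_sdiff, Set.mem_preimage]
    constructor
    · rintro ⟨h4, h5⟩
      rw [Togx.RR_of_notMem h5] at h4
      exact ⟨h4, h5⟩
    · rintro ⟨h4, h5⟩
      exact ⟨by rw [Togx.RR_of_notMem h5]; exact h4, h5⟩
  rw [h1, h2, key hB, h3]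

end Pool.Agent.Helper83.S5
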