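import Pool.Agent.Helper83.S5.Act
import Pool.Agent.Helper83.S5.Tog
import Pool.Agent.Helper83.S5.Psi
import Pool.Agent.Helper66.TJ.Loc

/-! # S5-LOC: asymptotic locality of the reflection -/

open MeasureTheory Filter Topology
open scoped symmDiff

namespace Pool.Agent.Helper83.S5

open Pool.Agent.Helper60.TJ

namespace Locx

theorem ae_AA {μ : Measure ℝ} [IsProbabilityMeasure μ] {Q : Measure XX} (h5 : H5 μ Q) :
    ∀ᵐ y ∂(nuM Q), (y ∈ S5.AA ↔ y ∈ Pool.Agent.Helper60.TJ.AA) := by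
  filter_upwards [ae_CW h5.isQ, ae_Gd h5.isQ, nu_ae_GY h5.isQ] with y h1 h2 h3
  constructor
  · rintro ⟨hG, hp1, hq1⟩
    exact ⟨h3, hp1, hq1⟩
  · rintro ⟨hG, hp1, hq1⟩
    exact ⟨⟨h3, h2.mem, h2.mem', h1⟩, hp1, hq1⟩

theorem RR_cases (y : YY) : (y ∈ S5.AA ∧ RR y = Rf0 y) ∨ RR y = y := by
  by_cases h : y ∈ S5.AA
  · left; exact ⟨h, by rw [Togx.RR_of_mem h, Togx.tog_eq]⟩
  · right; exact Togx.RR_of_notMem h

theorem core {μ : Measure ℝ} [IsProbabilityMeasure μ] {Q : Measure XX} (h5 : H5 μ Q)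
    {T : ℕ → YY → YY} (hT : ∀ k, MeasurePreserving (T k) (nuM Q) (nuM Q))
    {σ : YY → YY} (hσ : MeasurePreserving σ (nuM Q) (nuM Q))
    (hσA : ∀ y, σ y ∈ Pool.Agent.Helper60.TJ.AA ↔ y ∈ Pool.Agent.Helper60.TJ.AA)
    (hloc : ∀ {F : Finset Ed} {B : Set YY}, LocOn F B → ∀ {y : YY}, GY y → CW y → ∀ {k : ℕ},
      T k y ∉ Far F k → (pw (T k (Rf0 y)) ∈ B ↔ pw (σ (T k y)) ∈ B)) :
    Tendsto (fun k : ℕ => nuM Q {y | ¬ (T k (RR y) ∈ AA ↔ T k y ∈ AA)}) atTop (𝓝 0) := by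
  have hQ : IsQ μ 2 Q := h5.isQ
  have hfin : IsFiniteMeasure (nuM Q) := ⟨nu_univ_lt hQ⟩
  set ν := nuM Q with hν
  rw [ENNReal.tendsto_nhds_zero]
  intro ε hε
  by_cases htop : ε = ⊤
  · exact Eventually.of_forall fun k => by rw [htop]; exact le_top
  set δ : ℝ := ε.toReal / 3 with hδ
  have hε' : 0 < ε.toReal := ENNReal.toReal_pos hε.ne' htop
  have hδ0 : 0 < δ := by positivity
  have h3δ : ENNReal.ofReal δ + ENNReal.ofReal δ + ENNReal.ofReal δ = ε := by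
    rw [← ENNReal.ofReal_add hδ0.le hδ0.le, ← ENNReal.ofReal_add (by positivity) hδ0.le,
      show δ + δ + δ = ε.toReal by rw [hδ]; ring, ENNReal.ofReal_toReal htop]
  obtain ⟨B, hBm, ⟨F, hB⟩, hAB⟩ :=
    exists_local (ν.map pw) Pool.Agent.Helper60.TJ.measurableSet_AA hδ0
  have hABm : MeasurableSet (Pool.Agent.Helper60.TJ.AA ∆ B) :=
    Pool.Agent.Helper60.TJ.measurableSet_AA.symmDiff hBm
  rw [Measure.map_apply measurable_pw hABm] at hAB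
  have hfar := (ENNReal.tendsto_nhds_zero.1 (tendsto_Far hQ F)) (ENNReal.ofReal δ)
    (ENNReal.ofReal_pos.2 hδ0)
  filter_upwards [hfar] with k hk
  have hmT := hT k
  have hmR := mp_RR h5
  have hpm : MeasurableSet (pw ⁻¹' (Pool.Agent.Helper60.TJ.AA ∆ B)) := measurable_pw hABm
  have h1 : ν {y | T k (RR y) ∈ pw ⁻¹' (Pool.Agent.Helper60.TJ.AA ∆ B)}
      = ν (pw ⁻¹' (Pool.Agent.Helper60.TJ.AA ∆ B)) :=
    (hmT.comp hmR).measure_preimage hpm.nullMeasurableSet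
  have h2 : ν {y | σ (T k y) ∈ pw ⁻¹' (Pool.Agent.Helper60.TJ.AA ∆ B)}
      = ν (pw ⁻¹' (Pool.Agent.Helper60.TJ.AA ∆ B)) :=
    (hσ.comp hmT).measure_preimage hpm.nullMeasurableSet
  have h3 : ν {y | T k y ∈ Far F k} = ν (Far F k) :=
    hmT.measure_preimage (measurableSet_Far F k).nullMeasurableSet
  have ha := ae_AA h5
  have ha1 : ∀ᵐ y ∂ν, (T k (RR y) ∈ S5.AA ↔ T k (RR y) ∈ Pool.Agent.Helper60.TJ.AA) :=
    (hmT.comp hmR).quasiMeasurePreserving.ae ha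
  have ha2 : ∀ᵐ y ∂ν, (T k y ∈ S5.AA ↔ T k y ∈ Pool.Agent.Helper60.TJ.AA) :=
    hmT.quasiMeasurePreserving.ae ha
  have hsub : ν {y | ¬ (T k (RR y) ∈ AA ↔ T k y ∈ AA)} ≤
      ν ({y | T k (RR y) ∈ pw ⁻¹' (Pool.Agent.Helper60.TJ.AA ∆ B)} ∪
        {y | σ (T k y) ∈ pw ⁻¹' (Pool.Agent.Helper60.TJ.AA ∆ B)} ∪
        {y | T k y ∈ Far F k}) := by
    apply measure_mono_ae
    filter_upwards [ae_CW hQ, nu_ae_GY hQ, ha1, ha2] with y hc hG ha1 ha2 hy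
    by_contra hcon
    have hcon' : ¬ (y ∈ ({y | T k (RR y) ∈ pw ⁻¹' (Pool.Agent.Helper60.TJ.AA ∆ B)} ∪
      {y | σ (T k y) ∈ pw ⁻¹' (Pool.Agent.Helper60.TJ.AA ∆ B)} ∪
      {y | T k y ∈ Far F k})) := hcon
    simp only [Set.mem_union, Set.mem_ofPred_eq, not_or, Set.mem_preimage] at hcon'
    obtain ⟨⟨c1, c2⟩, c3⟩ := hcon'
    apply hy
    rw [ha1, ha2]
    rcases RR_cases y with ⟨hA, hR⟩ | hR
    · have c4 := hloc hB hG hc c3
      rw [hR] at c1 ⊢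
      have c5 : pw (T k (Rf0 y)) ∈ Pool.Agent.Helper60.TJ.AA ↔ pw (T k (Rf0 y)) ∈ B := by
        rw [Set.mem_symmDiff] at c1
        tauto
      have c6 : pw (σ (T k y)) ∈ Pool.Agent.Helper60.TJ.AA ↔ pw (σ (T k y)) ∈ B := by
        rw [Set.mem_symmDiff] at c2
        tauto
      rw [pw_mem_AA] at c5 c6
      rw [hσA] at c6
      rw [c5, c4, c6]
    · rw [hR]
  calc ν {y | ¬ (T k (RR y) ∈ AA ↔ T k y ∈ AA)}
      ≤ _ := hsub
    _ ≤ ν {y | T k (RR y) ∈ pw ⁻¹' (Pool.Agent.Helper60.TJ.AA ∆ B)} +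
        ν {y | σ (T k y) ∈ pw ⁻¹' (Pool.Agent.Helper60.TJ.AA ∆ B)} +
        ν {y | T k y ∈ Far F k} :=
      (measure_union_le _ _).trans (add_le_add (measure_union_le _ _) le_rfl)
    _ ≤ ENNReal.ofReal δ + ENNReal.ofReal δ + ENNReal.ofReal δ := by
      rw [h1, h2, h3]
      exact add_le_add (add_le_add hAB.le hAB.le) hk
    _ = ε := h3δ

end Locx

theorem loc_pos {μ : Measure ℝ} [IsProbabilityMeasure μ] {Q : Measure XX} (h5 : H5 μ Q) :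
    Tendsto (fun k : ℕ => nuM Q {y | ¬ (Tz (k : ℤ) (RR y) ∈ AA ↔ Tz (k : ℤ) y ∈ AA)})
      atTop (𝓝 0) :=
  Locx.core h5 (T := fun k => Tz (k : ℤ)) (fun k => mp_Tz h5.isQ _) (σ := S5.sw) (mp_sw h5)
    sw_mem_AA (fun hB _ hy hc _ hk => local_pos hB hy hc hk)

theorem loc_neg {μ : Measure ℝ} [IsProbabilityMeasure μ] {Q : Measure XX} (h5 : H5 μ Q) :
    Tendsto (fun k : ℕ => nuM Q {y | ¬ (Tz (-(k : ℤ)) (RR y) ∈ AA ↔ Tz (-(k : ℤ)) y ∈ AA)})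
      atTop (𝓝 0) :=
  Locx.core h5 (T := fun k => Tz (-(k : ℤ))) (fun k => mp_Tz h5.isQ _) (σ := id)
    (MeasurePreserving.id _) (fun _ => Iff.rfl) (fun hB _ hy _ _ hk => local_neg hB hy hk)

end Pool.Agent.Helper83.S5
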