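import Pool.Agent.Helper83.S5.Sys
import Pool.Agent.Helper66.TJ.H5
import Pool.Agent.Helper59.UP.D
import Pool.Agent.Helper60.TJ.Main1

/-! # The number of ground states in two dimensions is 2 or infinite -/

open MeasureTheory Filter Topology

namespace Pool.Agent.Helper83.S5

open Pool.Agent.Helper60.TJ

theorem main2 (μ : Measure ℝ) [IsProbabilityMeasure μ] (hμ : ∀ x : ℝ, μ {x} = 0)
    (hsym : μ.map (fun x => -x) = μ) (hu : ∀ K : ℝ, μ {x | K < |x|} ≠ 0) :
    (∀ᵐ J ∂(PP μ), {σ | IsGroundState J σ}.encard = 2) ∨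
    (∀ᵐ J ∂(PP μ), {σ | IsGroundState J σ}.Infinite) := by
  have hb := ae_basic μ hμ
  rcases ae_nice_or μ hμ with h | ⟨k, hk1, hk⟩
  · right
    filter_upwards [h, hb] with J h1 h2
    rw [← Set.encard_eq_top_iff, encard_spin h2.1 h2.2, Set.encard_eq_top_iff.2 h1]
    rfl
  · obtain ⟨Q, hQ⟩ := exists_Q μ k hk
    have hk2 := k_le_two hμ hsym hQ
    interval_cases k
    · left
      filter_upwards [hk, hb] with J h1 h2
      rw [encard_spin h2.1 h2.2, ← Set.Finite.cast_ncard_eq h1.fin, h1.card]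
      rfl
    · exfalso
      obtain ⟨Q', h5⟩ := exists_H5 hsym hμ hk
      exact not_two h5 hu (fun δ hδ => Pool.Agent.Helper59.UP.sub_main hsym hk h5.isQ hδ)

end Pool.Agent.Helper83.S5
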