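import Pool.Agent.Helper83.S5.Path

/-! # S5-MODIFY: (5d), deterministic part -/

open MeasureTheory Filter Topology
open scoped symmDiff

namespace Pool.Agent.Helper83.S5

open Pool.Agent.Helper60.TJ

private theorem modify_real (x : ℝ) (hx : x ≠ 0) (u : Bool) (K x' : ℝ) (hK : 0 ≤ K)
    (hx' : x' = x + if decide (x < 0) = u then K else -K) :
    |x'| * sg (xor u (xor (decide (x < 0)) (decide (x' < 0)))) = |x| * sg u + K := by
  rcases lt_or_gt_of_ne hx with h | h
  · have hd : decide (x < 0) = true := by simpa using h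
    rw [hd] at hx' ⊢
    cases u with
    | true =>
      rw [if_pos rfl] at hx'
      by_cases h2 : x' < 0
      · rw [decide_eq_true h2, abs_of_neg h2, abs_of_neg h]
        simp only [sg, Bool.xor_self, Bool.xor_false, if_true]
        linarith
      · rw [decide_eq_false h2, abs_of_nonneg (not_lt.1 h2), abs_of_neg h]
        simp [sg]
        linarith
    | false =>
      rw [if_neg (by simp)] at hx'
      have h2 : x' < 0 := by linarith
      rw [decide_eq_true h2, abs_of_neg h2, abs_of_neg h]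
      simp [sg]
      linarith
  · have hd : decide (x < 0) = false := by
      rw [decide_eq_false_iff_not]; exact not_lt.2 h.le
    rw [hd] at hx' ⊢
    cases u with
    | true =>
      rw [if_neg (by simp)] at hx'
      by_cases h2 : x' < 0
      · rw [decide_eq_true h2, abs_of_neg h2, abs_of_pos h]
        simp [sg]
        linarith
      · rw [decide_eq_false h2, abs_of_nonneg (not_lt.1 h2), abs_of_pos h]
        simp [sg]
        linarith
    | false =>
      rw [if_pos rfl] at hx'
      have h2 : ¬ x' < 0 := by linarith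
      rw [decide_eq_false h2, abs_of_nonneg (not_lt.1 h2), abs_of_pos h]
      simp [sg]
      linarith

private theorem modify_th {y z : YY} (h1 : wl y.1 = wl z.1) (h2 : y.2 = z.2) :
    wl (Th y).1 = wl (Th z).1 ∧ (Th y).2 = (Th z).2 := by
  have e : wl (shX (stp y.2) y.1) = wl (shX (stp z.2) z.1) := by
    rw [wl_shX, wl_shX, h1, h2]
  refine ⟨e, ?_⟩
  show nxt (wl (shX (stp y.2) y.1)) 0 y.2 = nxt (wl (shX (stp z.2) z.1)) 0 z.2
  rw [e, h2]

private theorem modify_iter {y z : YY} (h1 : wl y.1 = wl z.1) (h2 : y.2 = z.2) (n : ℕ) :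
    wl (Th^[n] y).1 = wl (Th^[n] z).1 ∧ (Th^[n] y).2 = (Th^[n] z).2 := by
  induction n with
  | zero => exact ⟨h1, h2⟩
  | succ n ih =>
    rw [Function.iterate_succ_apply', Function.iterate_succ_apply']
    exact modify_th ih.1 ih.2

private theorem modify_pos {y z : YY} (h1 : wl y.1 = wl z.1) (h2 : y.2 = z.2) (n : ℕ) :
    pos y n = pos z n := by
  induction n with
  | zero => rfl
  | succ n ih =>
    show pos y n + stp ((Th^[n] y).2) = pos z n + stp ((Th^[n] z).2)
    rw [ih, (modify_iter h1 h2 n).2]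

private theorem modify_hp {y z : YY} (h1 : wl y.1 = wl z.1) (h2 : y.2 = z.2) : hp y = hp z := by
  have hw : ∀ n, wedge y n = wedge z n := fun n => by
    unfold wedge
    rw [modify_pos h1 h2 n, (modify_iter h1 h2 n).2]
  funext e
  unfold hp
  congr 1
  apply propext
  constructor
  · rintro ⟨n, hn⟩; exact ⟨n, by rw [← hw]; exact hn⟩
  · rintro ⟨n, hn⟩; exact ⟨n, by rw [hw]; exact hn⟩

private theorem modify_inb_finite (R : ℕ) : {e : Ed | inb R e}.Finite := by
  have h : ((fun q : Vx × Dir => edg q.1 q.2) ''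
      ((box R ×ˢ (Finset.univ : Finset Dir) : Finset (Vx × Dir)) : Set (Vx × Dir))).Finite :=
    (Finset.finite_toSet _).image _
  refine h.subset ?_
  rintro e ⟨v, d, rfl, hv, -⟩
  exact ⟨(v, d), by simpa using hv, rfl⟩

private theorem modify_en (w w' : Ed → ℝ) (X X' : Ed → Bool) (O : Finset Ed) (K : ℝ)
    (hO : ∀ e ∈ O, w' e * sg (X' e) = w e * sg (X e) + K)
    (hN : ∀ e, e ∉ O → w' e * sg (X' e) = w e * sg (X e)) (C : Finset Ed) :
    en w' X' C = en w X C + K * ((C ∩ O).card : ℝ) := by
  classical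
  unfold en
  have h1 : ∑ e ∈ C, w' e * sg (X' e)
      = ∑ e ∈ C, (w e * sg (X e) + if e ∈ O then K else 0) := by
    refine Finset.sum_congr rfl fun e _ => ?_
    by_cases he : e ∈ O
    · rw [hO e he, if_pos he]
    · rw [hN e he, if_neg he, add_zero]
  rw [h1, Finset.sum_add_distrib, ← Finset.sum_filter, Finset.filter_mem_eq_inter,
    Finset.sum_const, nsmul_eq_mul, mul_comm]

/-- raise all couplings off the wall in the box by `K` in the satisfied direction -/
theorem modify {y : YY} (h : G2 y) (hnz : ∀ e, y.1.1 e ≠ 0) (R K : ℕ) (hv : ¬ viol R y)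
    (hK : ∀ C, IsCyc C → -(K : ℝ) < en (wt y.1.1) (Zp y) C ∧ -(K : ℝ) < en (wt y.1.1) (Zq y) C) :
    ∃ (A B : Finset Ed) (U U' : Ed → Bool),
      (((fun e => y.1.1 e + cf A B K e), U, U'), y.2) ∈ AA := by
  classical
  obtain ⟨⟨J, U, U'⟩, d⟩ := y
  have hfin : {e : Ed | inb R e ∧ wl (J, U, U') e = false}.Finite :=
    (modify_inb_finite R).subset fun e he => he.1
  obtain ⟨O, hO⟩ : ∃ O : Finset Ed, ∀ e, e ∈ O ↔ (inb R e ∧ wl (J, U, U') e = false) :=
    ⟨hfin.toFinset, fun e => by rw [Set.Finite.mem_toFinset]; rfl⟩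
  let A : Finset Ed := O.filter (fun e => ng J e = U e)
  let B : Finset Ed := O.filter (fun e => ¬ ng J e = U e)
  obtain ⟨J', hJ'⟩ : ∃ J' : Ed → ℝ, J' = fun e => J e + cf A B K e := ⟨_, rfl⟩
  obtain ⟨g, hg⟩ : ∃ g : Ed → Bool, g = fun e => xor (ng J e) (ng J' e) := ⟨_, rfl⟩
  have hJO : ∀ e ∈ O, J' e = J e + if decide (J e < 0) = U e then (K : ℝ) else -(K : ℝ) := by
    intro e he
    rw [hJ']
    show J e + cf A B K e = _
    congr 1
    unfold cf
    by_cases h1 : decide (J e < 0) = U e
    · have h2 : e ∈ A := Finset.mem_filter.2 ⟨he, h1⟩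
      rw [if_pos h2, if_pos h1]
    · have h2 : e ∉ A := fun h3 => h1 (Finset.mem_filter.1 h3).2
      have h3 : e ∈ B := Finset.mem_filter.2 ⟨he, h1⟩
      rw [if_neg h2, if_pos h3, if_neg h1]
  have hJN : ∀ e, e ∉ O → J' e = J e := by
    intro e he
    rw [hJ']
    show J e + cf A B K e = _
    unfold cf
    have h2 : e ∉ A := fun h3 => he (Finset.mem_filter.1 h3).1
    have h3 : e ∉ B := fun h3 => he (Finset.mem_filter.1 h3).1
    rw [if_neg h2, if_neg h3, add_zero]
  have hgN : ∀ e, e ∉ O → g e = false := by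
    intro e he
    rw [hg]
    show xor (ng J e) (ng J' e) = false
    unfold ng
    rw [hJN e he, Bool.xor_self]
  have hgO : ∀ e ∈ O, ∀ u : Bool, u = U e →
      wt J' e * sg (xor u (g e)) = wt J e * sg u + K := by
    intro e he u hu
    have := modify_real (J e) (hnz e) u K (J' e) (Nat.cast_nonneg K) (by rw [hu]; exact hJO e he)
    rw [hg]
    exact this
  have hW : ∀ e, wl (J, U, U') e = xor (U e) (U' e) := fun e => rfl
  have hUO : ∀ e ∈ O, U' e = U e := by
    intro e he
    have h1 := ((hO e).1 he).2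
    rw [hW] at h1
    cases h2 : U e <;> cases h3 : U' e <;> simp_all
  -- the new point
  have hwl : wl (J', bx U g, bx U' g) = wl (J, U, U') := by
    funext e
    show xor (xor (U e) (g e)) (xor (U' e) (g e)) = xor (U e) (U' e)
    cases U e <;> cases U' e <;> cases g e <;> rfl
  have hhp : hp (((J', bx U g, bx U' g), d) : YY) = hp (((J, U, U'), d) : YY) :=
    modify_hp hwl rfl
  have hpar : ∀ (X : Ed → Bool), (∀ v, par X v = fr J v) → ∀ v, par (bx X g) v = fr J' v := by
    intro X hX v
    have e1 : g = bx (ng J) (ng J') := hg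
    rw [par_bx, hX v, e1, par_bx]
    unfold fr
    cases par (ng J) v <;> simp
  have hoff : ∀ e ∈ O, hp (((J, U, U'), d) : YY) e = false := fun e he =>
    hp_of_not h.gy ((hO e).1 he).2
  -- energies
  have enU : ∀ C, en (wt J') (bx U g) C = en (wt J) U C + K * ((C ∩ O).card : ℝ) := by
    intro C
    refine modify_en _ _ _ _ O K (fun e he => ?_) (fun e he => ?_) C
    · exact hgO e he (U e) rfl
    · show wt J' e * sg (xor (U e) (g e)) = _
      rw [hgN e he, Bool.xor_false]
      unfold wt; rw [hJN e he]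
  have enU' : ∀ C, en (wt J') (bx U' g) C = en (wt J) U' C + K * ((C ∩ O).card : ℝ) := by
    intro C
    refine modify_en _ _ _ _ O K (fun e he => ?_) (fun e he => ?_) C
    · exact hgO e he (U' e) (hUO e he)
    · show wt J' e * sg (xor (U' e) (g e)) = _
      rw [hgN e he, Bool.xor_false]
      unfold wt; rw [hJN e he]
  have enZ : ∀ C, en (wt J') (Zp (((J', bx U g, bx U' g), d) : YY)) C
      = en (wt J) (Zp (((J, U, U'), d) : YY)) C + K * ((C ∩ O).card : ℝ) := by
    intro C
    refine modify_en _ _ _ _ O K (fun e he => ?_) (fun e he => ?_) C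
    · show wt J' e * sg (xor (xor (U e) (g e)) (hp (((J', bx U g, bx U' g), d) : YY) e))
        = wt J e * sg (xor (U e) (hp (((J, U, U'), d) : YY) e)) + K
      rw [hhp, hoff e he, Bool.xor_false, Bool.xor_false]
      exact hgO e he (U e) rfl
    · show wt J' e * sg (xor (xor (U e) (g e)) (hp (((J', bx U g, bx U' g), d) : YY) e))
        = wt J e * sg (xor (U e) (hp (((J, U, U'), d) : YY) e))
      rw [hhp, hgN e he, Bool.xor_false]
      unfold wt; rw [hJN e he]
  have enZ' : ∀ C, en (wt J') (Zq (((J', bx U g, bx U' g), d) : YY)) C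
      = en (wt J) (Zq (((J, U, U'), d) : YY)) C + K * ((C ∩ O).card : ℝ) := by
    intro C
    refine modify_en _ _ _ _ O K (fun e he => ?_) (fun e he => ?_) C
    · show wt J' e * sg (xor (xor (U' e) (g e)) (hp (((J', bx U g, bx U' g), d) : YY) e))
        = wt J e * sg (xor (U' e) (hp (((J, U, U'), d) : YY) e)) + K
      rw [hhp, hoff e he, Bool.xor_false, Bool.xor_false]
      exact hgO e he (U' e) (hUO e he)
    · show wt J' e * sg (xor (xor (U' e) (g e)) (hp (((J', bx U g, bx U' g), d) : YY) e))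
        = wt J e * sg (xor (U' e) (hp (((J, U, U'), d) : YY) e))
      rw [hhp, hgN e he, Bool.xor_false]
      unfold wt; rw [hJN e he]
  have hK0 : (0 : ℝ) ≤ K := Nat.cast_nonneg K
  have hcard : ∀ C : Finset Ed, (0 : ℝ) ≤ K * ((C ∩ O).card : ℝ) := fun C =>
    mul_nonneg hK0 (Nat.cast_nonneg _)
  refine ⟨A, B, bx U g, bx U' g, ?_⟩
  have hgoal : ((((J', bx U g, bx U' g), d) : YY)) ∈ AA := by
    refine ⟨⟨?_, ?_, ?_, ?_⟩, ?_, ?_⟩
    · -- GY
      have h0 := h.gy
      unfold GY at h0 ⊢
      show Deg2 (wl (J', bx U g, bx U' g)) ∧ wl (J', bx U g, bx U' g) (edg 0 d) = true ∧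
        ∀ C : Finset Ed, IsCyc C → (∀ e ∈ C, wl (J', bx U g, bx U' g) e = true) → C = ∅
      rw [hwl]
      exact h0
    · refine ⟨hpar U h.mem.1, fun C hC => ?_⟩
      have h1 := h.mem.2 C hC
      show 0 ≤ en (wt J') (bx U g) C
      rw [enU]
      have h2 : 0 ≤ en (wt J) U C := h1
      linarith [hcard C]
    · refine ⟨hpar U' h.mem'.1, fun C hC => ?_⟩
      have h1 := h.mem'.2 C hC
      show 0 ≤ en (wt J') (bx U' g) C
      rw [enU']
      have h2 : 0 ≤ en (wt J) U' C := h1
      linarith [hcard C]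
    · -- CW
      have h0 := h.cw
      unfold CW at h0 ⊢
      show ∀ v, OnW (wl (J', bx U g, bx U' g)) v → Cn (wl (J', bx U g, bx U' g)) 0 v
      rw [hwl]
      exact h0
    · intro C hC
      show 0 ≤ en (wt J') (Zp (((J', bx U g, bx U' g), d) : YY)) C
      rw [enZ]
      by_cases hCO : C ∩ O = ∅
      · have hVC : VC R (((J, U, U'), d) : YY) C := by
          refine ⟨hC, fun e he hi => ?_⟩
          by_contra hne
          have hf : wl (J, U, U') e = false := by simpa using hne
          have : e ∈ C ∩ O := Finset.mem_inter.2 ⟨he, (hO e).2 ⟨hi, hf⟩⟩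
          rw [hCO] at this
          simp at this
        have h1 : 0 ≤ en (wt J) (Zp (((J, U, U'), d) : YY)) C := by
          by_contra hneg
          exact hv ⟨C, hVC, Or.inl (not_le.1 hneg)⟩
        linarith [hcard C]
      · have h1 : (1 : ℝ) ≤ ((C ∩ O).card : ℝ) := by
          have := Finset.card_pos.2 (Finset.nonempty_iff_ne_empty.2 hCO)
          exact_mod_cast this
        have h2 := (hK C hC).1
        have h3 : (K : ℝ) * 1 ≤ K * ((C ∩ O).card : ℝ) := mul_le_mul_of_nonneg_left h1 hK0
        have h4 : -(K : ℝ) < en (wt J) (Zp (((J, U, U'), d) : YY)) C := h2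
        linarith
    · intro C hC
      show 0 ≤ en (wt J') (Zq (((J', bx U g, bx U' g), d) : YY)) C
      rw [enZ']
      by_cases hCO : C ∩ O = ∅
      · have hVC : VC R (((J, U, U'), d) : YY) C := by
          refine ⟨hC, fun e he hi => ?_⟩
          by_contra hne
          have hf : wl (J, U, U') e = false := by simpa using hne
          have : e ∈ C ∩ O := Finset.mem_inter.2 ⟨he, (hO e).2 ⟨hi, hf⟩⟩
          rw [hCO] at this
          simp at this
        have h1 : 0 ≤ en (wt J) (Zq (((J, U, U'), d) : YY)) C := by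
          by_contra hneg
          exact hv ⟨C, hVC, Or.inr (not_le.1 hneg)⟩
        linarith [hcard C]
      · have h1 : (1 : ℝ) ≤ ((C ∩ O).card : ℝ) := by
          have := Finset.card_pos.2 (Finset.nonempty_iff_ne_empty.2 hCO)
          exact_mod_cast this
        have h2 := (hK C hC).2
        have h3 : (K : ℝ) * 1 ≤ K * ((C ∩ O).card : ℝ) := mul_le_mul_of_nonneg_left h1 hK0
        have h4 : -(K : ℝ) < en (wt J) (Zq (((J, U, U'), d) : YY)) C := h2
        linarith
  rw [hJ'] at hgoal
  exact hgoal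

end Pool.Agent.Helper83.S5
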