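import Pool.Agent.Helper83.S5.Path

/-! # S5-MODIFY, general form (helper94 for helper23): arbitrary large satisfied couplings off the wall in the box -/

open MeasureTheory Filter Topology
open scoped symmDiff

namespace Pool.Agent.Helper83.S5

open Pool.Agent.Helper60.TJ

private theorem modgen_th {y z : YY} (h1 : wl y.1 = wl z.1) (h2 : y.2 = z.2) :
    wl (Th y).1 = wl (Th z).1 ∧ (Th y).2 = (Th z).2 := by
  have e : wl (shX (stp y.2) y.1) = wl (shX (stp z.2) z.1) := by
    rw [wl_shX, wl_shX, h1, h2]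
  refine ⟨e, ?_⟩
  show nxt (wl (shX (stp y.2) y.1)) 0 y.2 = nxt (wl (shX (stp z.2) z.1)) 0 z.2
  rw [e, h2]

private theorem modgen_iter {y z : YY} (h1 : wl y.1 = wl z.1) (h2 : y.2 = z.2) (n : ℕ) :
    wl (Th^[n] y).1 = wl (Th^[n] z).1 ∧ (Th^[n] y).2 = (Th^[n] z).2 := by
  induction n with
  | zero => exact ⟨h1, h2⟩
  | succ n ih =>
    rw [Function.iterate_succ_apply', Function.iterate_succ_apply']
    exact modgen_th ih.1 ih.2

private theorem modgen_pos {y z : YY} (h1 : wl y.1 = wl z.1) (h2 : y.2 = z.2) (n : ℕ) :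
    pos y n = pos z n := by
  induction n with
  | zero => rfl
  | succ n ih =>
    show pos y n + stp ((Th^[n] y).2) = pos z n + stp ((Th^[n] z).2)
    rw [ih, (modgen_iter h1 h2 n).2]

private theorem modgen_hp {y z : YY} (h1 : wl y.1 = wl z.1) (h2 : y.2 = z.2) : hp y = hp z := by
  have hw : ∀ n, wedge y n = wedge z n := fun n => by
    unfold wedge
    rw [modgen_pos h1 h2 n, (modgen_iter h1 h2 n).2]
  funext e
  unfold hp
  congr 1
  apply propext
  constructor
  · rintro ⟨n, hn⟩; exact ⟨n, by rw [← hw]; exact hn⟩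
  · rintro ⟨n, hn⟩; exact ⟨n, by rw [hw]; exact hn⟩

private theorem modgen_inb_finite (R : ℕ) : {e : Ed | inb R e}.Finite := by
  have h : ((fun q : Vx × Dir => edg q.1 q.2) ''
      ((box R ×ˢ (Finset.univ : Finset Dir) : Finset (Vx × Dir)) : Set (Vx × Dir))).Finite :=
    (Finset.finite_toSet _).image _
  refine h.subset ?_
  rintro e ⟨v, d, rfl, hv, -⟩
  exact ⟨(v, d), by simpa using hv, rfl⟩

private theorem modgen_en (w w' : Ed → ℝ) (X X' : Ed → Bool) (O : Finset Ed) (K : ℝ)
    (hO : ∀ e ∈ O, w e * sg (X e) + K ≤ w' e * sg (X' e))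
    (hN : ∀ e, e ∉ O → w' e * sg (X' e) = w e * sg (X e)) (C : Finset Ed) :
    en w X C + K * ((C ∩ O).card : ℝ) ≤ en w' X' C := by
  classical
  unfold en
  have h1 : ∑ e ∈ C, (w e * sg (X e) + if e ∈ O then K else 0) ≤ ∑ e ∈ C, w' e * sg (X' e) := by
    refine Finset.sum_le_sum fun e _ => ?_
    by_cases he : e ∈ O
    · rw [if_pos he]; exact hO e he
    · rw [hN e he, if_neg he, add_zero]
  rw [Finset.sum_add_distrib, ← Finset.sum_filter, Finset.filter_mem_eq_inter,
    Finset.sum_const, nsmul_eq_mul, mul_comm] at h1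
  exact h1

/-- changed couplings (satisfied direction, large) off the wall in the box -/
theorem modify_gen {y : YY} (h : G2 y) (R : ℕ) (K : ℝ) (hv : ¬ viol R y)
    (hK : ∀ C, IsCyc C → -K < en (wt y.1.1) (Zp y) C ∧ -K < en (wt y.1.1) (Zq y) C)
    (J' : Ed → ℝ) (hoff : ∀ e, ¬ (inb R e ∧ wl y.1 e = false) → J' e = y.1.1 e)
    (hon : ∀ e, inb R e → wl y.1 e = false →
      |y.1.1 e| * sg (y.1.2.1 e) + K ≤ J' e * (sg (ng y.1.1 e) * sg (y.1.2.1 e))) :
    ∃ U U2 : Ed → Bool, ((J', U, U2), y.2) ∈ AA := by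
  classical
  obtain ⟨⟨J, U, U'⟩, d⟩ := y
  have hfin : {e : Ed | inb R e ∧ wl (J, U, U') e = false}.Finite :=
    (modgen_inb_finite R).subset fun e he => he.1
  obtain ⟨O, hO⟩ : ∃ O : Finset Ed, ∀ e, e ∈ O ↔ (inb R e ∧ wl (J, U, U') e = false) :=
    ⟨hfin.toFinset, fun e => by rw [Set.Finite.mem_toFinset]; rfl⟩
  obtain ⟨g, hg⟩ : ∃ g : Ed → Bool, g = fun e => xor (ng J e) (ng J' e) := ⟨_, rfl⟩
  have hJN : ∀ e, e ∉ O → J' e = J e := fun e he => hoff e fun h1 => he ((hO e).2 h1)
  have hgN : ∀ e, e ∉ O → g e = false := by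
    intro e he
    rw [hg]
    show xor (ng J e) (ng J' e) = false
    unfold ng
    rw [hJN e he, Bool.xor_self]
  have hgO : ∀ e ∈ O, ∀ u : Bool, u = U e →
      wt J e * sg u + K ≤ wt J' e * sg (xor u (g e)) := by
    intro e he u hu
    have h1 := hon e ((hO e).1 he).1 ((hO e).1 he).2
    have h2 : wt J' e * sg (xor u (g e)) = J' e * (sg (ng J e) * sg (U e)) := by
      rw [hg, hu]
      show |J' e| * sg (xor (U e) (xor (ng J e) (ng J' e))) = _
      unfold ng
      by_cases h3 : J' e < 0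
      · rw [abs_of_neg h3, decide_eq_true h3]
        cases U e <;> cases decide (J e < 0) <;> simp [sg]
      · rw [abs_of_nonneg (not_lt.1 h3), decide_eq_false h3]
        cases U e <;> cases decide (J e < 0) <;> simp [sg]
    rw [h2, hu]
    exact h1
  have hW : ∀ e, wl (J, U, U') e = xor (U e) (U' e) := fun e => rfl
  have hUO : ∀ e ∈ O, U' e = U e := by
    intro e he
    have h1 := ((hO e).1 he).2
    rw [hW] at h1
    cases h2 : U e <;> cases h3 : U' e <;> simp_all
  -- the new point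
  have hwl : wl (J', bx U g, bx U' g) = wl (J, U, U') := by
    funext e
    show xor (xor (U e) (g e)) (xor (U' e) (g e)) = xor (U e) (U' e)
    cases U e <;> cases U' e <;> cases g e <;> rfl
  have hhp : hp (((J', bx U g, bx U' g), d) : YY) = hp (((J, U, U'), d) : YY) :=
    modgen_hp hwl rfl
  have hpar : ∀ (X : Ed → Bool), (∀ v, par X v = fr J v) → ∀ v, par (bx X g) v = fr J' v := by
    intro X hX v
    have e1 : g = bx (ng J) (ng J') := hg
    rw [par_bx, hX v, e1, par_bx]
    unfold fr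
    cases par (ng J) v <;> simp
  have hoff : ∀ e ∈ O, hp (((J, U, U'), d) : YY) e = false := fun e he =>
    hp_of_not h.gy ((hO e).1 he).2
  -- energies
  have enU : ∀ C, en (wt J) U C + K * ((C ∩ O).card : ℝ) ≤ en (wt J') (bx U g) C := by
    intro C
    refine modgen_en _ _ _ _ O K (fun e he => ?_) (fun e he => ?_) C
    · exact hgO e he (U e) rfl
    · show wt J' e * sg (xor (U e) (g e)) = _
      rw [hgN e he, Bool.xor_false]
      unfold wt; rw [hJN e he]
  have enU' : ∀ C, en (wt J) U' C + K * ((C ∩ O).card : ℝ) ≤ en (wt J') (bx U' g) C := by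
    intro C
    refine modgen_en _ _ _ _ O K (fun e he => ?_) (fun e he => ?_) C
    · exact hgO e he (U' e) (hUO e he)
    · show wt J' e * sg (xor (U' e) (g e)) = _
      rw [hgN e he, Bool.xor_false]
      unfold wt; rw [hJN e he]
  have enZ : ∀ C, en (wt J) (Zp (((J, U, U'), d) : YY)) C + K * ((C ∩ O).card : ℝ)
      ≤ en (wt J') (Zp (((J', bx U g, bx U' g), d) : YY)) C := by
    intro C
    refine modgen_en _ _ _ _ O K (fun e he => ?_) (fun e he => ?_) C
    · show wt J e * sg (xor (U e) (hp (((J, U, U'), d) : YY) e)) + K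
        ≤ wt J' e * sg (xor (xor (U e) (g e)) (hp (((J', bx U g, bx U' g), d) : YY) e))
      rw [hhp, hoff e he, Bool.xor_false, Bool.xor_false]
      exact hgO e he (U e) rfl
    · show wt J' e * sg (xor (xor (U e) (g e)) (hp (((J', bx U g, bx U' g), d) : YY) e))
        = wt J e * sg (xor (U e) (hp (((J, U, U'), d) : YY) e))
      rw [hhp, hgN e he, Bool.xor_false]
      unfold wt; rw [hJN e he]
  have enZ' : ∀ C, en (wt J) (Zq (((J, U, U'), d) : YY)) C + K * ((C ∩ O).card : ℝ)
      ≤ en (wt J') (Zq (((J', bx U g, bx U' g), d) : YY)) C := by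
    intro C
    refine modgen_en _ _ _ _ O K (fun e he => ?_) (fun e he => ?_) C
    · show wt J e * sg (xor (U' e) (hp (((J, U, U'), d) : YY) e)) + K
        ≤ wt J' e * sg (xor (xor (U' e) (g e)) (hp (((J', bx U g, bx U' g), d) : YY) e))
      rw [hhp, hoff e he, Bool.xor_false, Bool.xor_false]
      exact hgO e he (U' e) (hUO e he)
    · show wt J' e * sg (xor (xor (U' e) (g e)) (hp (((J', bx U g, bx U' g), d) : YY) e))
        = wt J e * sg (xor (U' e) (hp (((J, U, U'), d) : YY) e))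
      rw [hhp, hgN e he, Bool.xor_false]
      unfold wt; rw [hJN e he]
  have hK0 : 0 ≤ K := by
    have h0 : IsCyc ∅ := by intro v; simp [par, ind]
    have := (hK ∅ h0).1
    simp only [en, Finset.sum_empty] at this
    linarith
  have hcard : ∀ C : Finset Ed, 0 ≤ K * ((C ∩ O).card : ℝ) := fun C =>
    mul_nonneg hK0 (Nat.cast_nonneg _)
  refine ⟨bx U g, bx U' g, ⟨?_, ?_, ?_, ?_⟩, ?_, ?_⟩
  · -- GY
    have h0 := h.gy
    unfold GY at h0 ⊢
    show Deg2 (wl (J', bx U g, bx U' g)) ∧ wl (J', bx U g, bx U' g) (edg 0 d) = true ∧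
      ∀ C : Finset Ed, IsCyc C → (∀ e ∈ C, wl (J', bx U g, bx U' g) e = true) → C = ∅
    rw [hwl]
    exact h0
  · refine ⟨hpar U h.mem.1, fun C hC => ?_⟩
    have h2 : 0 ≤ en (wt J) U C := h.mem.2 C hC
    exact le_trans (add_nonneg h2 (hcard C)) (enU C)
  · refine ⟨hpar U' h.mem'.1, fun C hC => ?_⟩
    have h2 : 0 ≤ en (wt J) U' C := h.mem'.2 C hC
    exact le_trans (add_nonneg h2 (hcard C)) (enU' C)
  · -- CW
    have h0 := h.cw
    unfold CW at h0 ⊢
    show ∀ v, OnW (wl (J', bx U g, bx U' g)) v → Cn (wl (J', bx U g, bx U' g)) 0 v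
    rw [hwl]
    exact h0
  · intro C hC
    refine le_trans ?_ (enZ C)
    by_cases hCO : C ∩ O = ∅
    · have hVC : VC R (((J, U, U'), d) : YY) C := by
        refine ⟨hC, fun e he hi => ?_⟩
        by_contra hne
        have hf : wl (J, U, U') e = false := by simpa using hne
        have : e ∈ C ∩ O := Finset.mem_inter.2 ⟨he, (hO e).2 ⟨hi, hf⟩⟩
        rw [hCO] at this
        simp at this
      have h1 : 0 ≤ en (wt J) (Zp (((J, U, U'), d) : YY)) C := by
        by_contra hneg
        exact hv ⟨C, hVC, Or.inl (not_le.1 hneg)⟩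
      linarith [hcard C]
    · have h1 : (1 : ℝ) ≤ ((C ∩ O).card : ℝ) := by
        have := Finset.card_pos.2 (Finset.nonempty_iff_ne_empty.2 hCO)
        exact_mod_cast this
      have h4 : -K < en (wt J) (Zp (((J, U, U'), d) : YY)) C := (hK C hC).1
      have h3 : K * 1 ≤ K * ((C ∩ O).card : ℝ) := mul_le_mul_of_nonneg_left h1 hK0
      linarith
  · intro C hC
    refine le_trans ?_ (enZ' C)
    by_cases hCO : C ∩ O = ∅
    · have hVC : VC R (((J, U, U'), d) : YY) C := by
        refine ⟨hC, fun e he hi => ?_⟩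
        by_contra hne
        have hf : wl (J, U, U') e = false := by simpa using hne
        have : e ∈ C ∩ O := Finset.mem_inter.2 ⟨he, (hO e).2 ⟨hi, hf⟩⟩
        rw [hCO] at this
        simp at this
      have h1 : 0 ≤ en (wt J) (Zq (((J, U, U'), d) : YY)) C := by
        by_contra hneg
        exact hv ⟨C, hVC, Or.inr (not_le.1 hneg)⟩
      linarith [hcard C]
    · have h1 : (1 : ℝ) ≤ ((C ∩ O).card : ℝ) := by
        have := Finset.card_pos.2 (Finset.nonempty_iff_ne_empty.2 hCO)
        exact_mod_cast this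
      have h4 : -K < en (wt J) (Zq (((J, U, U'), d) : YY)) C := (hK C hC).2
      have h3 : K * 1 ≤ K * ((C ∩ O).card : ℝ) := mul_le_mul_of_nonneg_left h1 hK0
      linarith

end Pool.Agent.Helper83.S5
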