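import Pool.Agent.Helper83.S5.Defs

/-! # S5-PATH: the two half walls -/

open MeasureTheory Filter Topology
open scoped symmDiff

namespace Pool.Agent.Helper83.S5

open Pool.Agent.Helper60.TJ

namespace Pathx

theorem wedge_eq_wedgez {y : YY} (h : GY y) (n : ℕ) : wedge y n = wedgez y n :=
  (wedgez_natCast h n).symm

theorem wedgez_Tz {y : YY} (h : GY y) (k l : ℤ) :
    wedgez (Tz k y) l = ((wedgez y (k + l)).1 - posz y k, (wedgez y (k + l)).2) := by
  unfold wedgez
  rw [← Tz_add, add_comm l k, posz_Tz h]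
  have h2 := edg_add (posz y k) (posz y (k + l) - posz y k) (Tz (k + l) y).2
  rw [sub_add_cancel] at h2
  rw [h2]
  simp

theorem posz_one {y : YY} (h : GY y) : posz y 1 = stp y.2 := by
  have := posz_step h 0
  rw [zero_add, posz_zero, zero_add, Tz_zero] at this
  exact this

theorem wedgez_th {y : YY} (h : GY y) (l : ℤ) :
    wedgez (Th y) l = ((wedgez y (1 + l)).1 - stp y.2, (wedgez y (1 + l)).2) := by
  rw [← Tz_one h, wedgez_Tz h, posz_one h]

theorem edg_zero {y : YY} : wedgez y 0 = edg 0 y.2 := by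
  unfold wedgez; rw [posz_zero, Tz_zero]

/-- an edge seen after one step -/
theorem sub_eq_iff {e f : Ed} {u : Vx} : e = (f.1 - u, f.2) ↔ (e.1 + u, e.2) = f := by
  constructor
  · rintro rfl; simp
  · rintro rfl; simp

theorem acyc_sh {W : Ed → Bool} {u : Vx} (v : Vx) :
    OnW (sh u W) v ↔ OnW W (v + u) := OnW_sh

end Pathx

theorem G2.th {y : YY} (h : G2 y) : G2 (Th y) where
  gy := h.gy.th
  mem := mem_GJ_sh.2 h.mem
  mem' := mem_GJ_sh.2 h.mem'
  cw := by
    have := CW_Tz h.gy h.cw 1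
    rwa [Tz_one h.gy] at this

theorem G2.rv {y : YY} (h : G2 y) : G2 (rv y) where
  gy := h.gy.rv
  mem := h.mem
  mem' := h.mem'
  cw := h.cw

theorem wl_sw (y : YY) : wl (sw y).1 = wl y.1 := bx_comm _ _

namespace Pathx

theorem wedge_sw (y : YY) : wedge (sw y) = wedge y := by
  have h1 : ∀ n, wl (Th^[n] (S5.sw y)).1 = wl (Th^[n] y).1 ∧ (Th^[n] (S5.sw y)).2 = (Th^[n] y).2 := by
    intro n
    induction n with
    | zero => exact ⟨wl_sw y, rfl⟩
    | succ n ih =>
      rw [Function.iterate_succ_apply', Function.iterate_succ_apply']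
      have h3 : wl (Th (Th^[n] (S5.sw y))).1 = wl (Th (Th^[n] y)).1 := by
        show wl (shX (stp (Th^[n] (S5.sw y)).2) (Th^[n] (S5.sw y)).1)
          = wl (shX (stp (Th^[n] y).2) (Th^[n] y).1)
        rw [wl_shX, wl_shX, ih.1, ih.2]
      refine ⟨h3, ?_⟩
      show nxt (wl (shX (stp (Th^[n] (S5.sw y)).2) (Th^[n] (S5.sw y)).1)) 0 (Th^[n] (S5.sw y)).2
        = nxt (wl (shX (stp (Th^[n] y).2) (Th^[n] y).1)) 0 (Th^[n] y).2
      rw [wl_shX, wl_shX, ih.1, ih.2]
  have h2 : ∀ n, pos (S5.sw y) n = pos y n := by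
    intro n
    induction n with
    | zero => rfl
    | succ n ih => simp only [pos]; rw [ih, (h1 n).2]
  funext n
  unfold wedge
  rw [h2, (h1 n).2]

end Pathx

theorem G2.sw {y : YY} (h : G2 y) : G2 (sw y) where
  gy := by
    have := h.gy
    unfold GY at this ⊢
    rw [wl_sw]
    exact this
  mem := h.mem'
  mem' := h.mem
  cw := by
    have := h.cw
    unfold CW at this ⊢
    rw [wl_sw]
    exact this

theorem hp_sw (y : YY) : hp (sw y) = hp y := by
  unfold hp; rw [Pathx.wedge_sw]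

theorem sw_sw (y : YY) : sw (sw y) = y := rfl

theorem Zp_sw (y : YY) : Zp (sw y) = Zq y ∧ Zq (sw y) = Zp y := by
  unfold Zp Zq
  rw [hp_sw]
  exact ⟨rfl, rfl⟩

/-- `U' + W₊ = U + W₋` -/
theorem Zq_eq {y : YY} (h : G2 y) : Zq y = bx y.1.2.1 (hp (Pool.Agent.Helper60.TJ.rv y)) := by
  have h1 := bx_hp h.gy h.cw
  unfold Zq
  funext e
  have h2 := congrFun h1 e
  unfold bx at h2 ⊢
  have h3 : wl y.1 e = xor (y.1.2.1 e) (y.1.2.2 e) := rfl
  rw [h3] at h2
  revert h2
  cases y.1.2.1 e <;> cases y.1.2.2 e <;> cases hp y e <;>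
    cases hp (Pool.Agent.Helper60.TJ.rv y) e <;> simp

theorem par_ray : par ray = dl 0 := by
  have : ray = Pool.Agent.Helper60.TJ.ray 0 := by
    funext e
    unfold ray Pool.Agent.Helper60.TJ.ray
    obtain ⟨⟨a, b⟩, c⟩ := e
    cases c with
    | false => simp
    | true =>
      simp only [true_and, Bool.true_and]
      rw [decide_eq_decide]
      show 1 ≤ a ∧ b = 0 ↔ b = (0 : ℤ) ∧ (0 : ℤ) < a
      constructor
      · rintro ⟨h1, h2⟩; exact ⟨h2, by omega⟩
      · rintro ⟨h1, h2⟩; exact ⟨by omega, h1⟩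
  rw [this, Pool.Agent.Helper60.TJ.par_ray]

/-- the first step along the wall removes one edge from the forward half wall -/
theorem hp_th {y : YY} (h : G2 y) :
    hp (Th y) = sh (stp y.2) (bx (hp y) (ind {edg 0 y.2})) := by
  funext e
  show hp (Th y) e = xor (hp y (e.1 + stp y.2, e.2)) (ind {edg 0 y.2} (e.1 + stp y.2, e.2))
  cases hw : wl (Th y).1 e with
  | false =>
    have hw' : wl y.1 (e.1 + stp y.2, e.2) = false := hw
    rw [hp_of_not h.gy.th hw, hp_of_not h.gy hw']
    have : ind {edg 0 y.2} (e.1 + stp y.2, e.2) = false := by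
      cases h1 : ind {edg 0 y.2} (e.1 + stp y.2, e.2) with
      | false => rfl
      | true =>
        rw [ind_eq_true, Finset.mem_singleton] at h1
        rw [h1, h.gy.2.1] at hw'
        exact absurd hw' (by simp)
    rw [this]
    rfl
  | true =>
    obtain ⟨l, hl⟩ := exists_wedgez h.gy.th h.th.cw hw
    have hl' := hl
    rw [Pathx.wedgez_th h.gy, Pathx.sub_eq_iff] at hl'
    rw [hl', hl, hp_wedgez h.gy.th, hp_wedgez h.gy]
    have h2 : ind {edg 0 y.2} (wedgez y (1 + l)) = decide (1 + l = 0) := by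
      rw [Bool.eq_iff_iff, ind_eq_true, Finset.mem_singleton, decide_eq_true_iff, ← Pathx.edg_zero]
      exact (wedgez_injective h.gy).eq_iff
    rw [h2]
    by_cases h3 : 0 ≤ l
    · have e1 : (0 ≤ 1 + l) := by omega
      have e2 : ¬ (1 + l = 0) := by omega
      simp [h3, e1, e2]
    · by_cases h4 : 1 + l = 0
      · have e1 : (0 ≤ 1 + l) := by omega
        simp [h3, h4]
      · have e1 : ¬ (0 ≤ 1 + l) := by omega
        simp [h3, h4, e1]

/-- and adds it to the backward half wall -/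
theorem hp_rv_th {y : YY} (h : G2 y) : hp (Pool.Agent.Helper60.TJ.rv (Th y))
    = sh (stp y.2) (bx (hp (Pool.Agent.Helper60.TJ.rv y)) (ind {edg 0 y.2})) := by
  have h1 := bx_hp h.gy.th h.th.cw
  have h2 := bx_hp h.gy h.cw
  have h3 := hp_th h
  have h4 : wl (Th y).1 = sh (stp y.2) (wl y.1) := rfl
  rw [h4, ← h2, h3] at h1
  have h5 := congrArg (bx (sh (stp y.2) (bx (hp y) (ind {edg 0 y.2})))) h1
  rw [bx_cancel'] at h5
  rw [h5, ← sh_bx]
  congr 1
  funext e
  unfold bx
  cases hp y e <;> cases ind {edg 0 y.2} e <;> cases hp (Pool.Agent.Helper60.TJ.rv y) e <;> rfl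

/-- the backward walk after one step: the first edge is `e₀`, then the old backward walk -/
theorem wedge_rv_th {y : YY} (h : G2 y) :
    (wedge (Pool.Agent.Helper60.TJ.rv (Th y)) 0).1 + stp y.2 = (edg 0 y.2).1 ∧
    (wedge (Pool.Agent.Helper60.TJ.rv (Th y)) 0).2 = (edg 0 y.2).2 ∧
    ∀ n, wedge (Pool.Agent.Helper60.TJ.rv (Th y)) (n + 1)
      = ((wedge (Pool.Agent.Helper60.TJ.rv y) n).1 - stp y.2,
          (wedge (Pool.Agent.Helper60.TJ.rv y) n).2) := by
  have h0 : wedge (Pool.Agent.Helper60.TJ.rv (Th y)) 0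
      = ((edg 0 y.2).1 - stp y.2, (edg 0 y.2).2) := by
    rw [wedge_rv h.gy.th, Pathx.wedgez_th h.gy]
    have : (1 + (-((0 : ℕ) : ℤ) - 1)) = 0 := by norm_num
    rw [this, Pathx.edg_zero]
  refine ⟨by rw [h0]; simp, by rw [h0], fun n => ?_⟩
  rw [wedge_rv h.gy.th, Pathx.wedgez_th h.gy, wedge_rv h.gy]
  have : (1 + (-((n + 1 : ℕ) : ℤ) - 1)) = -(n : ℤ) - 1 := by push_cast; ring
  rw [this]

theorem wedge_th (y : YY) (n : ℕ) : wedge (Th y) n
    = ((wedge y (n + 1)).1 - stp y.2, (wedge y (n + 1)).2) := by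
  have hpos : ∀ n, pos y (n + 1) = stp y.2 + pos (Th y) n := by
    intro n
    induction n with
    | zero => simp [pos]
    | succ n ih =>
      have h1 : pos y (n + 1 + 1) = pos y (n + 1) + stp (Th^[n + 1] y).2 := rfl
      have h2 : pos (Th y) (n + 1) = pos (Th y) n + stp (Th^[n] (Th y)).2 := rfl
      rw [h1, h2, ih, Function.iterate_succ_apply, add_assoc]
  unfold wedge
  rw [hpos, Function.iterate_succ_apply]
  have h2 := edg_add (stp y.2) (pos (Th y) n) (Th^[n] (Th y)).2
  rw [add_comm (stp y.2) (pos (Th y) n), h2]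
  simp

/-- the initial pieces converge to the half wall -/
theorem hp_eventually {y : YY} (h : GY y) (C : Finset Ed) :
    ∃ n0, ∀ n ≥ n0, ∀ e ∈ C, hp y e = ind (seg y n) e := by
  classical
  have h1 : ∀ e : Ed, ∃ n0, ∀ n ≥ n0, hp y e = ind (seg y n) e := by
    intro e
    cases he : hp y e with
    | false =>
      refine ⟨0, fun n _ => ?_⟩
      symm
      cases h2 : ind (seg y n) e with
      | false => rfl
      | true =>
        exfalso
        rw [ind_eq_true] at h2
        unfold seg at h2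
        rw [Finset.mem_image] at h2
        obtain ⟨i, _, hi⟩ := h2
        have : hp y e = true := hp_true.2 ⟨i, hi.symm⟩
        rw [he] at this
        exact absurd this (by simp)
    | true =>
      obtain ⟨m, hm⟩ := hp_true.1 he
      refine ⟨m + 1, fun n hn => ?_⟩
      symm
      rw [ind_eq_true]
      unfold seg
      rw [Finset.mem_image]
      exact ⟨m, Finset.mem_range.2 (by omega), hm.symm⟩
  choose n0 hn0 using h1
  refine ⟨C.sup n0, fun n hn e he => hn0 e n (le_trans (Finset.le_sup he) hn)⟩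

end Pool.Agent.Helper83.S5
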