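import Pool.Agent.Helper83.S5.ModifyGen
import Pool.Agent.Helper83.S5.Meas
import Pool.Agent.Helper83.S5.DefA

/-! # S5-POS: (5d), the density of admissible points is positive

The couplings off the wall near `0` are resampled (one at a time) on an event of positive
probability. This needs only that the support of `μ` is unbounded. -/

open MeasureTheory Filter Topology
open scoped symmDiff

namespace Pool.Agent.Helper83.S5

open Pool.Agent.Helper60.TJ

/-- nested resampling of the couplings in a list of edges stays outside of `N` -/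
def PosRes (μ : Measure ℝ) (N : Set (Ed → ℝ)) : List Ed → (Ed → ℝ) → Prop
  | [], J => J ∉ N
  | e :: l, J => ∀ᵐ x ∂μ, PosRes μ N l (upd J e x)

theorem ae_posRes {μ : Measure ℝ} [IsProbabilityMeasure μ] {N : Set (Ed → ℝ)} (hN : PP μ N = 0) :
    ∀ l : List Ed, ∀ᵐ J ∂(PP μ), PosRes μ N l J
  | [] => measure_eq_zero_iff_ae_notMem.1 hN
  | e :: l => by
    have h := ae_posRes hN l
    have h2 : ∀ᵐ q ∂((PP μ).prod μ), PosRes μ N l (upd q.1 e q.2) :=
      (mp_upd μ e).quasiMeasurePreserving.ae h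
    exact Measure.ae_ae_of_ae_prod h2

theorem choose_posRes {μ : Measure ℝ} {N : Set (Ed → ℝ)} (S : Ed → Set ℝ) :
    ∀ l : List Ed, l.Nodup → (∀ e ∈ l, μ (S e) ≠ 0) → ∀ J, PosRes μ N l J →
      ∃ J' : Ed → ℝ, J' ∉ N ∧ (∀ e ∈ l, J' e ∈ S e) ∧ ∀ e, e ∉ l → J' e = J e
  | [], _, _, J, hJ => ⟨J, hJ, by simp, fun _ _ => rfl⟩
  | e :: l, hl, hS, J, hJ => by
    have hx : ∃ x ∈ S e, PosRes μ N l (upd J e x) := by
      by_contra hcon
      push Not at hcon
      refine hS e List.mem_cons_self ?_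
      refine measure_mono_null (fun x hx => ?_) (ae_iff.1 hJ)
      exact hcon x hx
    obtain ⟨x, hxS, hx⟩ := hx
    have hl' := List.nodup_cons.1 hl
    obtain ⟨J', h1, h2, h3⟩ := choose_posRes S l hl'.2
      (fun f hf => hS f (List.mem_cons_of_mem _ hf)) (upd J e x) hx
    refine ⟨J', h1, ?_, ?_⟩
    · intro f hf
      rcases List.mem_cons.1 hf with rfl | hf
      · rw [h3 f hl'.1, upd, Function.update_self]
        exact hxS
      · exact h2 f hf
    · intro f hf
      rw [List.mem_cons, not_or] at hf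
      rw [h3 f hf.2, upd, Function.update_of_ne hf.1]

private theorem posU_tail {μ : Measure ℝ} (hs : μ.map (fun x => -x) = μ)
    (hu : ∀ K : ℝ, μ {x | K < |x|} ≠ 0) (a : ℝ) : μ {x | a < x} ≠ 0 ∧ μ {x | x < -a} ≠ 0 := by
  have h1 : μ {x | a < x} = μ {x | x < -a} := by
    conv_lhs => rw [← hs]
    have hm : MeasurableSet {x : ℝ | a < x} := measurableSet_Ioi
    rw [Measure.map_apply (f := fun x : ℝ => -x) measurable_neg hm]
    congr 1
    ext x
    show a < -x ↔ x < -a
    constructor <;> intro h <;> linarith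
  have h2 : μ {x | a < x} ≠ 0 := by
    intro h0
    have h3 : μ {x | x < -a} = 0 := h1 ▸ h0
    refine hu a (measure_mono_null (t := {x | a < x} ∪ {x | x < -a}) ?_ ?_)
    · intro x hx
      have hx' : a < |x| := hx
      rcases lt_abs.1 hx' with h | h
      · exact Or.inl h
      · right
        show x < -a
        linarith
    · exact measure_union_null h0 h3
  exact ⟨h2, h1 ▸ h2⟩

/-- the density of admissible points is positive if the support of `μ` is unbounded -/
theorem AA_pos_of {μ : Measure ℝ} [IsProbabilityMeasure μ] {Q : Measure XX} (h5 : H5 μ Q)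
    (hvs : Tendsto (fun R : ℕ => nuM Q {y | viol R y}) atTop (𝓝 0))
    (hu : ∀ K : ℝ, μ {x | K < |x|} ≠ 0) : 0 < nuM Q AA := by
  classical
  rw [pos_iff_ne_zero]
  intro h0
  -- the null sets
  have hD : ∀ d : Dir, Q {p : XX | (p, d) ∈ AA} = 0 := by
    intro d
    have hm : MeasurableSet {p : XX | (p, d) ∈ AA} :=
      (measurable_id.prodMk measurable_const) measurableSet_AA
    have h1 : (Q.restrict {p | wl p (edg 0 d) = true}).map (fun p => (p, d)) AA = 0 := by
      have h2 := h0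
      rw [nuM, Measure.coe_finsetSum, Finset.sum_apply, Finset.sum_eq_zero_iff] at h2
      exact h2 d (Finset.mem_univ d)
    rw [Measure.map_apply (f := fun p : XX => (p, d)) (measurable_id.prodMk measurable_const)
      measurableSet_AA, Measure.restrict_apply (show MeasurableSet
      ((fun p : XX => (p, d)) ⁻¹' AA) from hm)] at h1
    refine measure_mono_null (fun p hp => ?_) h1
    exact ⟨hp, (show G2 (p, d) from hp.1).gy.2.1⟩
  set N : Set (Ed → ℝ) := {J | ∃ d : Dir, ¬ ∀ U ∈ GJ J, ∀ U' ∈ GJ J, U ≠ U' →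
    (J, U, U') ∉ {p : XX | (p, d) ∈ AA}} with hN
  have hN0 : PP μ N = 0 := by
    have h1 : ∀ d : Dir, ∀ᵐ J ∂(PP μ), ∀ U ∈ GJ J, ∀ U' ∈ GJ J, U ≠ U' →
        (J, U, U') ∉ {p : XX | (p, d) ∈ AA} := fun d =>
      h5.isQ.ae_all _ ((measurable_id.prodMk measurable_const) measurableSet_AA) (hD d)
    have h2 := ae_all_iff.2 h1
    refine measure_mono_null (fun J hJ => ?_) (ae_iff.1 h2)
    obtain ⟨d, hd⟩ := hJ
    exact fun h => hd (h d)
  have hres : ∀ᵐ y ∂(nuM Q), ∀ l : List Ed, PosRes μ N l y.1.1 := by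
    refine nu_ae_of (P := fun p => ∀ l : List Ed, PosRes μ N l p.1) ?_
    have h1 : ∀ᵐ J ∂(PP μ), ∀ l : List Ed, PosRes μ N l J := ae_all_iff.2 (ae_posRes hN0)
    rw [ae_iff]
    have h2 := h5.isQ.fst_le {J | ¬ ∀ l : List Ed, PosRes μ N l J}
    rw [ae_iff.1 h1, mul_zero] at h2
    exact le_antisymm h2 (zero_le)
  -- a good radius
  obtain ⟨R, hR⟩ : ∃ R : ℕ, nuM Q {y | viol R y} < nuM Q Set.univ :=
    (hvs.eventually (gt_mem_nhds (nu_univ_pos (k := 2) le_rfl h5.isQ))).exists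
  have hgen : ∀ᵐ y ∂(nuM Q), G2 y ∧ (∃ D : ℕ, Dfc y D) ∧ (∀ e, y.1.1 e ≠ 0) ∧
      ∀ l : List Ed, PosRes μ N l y.1.1 := by
    filter_upwards [ae_G2 h5, ae_dfc h5, nu_ae_of h5.isQ.nice, hres] with y h1 h2 h3 h4
    exact ⟨h1, h2, h3.1.nz, h4⟩
  obtain ⟨y, hy, hv⟩ : ∃ y, (G2 y ∧ (∃ D : ℕ, Dfc y D) ∧ (∀ e, y.1.1 e ≠ 0) ∧
      ∀ l : List Ed, PosRes μ N l y.1.1) ∧ ¬ viol R y := by
    by_contra hcon
    push Not at hcon
    have h1 : ∀ᵐ y ∂(nuM Q), y ∈ {y | viol R y} := by
      filter_upwards [hgen] with y hy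
      exact hcon y hy
    have h2 : nuM Q Set.univ ≤ nuM Q {y | viol R y} :=
      measure_mono_ae (h1.mono fun y hy _ => hy)
    exact absurd hR (not_lt.2 h2)
  obtain ⟨hG, ⟨D, hDfc⟩, hnz, hPR⟩ := hy
  -- the edges to be resampled
  set O : Finset Ed := ((box R ×ˢ (Finset.univ : Finset Dir)).image fun q => edg q.1 q.2).filter
    fun e => inb R e ∧ wl y.1 e = false with hO
  have hmem : ∀ e, e ∈ O ↔ inb R e ∧ wl y.1 e = false := by
    intro e
    rw [hO, Finset.mem_filter]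
    refine ⟨fun h => h.2, fun h => ⟨?_, h⟩⟩
    obtain ⟨v, d, h1, h2, -⟩ := h.1
    exact Finset.mem_image.2 ⟨(v, d), Finset.mem_product.2 ⟨h2, Finset.mem_univ d⟩, h1⟩
  set K : ℝ := (D : ℝ) + 1 with hK
  set S : Ed → Set ℝ := fun e => {x | x ≠ 0 ∧ |y.1.1 e| * sg (y.1.2.1 e) + K ≤
    x * (sg (ng y.1.1 e) * sg (y.1.2.1 e))} with hS
  have hSpos : ∀ e, μ (S e) ≠ 0 := by
    intro e
    set a : ℝ := |(|y.1.1 e| * sg (y.1.2.1 e) + K)| with ha
    have ha0 : 0 ≤ a := abs_nonneg _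
    have ha1 : |y.1.1 e| * sg (y.1.2.1 e) + K ≤ a := le_abs_self _
    have hsg : sg (ng y.1.1 e) * sg (y.1.2.1 e) = 1 ∨ sg (ng y.1.1 e) * sg (y.1.2.1 e) = -1 := by
      unfold sg
      split_ifs <;> norm_num
    obtain ⟨h1, h2⟩ := posU_tail h5.sym hu a
    rcases hsg with h | h
    · intro h3
      refine h1 (measure_mono_null (fun x hx => ?_) h3)
      have hx' : a < x := hx
      refine ⟨by linarith, ?_⟩
      rw [h]; linarith
    · intro h3
      refine h2 (measure_mono_null (fun x hx => ?_) h3)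
      have hx' : x < -a := hx
      refine ⟨by linarith, ?_⟩
      rw [h]; linarith
  obtain ⟨J', hJ1, hJ2, hJ3⟩ := choose_posRes (μ := μ) S O.toList O.nodup_toList
    (fun e _ => hSpos e) y.1.1 (hPR _)
  have hoff : ∀ e, ¬ (inb R e ∧ wl y.1 e = false) → J' e = y.1.1 e := by
    intro e he
    exact hJ3 e (by rw [Finset.mem_toList, hmem]; exact he)
  have hon : ∀ e, inb R e → wl y.1 e = false → J' e ∈ S e := by
    intro e h1 h2
    exact hJ2 e (by rw [Finset.mem_toList, hmem]; exact ⟨h1, h2⟩)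
  have hJ0 : ∀ e, J' e ≠ 0 := by
    intro e
    by_cases he : inb R e ∧ wl y.1 e = false
    · exact (hon e he.1 he.2).1
    · rw [hoff e he]; exact hnz e
  obtain ⟨U, U', hUU⟩ := modify_gen hG R K hv
    (fun C hC => by
      have := hDfc C hC
      constructor <;> linarith [this.1, this.2])
    J' hoff (fun e h1 h2 => (hon e h1 h2).2)
  refine hJ1 ?_
  refine ⟨y.2, fun hcon => ?_⟩
  have hG' : G2 ((J', U, U'), y.2) := hUU.1
  refine hcon U hG'.mem U' hG'.mem' ?_ hUU
  intro hUU'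
  have h1 : wl (J', U, U') (edg 0 y.2) = true := hG'.gy.2.1
  simp only [wl, bx, hUU', Bool.xor_self] at h1
  exact Bool.false_ne_true h1

end Pool.Agent.Helper83.S5
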