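import Pool.Agent.Helper83.S5.Psi
import Pool.Agent.Helper83.S5.PosU

/-! # S5-POS: (5d), the density of admissible points is positive -/

open MeasureTheory Filter Topology
open scoped symmDiff

namespace Pool.Agent.Helper83.S5

open Pool.Agent.Helper60.TJ

/-- the support of `μ` is unbounded -/
theorem AA_pos_unb {μ : Measure ℝ} [IsProbabilityMeasure μ] {Q : Measure XX} (h5 : H5 μ Q)
    (hu : ∀ K : ℝ, μ {x | K < |x|} ≠ 0) : 0 < nuM Q AA := AA_pos_of h5 (viol_small h5) hu

theorem AA_pos {μ : Measure ℝ} [IsProbabilityMeasure μ] {Q : Measure XX} (h5 : H5 μ Q)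
    (_hac : μ ≪ volume) (hca : volume ≪ μ) : 0 < nuM Q AA := by
  refine AA_pos_unb h5 fun K hK => ?_
  have h1 : volume {x : ℝ | K < |x|} = 0 := hca hK
  have h2 : volume (Set.Ioi |K|) = 0 := by
    refine measure_mono_null (fun x hx => ?_) h1
    have hx' : |K| < x := hx
    exact lt_of_lt_of_le (lt_of_le_of_lt (le_abs_self K) hx') (le_abs_self x)
  rw [Real.volume_Ioi] at h2
  exact ENNReal.top_ne_zero h2

end Pool.Agent.Helper83.S5
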