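import Pool.Agent.Helper83.S5.Defs

/-! # S5-SHIFT: quasi-invariance under finite translations of the couplings -/

open MeasureTheory Filter Topology
open scoped symmDiff

namespace Pool.Agent.Helper83.S5

open Pool.Agent.Helper60.TJ

private theorem shift_one {μ : Measure ℝ} [IsProbabilityMeasure μ] (hac : μ ≪ volume)
    (hca : volume ≪ μ) (e : Ed) (x : ℝ) {N : Set (Ed → ℝ)} (hN : PP μ N = 0) :
    PP μ {J | upd J e (J e + x) ∈ N} = 0 := by
  set N' := toMeasurable (PP μ) N with hN'
  have hm : MeasurableSet N' := measurableSet_toMeasurable _ _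
  have h0 : PP μ N' = 0 := by rw [hN', measure_toMeasurable]; exact hN
  refine measure_mono_null (t := {J | upd J e (J e + x) ∈ N'})
    (fun J hJ => subset_toMeasurable _ _ hJ) ?_
  have hmp := mp_upd μ e
  have hs0 : Measurable fun J : Ed → ℝ => ((J, J e + x) : (Ed → ℝ) × ℝ) :=
    measurable_id.prodMk (by fun_prop)
  have hs : Measurable fun J : Ed → ℝ => upd J e (J e + x) := (measurable_upd e).comp hs0
  have hms : MeasurableSet {J : Ed → ℝ | upd J e (J e + x) ∈ N'} := hs hm
  rw [← hmp.measure_preimage hms.nullMeasurableSet]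
  have h1 : (PP μ).prod μ ((fun q : (Ed → ℝ) × ℝ => upd q.1 e q.2) ⁻¹' N') = 0 := by
    rw [hmp.measure_preimage hm.nullMeasurableSet]; exact h0
  have h2 := (Measure.measure_prod_null ((measurable_upd e) hm)).1 h1
  have hset : (fun q : (Ed → ℝ) × ℝ => upd q.1 e q.2) ⁻¹' {J | upd J e (J e + x) ∈ N'}
      = {q : (Ed → ℝ) × ℝ | upd q.1 e (q.2 + x) ∈ N'} := by
    ext q
    simp only [Set.mem_preimage, Set.mem_ofPred_eq, upd, Function.update_self,
      Function.update_idem]
  rw [hset]
  have hm2 : Measurable fun q : (Ed → ℝ) × ℝ => upd q.1 e (q.2 + x) :=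
    (measurable_upd e).comp (measurable_fst.prodMk (measurable_snd.add_const x))
  refine (Measure.measure_prod_null (hm2 hm)).2 ?_
  filter_upwards [h2] with J hJ
  have h3 : μ ((fun t : ℝ => upd J e t) ⁻¹' N') = 0 := hJ
  have h4 : volume ((fun t : ℝ => upd J e t) ⁻¹' N') = 0 := hca h3
  have h5 : volume ((fun t : ℝ => t + x) ⁻¹' ((fun t : ℝ => upd J e t) ⁻¹' N')) = 0 := by
    rw [measure_preimage_add_right]; exact h4
  exact hac h5

private theorem shift_fin {μ : Measure ℝ} [IsProbabilityMeasure μ] (hac : μ ≪ volume)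
    (hca : volume ≪ μ) (S : Finset Ed) : ∀ (c : Ed → ℝ), (∀ e, e ∉ S → c e = 0) →
    ∀ {N : Set (Ed → ℝ)}, PP μ N = 0 → PP μ {J | (fun e => J e + c e) ∈ N} = 0 := by
  classical
  induction S using Finset.induction_on with
  | empty =>
    intro c hc N hN
    have : {J : Ed → ℝ | (fun e => J e + c e) ∈ N} = N := by
      ext J
      have : (fun e => J e + c e) = J := by
        funext e; rw [hc e (by simp), add_zero]
      simp only [Set.mem_ofPred_eq, this]
    rw [this]; exact hN
  | insert e S heS ih =>
    intro c hc N hN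
    have h1 := shift_one hac hca e (c e) hN
    have h2 := ih (Function.update c e 0) (fun f hf => by
      by_cases hfe : f = e
      · subst hfe; rw [Function.update_self]
      · rw [Function.update_of_ne hfe]
        exact hc f (by simp [hfe, hf])) h1
    refine measure_mono_null (fun J hJ => ?_) h2
    simp only [Set.mem_ofPred_eq] at hJ ⊢
    convert hJ using 1
    funext f
    by_cases hfe : f = e
    · subst hfe
      simp [upd]
    · simp [upd, Function.update_of_ne hfe]

theorem pp_shift {μ : Measure ℝ} [IsProbabilityMeasure μ] (hac : μ ≪ volume) (hca : volume ≪ μ)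
    (A B : Finset Ed) (K : ℕ) {N : Set (Ed → ℝ)} (hN : PP μ N = 0) :
    PP μ {J | (fun e => J e + cf A B K e) ∈ N} = 0 := by
  classical
  refine shift_fin hac hca (A ∪ B) (cf A B K) (fun e he => ?_) hN
  rw [Finset.mem_union, not_or] at he
  simp [cf, he.1, he.2]

end Pool.Agent.Helper83.S5
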