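import Pool.Agent.Helper83.S5.Loc
import Pool.Agent.Helper83.S5.Pos
import Pool.Agent.Helper83.S5.Erg
import Pool.Agent.Helper83.S5.Dens
import Pool.Agent.EAG.Main

/-! # S5-SYS: the wall space as a system with reflections; the case of two T-joins is impossible -/

open MeasureTheory Filter Topology
open scoped symmDiff

namespace Pool.Agent.Helper83.S5

open Pool.Agent.Helper60.TJ Pool.Agent.EAG

/-- normalised wall measure -/
noncomputable def nuN (Q : Measure XX) : Measure YY := (nuM Q Set.univ)⁻¹ • nuM Q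

namespace Sysx

theorem c_ne_zero {μ : Measure ℝ} [IsProbabilityMeasure μ] {Q : Measure XX} (h5 : H5 μ Q) :
    nuM Q Set.univ ≠ 0 := (nu_univ_pos le_rfl h5.isQ).ne'

theorem c_ne_top {μ : Measure ℝ} [IsProbabilityMeasure μ] {Q : Measure XX} (h5 : H5 μ Q) :
    nuM Q Set.univ ≠ ⊤ := (nu_univ_lt h5.isQ).ne

theorem nuN_apply (Q : Measure XX) (s : Set YY) :
    nuN Q s = (nuM Q Set.univ)⁻¹ * nuM Q s := by
  rw [nuN, Measure.smul_apply, smul_eq_mul]

theorem nuN_real (Q : Measure XX) (s : Set YY) :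
    (nuN Q).real s = ((nuM Q Set.univ)⁻¹).toReal * (nuM Q s).toReal := by
  rw [measureReal_def, nuN_apply, ENNReal.toReal_mul]

theorem tendsto_nuN {μ : Measure ℝ} [IsProbabilityMeasure μ] {Q : Measure XX} (h5 : H5 μ Q)
    {s : ℕ → Set YY} (h : Tendsto (fun k => nuM Q (s k)) atTop (𝓝 0)) :
    Tendsto (fun k => (nuN Q).real (s k)) atTop (𝓝 0) := by
  have h1 : Tendsto (fun k => (nuM Q (s k)).toReal) atTop (𝓝 0) := by
    have := (ENNReal.tendsto_toReal (a := 0) ENNReal.zero_ne_top).comp h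
    simpa [Function.comp_def] using this
  have h2 := h1.const_mul ((nuM Q Set.univ)⁻¹).toReal
  rw [mul_zero] at h2
  simpa only [nuN_real] using h2

theorem Zp_rv {y : YY} (h : G2 y) : Zp (rv y) = Zq y := by
  funext e
  have h3 := congrFun (bx_hp h.gy h.cw) e
  simp only [Zp, Zq, bx, wl, fst_rv] at h3 ⊢
  generalize y.1.2.1 e = a at *
  generalize y.1.2.2 e = b at *
  generalize hp y e = c at *
  generalize hp (rv y) e = d at *
  revert a b c d
  decide

theorem Zq_rv {y : YY} (h : G2 y) : Zq (rv y) = Zp y := by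
  funext e
  have h3 := congrFun (bx_hp h.gy h.cw) e
  simp only [Zp, Zq, bx, wl, fst_rv] at h3 ⊢
  generalize y.1.2.1 e = a at *
  generalize y.1.2.2 e = b at *
  generalize hp y e = c at *
  generalize hp (rv y) e = d at *
  revert a b c d
  decide

theorem rv_AA {y : YY} (h : G2 y) : rv y ∈ S5.AA ↔ y ∈ S5.AA := by
  constructor
  · rintro ⟨_, h1, h2⟩
    rw [Zp_rv h] at h1
    rw [Zq_rv h] at h2
    exact ⟨h, h2, h1⟩
  · rintro ⟨_, h1, h2⟩
    refine ⟨h.rv, ?_, ?_⟩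
    · rw [Zp_rv h]; exact h2
    · rw [Zq_rv h]; exact h1

theorem sw_G2 {y : YY} (h : G2 y) : G2 (sw y) := by
  have h1 : wl (sw y).1 = wl y.1 := wl_sw y
  refine ⟨(GY_congr (wl_sw y) rfl).2 h.gy, h.mem', h.mem, ?_⟩
  intro v hv
  rw [h1] at hv ⊢
  exact h.cw v hv

theorem sw_sw (y : YY) : sw (sw y) = y := rfl

theorem sw_AA (y : YY) : sw y ∈ S5.AA ↔ y ∈ S5.AA := by
  have key : ∀ z : YY, z ∈ S5.AA → sw z ∈ S5.AA := by
    rintro z ⟨hg, h1, h2⟩
    have h3 : hp (sw z) = hp z := hp_congr (wl_sw z) rfl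
    have h4 : S5.Zp (sw z) = S5.Zq z := by unfold S5.Zp S5.Zq; rw [h3]; rfl
    have h5 : S5.Zq (sw z) = S5.Zp z := by unfold S5.Zp S5.Zq; rw [h3]; rfl
    refine ⟨sw_G2 hg, ?_, ?_⟩
    · rw [h4]; exact h2
    · rw [h5]; exact h1
  exact ⟨fun h => by have := key _ h; rwa [sw_sw] at this, key y⟩

theorem iter_Tz (n : ℕ) (y : YY) : (Tz 1)^[n] y = Tz (n : ℤ) y := by
  induction n with
  | zero => rw [Function.iterate_zero, id, Nat.cast_zero, Tz_zero]
  | succ n ih =>
    rw [Function.iterate_succ_apply', ih, ← Tz_add]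
    congr 1
    push_cast
    ring

end Sysx

open Sysx

theorem isProb_nuN {μ : Measure ℝ} [IsProbabilityMeasure μ] {Q : Measure XX} (h5 : H5 μ Q) :
    IsProbabilityMeasure (nuN Q) := by
  refine ⟨?_⟩
  rw [nuN_apply]
  exact ENNReal.inv_mul_cancel (c_ne_zero h5) (c_ne_top h5)

theorem mp_nuN {Q : Measure XX} {f : YY → YY} (hf : MeasurePreserving f (nuM Q) (nuM Q)) :
    MeasurePreserving f (nuN Q) (nuN Q) := hf.smul_measure _

theorem ae_nuN {Q : Measure XX} {P : YY → Prop} (h : ∀ᵐ y ∂(nuM Q), P y) :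
    ∀ᵐ y ∂(nuN Q), P y := Measure.ae_smul_measure h _

theorem ae_nz {μ : Measure ℝ} [IsProbabilityMeasure μ] {Q : Measure XX} (h5 : H5 μ Q) :
    ∀ᵐ y ∂(nuM Q), ∀ e, y.1.1 e ≠ 0 := by
  filter_upwards [nu_ae_of h5.isQ.nice] with y hy
  exact hy.1.nz

/-- the system -/
theorem exists_sys {μ : Measure ℝ} [IsProbabilityMeasure μ] {Q : Measure XX} (h5 : H5 μ Q) :
    ∃ S : Sys YY (nuN Q), S.Th = Tz ∧ S.x = xv ∧ S.A = AA ∧ S.R = RR :=
  ⟨{ Th := Tz
     mpTh := fun k => mp_nuN (mp_Tz h5.isQ k)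
     Th_zero := Tz_zero
     Th_add := Tz_add
     x := xv
     hx := measurable_xv
     A := S5.AA
     hA := measurableSet_AA
     R := RR
     mpR := mp_nuN (mp_RR h5)
     R_mem := by
       filter_upwards [ae_nuN (ae_nz h5)] with y hy h
       rw [Togx.RR_of_mem h]
       exact tog_mem h hy
     R_off := fun y h => Togx.RR_of_notMem h
     xR_pos := by
       filter_upwards [ae_nuN (ae_G2 h5)] with y hy h k
       rw [Togx.RR_of_mem h]
       exact xv_tog_pos hy k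
     xR_neg := by
       filter_upwards [ae_nuN (ae_G2 h5)] with y hy h k
       rw [Togx.RR_of_mem h]
       exact xv_tog_neg hy k }, rfl, rfl, rfl, rfl⟩

theorem sys_V {μ : Measure ℝ} [IsProbabilityMeasure μ] {Q : Measure XX} (h5 : H5 μ Q)
    {S : Sys YY (nuN Q)} (h1 : S.Th = Tz) (h2 : S.x = xv) :
    ∀ᵐ y ∂(nuN Q), ∀ n, S.V y n = Vn n y := by
  filter_upwards [ae_nuN (nu_ae_GY h5.isQ)] with y hy n
  unfold Sys.V Vn
  refine Finset.sum_congr rfl fun l _ => ?_
  rw [h1, h2, Tz_natCast hy]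

theorem sys_loc {μ : Measure ℝ} [IsProbabilityMeasure μ] {Q : Measure XX} (h5 : H5 μ Q)
    {S : Sys YY (nuN Q)} (h1 : S.Th = Tz) (h3 : S.A = AA) (h4 : S.R = RR) : S.Loc := by
  refine ⟨?_, ?_⟩
  · rw [h1, h3, h4]
    exact tendsto_nuN h5 (loc_pos h5)
  · rw [h1, h3, h4]
    exact tendsto_nuN h5 (loc_neg h5)

theorem sys_dens {μ : Measure ℝ} [IsProbabilityMeasure μ] {Q : Measure XX} (h5 : H5 μ Q)
    {S : Sys YY (nuN Q)} (h1 : S.Th = Tz) (h3 : S.A = AA) : S.Dens ((nuN Q).real AA) := by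
  haveI := isProb_nuN h5
  have hG := ae_nuN (nu_ae_GY h5.isQ)
  have hG2 := ae_nuN (ae_G2 h5)
  have key := dens_of_erg (ν := nuN Q) (T := Tz 1) (T' := Tz (-1)) (r := rv) (s := sw)
    (mp_nuN (mp_Tz h5.isQ 1)) (mp_nuN (mp_Tz h5.isQ (-1))) (mp_nuN (mp_rv h5.isQ))
    (mp_nuN (mp_sw h5)) (A := S5.AA)
    (by
      refine Eventually.of_forall fun y => ?_
      rw [← Tz_add]; norm_num [Tz_zero])
    (by
      refine Eventually.of_forall fun y => ?_
      rw [← Tz_add]; norm_num [Tz_zero])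
    (by
      filter_upwards [hG] with y hy
      exact rv_Tz hy 1)
    (by
      filter_upwards [hG] with y hy
      have h2 : GY (sw y) := (GY_congr (wl_sw y) rfl).2 hy
      rw [Tz_one h2, Tz_one hy, Psix.Th_sw])
    measurableSet_AA
    (by
      filter_upwards [hG2] with y hy
      exact rv_AA hy)
    (Eventually.of_forall fun y => sw_AA y)
    (by
      intro E hE h1 h2 h3
      have hc := c_ne_zero h5
      have ht := c_ne_top h5
      have hb : ∀ {P : YY → Prop}, (∀ᵐ y ∂(nuN Q), P y) → ∀ᵐ y ∂(nuM Q), P y := by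
        intro P hP
        rw [ae_iff] at hP ⊢
        rw [nuN_apply, mul_eq_zero, ENNReal.inv_eq_zero] at hP
        exact hP.resolve_left ht
      have h0 : nuM Q E = 0 ∨ nuM Q Eᶜ = 0 := by
        refine zero_one_Y h5 hE ?_ (hb h2) (hb h3)
        filter_upwards [hb h1, nu_ae_GY h5.isQ] with y hy hy2
        rwa [Tz_one hy2] at hy
      rcases h0 with h0 | h0
      · left; rw [nuN_apply, h0, mul_zero]
      · right; rw [nuN_apply, h0, mul_zero])
  unfold Sys.Dens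
  refine key.congr fun n => ?_
  refine integral_congr_ae (Eventually.of_forall fun y => ?_)
  have hcard : ((S.adm y (Finset.range n)).card : ℝ)
      = ∑ k ∈ Finset.range n, S5.AA.indicator (fun _ => (1 : ℝ)) ((Tz 1)^[k] y) := by
    classical
    unfold Sys.adm
    rw [Finset.card_filter]
    push_cast
    refine Finset.sum_congr rfl fun k _ => ?_
    rw [iter_Tz, h1, h3, Set.indicator_apply]
  simp only [hcard]

theorem sys_noTight {μ : Measure ℝ} [IsProbabilityMeasure μ] {Q : Measure XX} (h5 : H5 μ Q)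
    {S : Sys YY (nuN Q)} (h1 : S.Th = Tz) (h2 : S.x = xv) : S.NoTight := by
  have hc := cesaro_wall h5.atl h5.isQ 1
  have hfin : IsFiniteMeasure (nuM Q) := ⟨nu_univ_lt h5.isQ⟩
  unfold Sys.NoTight
  have hc2 := hc.const_mul ((nuM Q Set.univ)⁻¹).toReal
  rw [mul_zero] at hc2
  refine squeeze_zero (fun n => ?_) (fun n => ?_) hc2
  · exact div_nonneg (Finset.sum_nonneg fun _ _ => measureReal_nonneg) (Nat.cast_nonneg _)
  · rw [← mul_assoc, mul_comm ((nuM Q Set.univ)⁻¹).toReal, mul_assoc, Finset.mul_sum,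
      div_eq_inv_mul]
    refine mul_le_mul_of_nonneg_left (Finset.sum_le_sum fun k _ => ?_)
      (inv_nonneg.2 (Nat.cast_nonneg _))
    rw [nuN_real]
    refine mul_le_mul_of_nonneg_left ?_ ENNReal.toReal_nonneg
    have h3 : nuM Q {y | |S.V y k| < 1} ≤ nuM Q {y | |Vn k y| ≤ 1} := by
      refine measure_mono_ae ?_
      filter_upwards [nu_ae_GY h5.isQ] with y hy h4
      have h5' : S.V y k = Vn k y := by
        unfold Sys.V Vn
        refine Finset.sum_congr rfl fun l _ => ?_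
        rw [h1, h2, Tz_natCast hy]
      have h6 : |S.V y k| < 1 := h4
      rw [h5'] at h6
      exact h6.le
    exact ENNReal.toReal_mono (measure_ne_top _ _) h3

/-- section 6 contradicts the reflections -/
theorem not_two {μ : Measure ℝ} [IsProbabilityMeasure μ] {Q : Measure XX} (h5 : H5 μ Q)
    (hu : ∀ K : ℝ, μ {x | K < |x|} ≠ 0)
    (h6 : ∀ δ : ℝ, 0 < δ → ∃ n₁ : ℕ, ∀ n ≥ n₁, ∀ m ≤ n,
      (nuM Q).real {y | (n : ℝ) < |Vn m y| ^ 3} ≤ δ) : False := by
  have hprob := isProb_nuN h5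
  have hfin : IsFiniteMeasure (nuM Q) := ⟨nu_univ_lt h5.isQ⟩
  obtain ⟨S, e1, e2, e3, e4⟩ := exists_sys h5
  have hc := c_ne_zero h5
  have ht := c_ne_top h5
  have hinv : 0 < ((nuM Q Set.univ)⁻¹).toReal :=
    ENNReal.toReal_pos (ENNReal.inv_ne_zero.2 ht) (ENNReal.inv_ne_top.2 hc)
  have hα : 0 < (nuN Q).real S5.AA := by
    rw [nuN_real]
    exact mul_pos hinv (ENNReal.toReal_pos (AA_pos_unb h5 hu).ne' (measure_ne_top _ _))
  refine Pool.Agent.EAG.not_sub S hα (sys_loc h5 e1 e3 e4) (sys_dens h5 e1 e3) (sys_noTight h5 e1 e2) ?_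
  intro δ hδ
  obtain ⟨n₁, hn⟩ := h6 (δ / ((nuM Q Set.univ)⁻¹).toReal) (div_pos hδ hinv)
  refine ⟨n₁, fun n hn1 m hm => ?_⟩
  have h7 := hn n hn1 m hm
  have h8 : nuM Q {y | (n : ℝ) < |S.V y m| ^ 3} = nuM Q {y | (n : ℝ) < |Vn m y| ^ 3} := by
    refine measure_congr ?_
    filter_upwards [nu_ae_GY h5.isQ] with y hy
    have h5' : S.V y m = Vn m y := by
      unfold Sys.V Vn
      refine Finset.sum_congr rfl fun l _ => ?_
      rw [e1, e2, Tz_natCast hy]
    show ((n : ℝ) < |S.V y m| ^ 3) = ((n : ℝ) < |Vn m y| ^ 3)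
    rw [h5']
  rw [nuN_real, h8]
  rw [measureReal_def] at h7
  calc _ ≤ ((nuM Q Set.univ)⁻¹).toReal * (δ / ((nuM Q Set.univ)⁻¹).toReal) :=
        mul_le_mul_of_nonneg_left h7 hinv.le
    _ = δ := by field_simp

end Pool.Agent.Helper83.S5
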